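import Pool.Agent.H90.SF.Def
import Pool.Agent.H90.SF.Kbz

/-! # [SF PT0] The data of the place at infinity without Riemann's inequality: existence

`Pt0` = all fields of `Pt` except `gen`, and the ramification `e` of `x` with `e ρ ≤ [L : k(x)]`. -/

namespace Pool.Agent.H90.SF

open Pool.Agent.H82.NS Pool.Agent.H8.OA Pool.Agent.H12.ON Pool.Agent.H12.OG IntermediateField

/-- a function field with only one place at infinity, the field `k[T]/P` in its residue field -/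
structure Pt0 (k : Type) {L : Type} [Field k] [Field L] [Algebra k L] (x : L) (O : ValuationSubring L)
    (P : Polynomial k) (g π : L) (e s : ℕ) (z : Fin s → L) : Prop where
  ff : FF k x
  cl : RelCl k L
  inf : Inf k x O
  uni : ∀ V : ValuationSubring L, Inf k x V → V = O
  irr : Irreducible P
  Pg : Polynomial.aeval g P ∈ O.nonunits
  π0 : π ≠ 0
  πm : π ∈ O.nonunits
  unf : ∀ a ∈ O.nonunits, a / π ∈ O
  e1 : 1 ≤ e
  x1 : x⁻¹ / π ^ e ∈ O
  x2 : π ^ e * x ∈ O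
  s1 : 1 ≤ s
  zO : ∀ i, z i ∈ O
  zi : ∀ A : Fin s → Polynomial k, (∑ i, Polynomial.aeval g (A i) * z i) ∈ O.nonunits → ∀ i, P ∣ A i
  es : e * (P.natDegree * s) ≤ Module.finrank k⟮x⟯ L
  zs : ∀ a ∈ O, ∃ A : Fin s → Polynomial k, a - ∑ i, Polynomial.aeval g (A i) * z i ∈ O.nonunits

theorem pt0_ex {k L : Type} [Field k] [CharZero k] [Field L] [Algebra k L] {x : L} {O : ValuationSubring L}
    {P : Polynomial k} {g : L} (ff : FF k x) (cl : RelCl k L) (inf : Inf k x O)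
    (uni : ∀ V : ValuationSubring L, Inf k x V → V = O) (irr : Irreducible P)
    (Pg : Polynomial.aeval g P ∈ O.nonunits) :
    ∃ (π : L) (e s : ℕ) (z : Fin s → L), Pt0 k x O P g π e s z := by
  obtain ⟨π, e, π0, πm, huni, e1, x1, x2⟩ := Pool.Agent.H85.LK.unif ff inf
  have hg : g ∈ O := Pool.Agent.H12.GN.gO inf.base irr Pg
  obtain ⟨s, z, zO, s1, zi, es, zs⟩ := kbz ff inf π0 πm e1 x1 x2 irr hg Pg
  exact ⟨π, e, s, z, ff, cl, inf, uni, irr, Pg, π0, πm, huni, e1, x1, x2, s1, zO, zi, es, zs⟩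

theorem Pt0.pt {k L : Type} [Field k] [Field L] [Algebra k L] {x : L} {O : ValuationSubring L}
    {P : Polynomial k} {g π : L} {e s γ : ℕ} {z : Fin s → L} (h : Pt0 k x O P g π e s z)
    (gen : ∀ n : ℕ, ∃ (m : ℕ) (q : Fin m → L), LinearIndependent k q ∧ (∀ i, IsInt k x (q i)) ∧
      (∀ i, π ^ n * q i ∈ O) ∧ P.natDegree * s * n + 1 ≤ m + γ) : Pt k x O P g π s γ z :=
  ⟨h.ff, h.cl, h.inf, h.uni, h.irr, h.Pg, h.π0, h.πm, h.unf, h.s1, h.zO, h.zi, h.zs, gen⟩

end Pool.Agent.H90.SF
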