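import Pool.Agent.H90.SF.Geo

/-! # [SF J7] helper lemmas for `jets` (Jet.lean): expansions as power series

`jtp f`: the power series part of a Laurent series. `JEh k O π E`: the properties of the map `E a = jtp (e q a)`: additive, multiplicative on `O`, `E π = X`, constants to constants. `jt_root`: a power series `f` with
`P(f) ≡ 0` modulo `X^N` is constant modulo `X^N` (`P` separable). `jt_card`: at most `s` geometric points over a root. `jt_ind`: the values of the `z i` at the points over a root are independent over `F`. `jt_tri`: triangular induction.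
`jt_span`: elements of `Lb n` in terms of a basis of `LS n`. -/

namespace Pool.Agent.H90.SF

open Pool.Agent.H82.NS Pool.Agent.H8.OA Pool.Agent.H12.ON Pool.Agent.H12.OG IntermediateField

section ps

variable {F : Type} [Field F]

/-- the power series part -/
noncomputable def jtp (f : LaurentSeries F) : PowerSeries F := PowerSeries.mk fun n => f.coeff (n : ℤ)

theorem jtp_coeff (f : LaurentSeries F) (n : ℕ) : PowerSeries.coeff n (jtp f) = f.coeff (n : ℤ) := by
  rw [jtp, PowerSeries.coeff_mk]

theorem jtp_coe {f : LaurentSeries F} (hf : Pole f 0) : HahnSeries.ofPowerSeries ℤ F (jtp f) = f := by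
  ext i
  rw [PowerSeries.coeff_coe]
  split_ifs with h
  · exact (hf i (by rw [neg_zero]; exact h)).symm
  · rw [jtp_coeff, Int.natCast_natAbs, abs_of_nonneg (not_lt.1 h)]

theorem jtp_ps (p : PowerSeries F) : jtp (HahnSeries.ofPowerSeries ℤ F p) = p := by
  ext n
  rw [jtp_coeff, HahnSeries.ofPowerSeries_apply_coeff]

theorem jtp_mul {f g : LaurentSeries F} (hf : Pole f 0) (hg : Pole g 0) : jtp (f * g) = jtp f * jtp g := by
  have h1 : f * g = HahnSeries.ofPowerSeries ℤ F (jtp f * jtp g) := by
    rw [map_mul, jtp_coe hf, jtp_coe hg]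
  rw [h1, jtp_ps]

theorem jtp_add (f g : LaurentSeries F) : jtp (f + g) = jtp f + jtp g := by
  ext n
  rw [map_add, jtp_coeff, jtp_coeff, jtp_coeff, HahnSeries.coeff_add]

end ps

/-- the expansions, as power series -/
structure JEh (k : Type) {L F : Type} [Field k] [Field L] [Algebra k L] [Field F] [Algebra k F]
    (O : ValuationSubring L) (π : L) (E : L → PowerSeries F) : Prop where
  base : ∀ c : k, algebraMap k L c ∈ O
  add : ∀ a b, E (a + b) = E a + E b
  mul : ∀ a ∈ O, ∀ b ∈ O, E (a * b) = E a * E b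
  pi : E π = PowerSeries.X
  alg : ∀ c : k, E (algebraMap k L c) = PowerSeries.C (algebraMap k F c)

variable {k L F : Type} [Field k] [Field L] [Algebra k L] [Field F] [Algebra k F] {O : ValuationSubring L} {π : L}

theorem jeh_of {ρ : ℕ} {e : Fin ρ → (L →ₐ[k] LaurentSeries F)} (he : Es k O π e) (q : Fin ρ) :
    JEh k O π (fun a => jtp (e q a)) where
  base c := by
    rw [he.val q, AlgHom.commutes, HahnSeries.algebraMap_apply', PowerSeries.algebraMap_apply,
      HahnSeries.ofPowerSeries_C]
    intro i hi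
    rw [neg_zero] at hi
    rw [HahnSeries.C_apply, HahnSeries.coeff_single_of_ne hi.ne]
  add a b := by
    simp only [map_add, jtp_add]
  mul a ha b hb := by
    simp only [map_mul]
    exact jtp_mul ((he.val q a).1 ha) ((he.val q b).1 hb)
  pi := by
    simp only [he.pi q]
    rw [← HahnSeries.ofPowerSeries_X, jtp_ps]
  alg c := by
    simp only [AlgHom.commutes]
    rw [HahnSeries.algebraMap_apply', PowerSeries.algebraMap_apply, jtp_ps]

namespace JEh

variable {E : L → PowerSeries F}

theorem zero (hE : JEh k O π E) : E 0 = 0 := by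
  have h1 := hE.alg 0
  rw [map_zero, map_zero, map_zero] at h1
  exact h1

theorem one (hE : JEh k O π E) : E 1 = 1 := by
  have h1 := hE.alg 1
  rw [map_one, map_one, map_one] at h1
  exact h1

theorem sum (hE : JEh k O π E) {ι : Type} (s : Finset ι) (f : ι → L) : E (∑ i ∈ s, f i) = ∑ i ∈ s, E (f i) := by
  classical
  induction s using Finset.induction_on with
  | empty => rw [Finset.sum_empty, Finset.sum_empty, hE.zero]
  | insert a s ha ih => rw [Finset.sum_insert ha, Finset.sum_insert ha, hE.add, ih]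

theorem neg (hE : JEh k O π E) (a : L) : E (-a) = -E a := by
  have h1 := hE.add (-a) a
  rw [neg_add_cancel, hE.zero] at h1
  exact eq_neg_of_add_eq_zero_left h1.symm

theorem sub (hE : JEh k O π E) (a b : L) : E (a - b) = E a - E b := by
  rw [sub_eq_add_neg, hE.add, hE.neg, sub_eq_add_neg]

theorem pow (hE : JEh k O π E) {a : L} (ha : a ∈ O) (n : ℕ) : E (a ^ n) = E a ^ n := by
  induction n with
  | zero => rw [pow_zero, pow_zero, hE.one]
  | succ n ih => rw [pow_succ, pow_succ, hE.mul _ (O.pow_mem ha n) _ ha, ih]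

theorem aev (hE : JEh k O π E) {g : L} (hg : g ∈ O) (A : Polynomial k) :
    Polynomial.aeval g A ∈ O ∧ E (Polynomial.aeval g A) = Polynomial.aeval (E g) A := by
  induction A using Polynomial.induction_on with
  | C a =>
    rw [Polynomial.aeval_C, Polynomial.aeval_C, PowerSeries.algebraMap_apply]
    exact ⟨hE.base a, hE.alg a⟩
  | add p q hp hq =>
    rw [map_add, map_add]
    exact ⟨O.add_mem _ _ hp.1 hq.1, by rw [hE.add, hp.2, hq.2]⟩
  | monomial n a _ =>
    have h1 : Polynomial.aeval g (Polynomial.C a * Polynomial.X ^ (n + 1)) = algebraMap k L a * g ^ (n + 1) := by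
      simp
    have h2 : Polynomial.aeval (E g) (Polynomial.C a * Polynomial.X ^ (n + 1)) =
        algebraMap k (PowerSeries F) a * (E g) ^ (n + 1) := by
      simp
    rw [h1, h2]
    refine ⟨O.mul_mem _ _ (hE.base a) (O.pow_mem hg _), ?_⟩
    rw [hE.mul _ (hE.base a) _ (O.pow_mem hg _), hE.pow hg, hE.alg, PowerSeries.algebraMap_apply]

end JEh

theorem JEh.non {E : L → PowerSeries F} (hE : JEh k O π E) (h0 : π ≠ 0) (hm : π ∈ O.nonunits)
    (hu : ∀ a ∈ O.nonunits, a / π ∈ O) {a : L} (ha : a ∈ O.nonunits) : PowerSeries.constantCoeff (E a) = 0 := by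
  have h1 : a = π * (a / π) := (mul_div_cancel₀ a h0).symm
  rw [h1, hE.mul _ (O.nonunits_subset hm) _ (hu a ha), hE.pi]
  exact PowerSeries.X_dvd_iff.1 (Dvd.intro _ rfl)

theorem jt_evC (c : F) (B : Polynomial k) :
    Polynomial.aeval (PowerSeries.C c : PowerSeries F) B = PowerSeries.C (Polynomial.aeval c B) := by
  have h1 := Polynomial.hom_eval₂ B (algebraMap k F) (PowerSeries.C (R := F)) c
  rw [Polynomial.aeval_def, Polynomial.aeval_def, h1]
  congr 1
  exact RingHom.ext fun a => PowerSeries.algebraMap_apply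

theorem jt_cc (f : PowerSeries F) (B : Polynomial k) :
    PowerSeries.constantCoeff (Polynomial.aeval f B) = Polynomial.aeval (PowerSeries.constantCoeff f) B := by
  have h1 := Polynomial.hom_eval₂ B (algebraMap k (PowerSeries F)) (PowerSeries.constantCoeff (R := F)) f
  rw [Polynomial.aeval_def, Polynomial.aeval_def, h1]
  congr 1

theorem jt_dvd (f : PowerSeries F) (c : F) (B : Polynomial k) :
    f - PowerSeries.C c ∣ Polynomial.aeval f B - PowerSeries.C (Polynomial.aeval c B) := by
  rw [← jt_evC]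
  have h1 := Polynomial.sub_dvd_eval_sub f (PowerSeries.C c) (B.map (algebraMap k (PowerSeries F)))
  rw [Polynomial.eval_map_algebraMap, Polynomial.eval_map_algebraMap] at h1
  exact h1

theorem jt_root [CharZero k] {P : Polynomial k} (hP : Irreducible P) {f : PowerSeries F} {N : ℕ}
    (hr : Polynomial.aeval (PowerSeries.constantCoeff f) P = 0)
    (hd : (PowerSeries.X : PowerSeries F) ^ N ∣ Polynomial.aeval f P) :
    (PowerSeries.X : PowerSeries F) ^ N ∣ f - PowerSeries.C (PowerSeries.constantCoeff f) := by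
  obtain ⟨c, hc⟩ : ∃ c : F, c = PowerSeries.constantCoeff f := ⟨_, rfl⟩
  rw [← hc] at hr ⊢
  have h1 := Polynomial.Separable.aeval_derivative_ne_zero hP.separable hr
  obtain ⟨w, hw⟩ := Polynomial.binomExpansion (P.map (algebraMap k (PowerSeries F))) (PowerSeries.C c)
    (f - PowerSeries.C c)
  rw [Polynomial.derivative_map, Polynomial.eval_map_algebraMap, Polynomial.eval_map_algebraMap,
    Polynomial.eval_map_algebraMap, add_sub_cancel, jt_evC, jt_evC, hr, map_zero, zero_add] at hw
  have h2 : Polynomial.aeval f P = (f - PowerSeries.C c) *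
      (PowerSeries.C (Polynomial.aeval c (Polynomial.derivative P)) + w * (f - PowerSeries.C c)) := by
    rw [hw]
    ring
  have h3 : IsUnit (PowerSeries.C (Polynomial.aeval c (Polynomial.derivative P)) + w * (f - PowerSeries.C c)) := by
    rw [PowerSeries.isUnit_iff_constantCoeff, map_add, map_mul, map_sub, PowerSeries.constantCoeff_C,
      PowerSeries.constantCoeff_C, ← hc, sub_self, mul_zero, add_zero]
    exact isUnit_iff_ne_zero.2 h1
  rw [h2] at hd
  exact (h3.dvd_mul_right).1 hd

theorem jt_card {ρ r s : ℕ} (ζ : Fin ρ → Fin s → F) (jj : Fin ρ → Fin r) (j : Fin r)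
    (hs : ∀ c : Fin ρ → F, ∃ y : Fin s → F, ∀ q, jj q = j → ∑ i, y i * ζ q i = c q) :
    (Finset.univ.filter fun q => jj q = j).card ≤ s := by
  classical
  let Ψ : (Fin s → F) →ₗ[F] ({q : Fin ρ // jj q = j} → F) :=
    { toFun := fun y q => ∑ i, y i * ζ q.1 i
      map_add' := by
        intro y y'
        funext q
        simp only [Pi.add_apply, add_mul, Finset.sum_add_distrib]
      map_smul' := by
        intro c y
        funext q
        simp only [Pi.smul_apply, smul_eq_mul, RingHom.id_apply, Finset.mul_sum, mul_assoc] }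
  have hsur : Function.Surjective Ψ := by
    intro c
    obtain ⟨y, hy⟩ := hs (fun q => if h : jj q = j then c ⟨q, h⟩ else 0)
    refine ⟨y, ?_⟩
    funext q
    have h1 := hy q.1 q.2
    rw [dif_pos q.2] at h1
    exact h1
  have h1 := LinearMap.finrank_le_finrank_of_surjective hsur
  rw [Module.finrank_fintype_fun_eq_card, Module.finrank_fintype_fun_eq_card, Fintype.card_fin,
    Fintype.card_subtype] at h1
  exact h1

theorem jt_c0 {ρ : ℕ} {e : Fin ρ → (L →ₐ[k] LaurentSeries F)} (q : Fin ρ) (a : L) :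
    (e q a).coeff 0 = PowerSeries.constantCoeff (jtp (e q a)) := by
  rw [← PowerSeries.coeff_zero_eq_constantCoeff_apply, jtp_coeff]
  rfl

theorem jt_ind {x : L} {P : Polynomial k} {g : L} {s γ : ℕ} {z : Fin s → L}
    (h : Pt k x O P g π s γ z) (hg : g ∈ O) {e : Fin (P.natDegree * s) → (L →ₐ[k] LaurentSeries F)}
    (he : Es k O π e) {al : Fin P.natDegree → F} (hal : Function.Injective al)
    {jj : Fin (P.natDegree * s) → Fin P.natDegree} (hjj : ∀ q, (e q g).coeff 0 = al (jj q))
    (j : Fin P.natDegree) (d : Fin s → F)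
    (hd : ∀ q, jj q = j → ∑ i, d i * (e q (z i)).coeff 0 = 0) : d = 0 := by
  classical
  obtain ⟨ℓ, hℓ⟩ : ∃ ℓ : Polynomial F, ℓ = Lagrange.basis Finset.univ al j := ⟨_, rfl⟩
  have hinj : Set.InjOn al ((Finset.univ : Finset (Fin P.natDegree)) : Set (Fin P.natDegree)) := hal.injOn
  have hr : 0 < P.natDegree := h.irr.natDegree_pos
  have hℓ1 : ℓ.eval (al j) = 1 := by
    rw [hℓ]
    exact Lagrange.eval_basis_self hinj (Finset.mem_univ j)
  have hℓ0 : ∀ j', j' ≠ j → ℓ.eval (al j') = 0 := by
    intro j' hj'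
    rw [hℓ]
    exact Lagrange.eval_basis_of_ne hj'.symm (Finset.mem_univ j')
  have hℓd : ℓ.natDegree < P.natDegree := by
    have h1 : ℓ.degree = ((Finset.univ : Finset (Fin P.natDegree)).card - 1 : ℕ) := by
      rw [hℓ]
      exact Lagrange.degree_basis hinj (Finset.mem_univ j)
    rw [Finset.card_fin] at h1
    have h2 := Polynomial.natDegree_eq_of_degree_eq_some h1
    omega
  have hev : ∀ a : F, ℓ.eval a = ∑ l : Fin P.natDegree, ℓ.coeff l * a ^ (l : ℕ) := by
    intro a
    rw [Polynomial.eval_eq_sum_range' hℓd, Finset.sum_range]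
  -- the family
  have hmem : ∀ t : Fin (P.natDegree * s),
      g ^ ((finProdFinEquiv.symm t).1 : ℕ) * z (finProdFinEquiv.symm t).2 ∈ O := fun t =>
    O.mul_mem _ _ (O.pow_mem hg _) (h.zO _)
  have hind : ∀ c : Fin (P.natDegree * s) → k, (∑ t, c t •
      (g ^ ((finProdFinEquiv.symm t).1 : ℕ) * z (finProdFinEquiv.symm t).2)) ∈ O.nonunits → c = 0 := by
    intro c hc
    have h1 : (∑ t, c t • (g ^ ((finProdFinEquiv.symm t).1 : ℕ) * z (finProdFinEquiv.symm t).2)) =
        ∑ i, Polynomial.aeval g (∑ l : Fin P.natDegree, Polynomial.monomial (l : ℕ) (c (finProdFinEquiv (l, i)))) *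
          z i := by
      rw [← Equiv.sum_comp finProdFinEquiv, Fintype.sum_prod_type_right]
      refine Finset.sum_congr rfl fun i _ => ?_
      rw [map_sum, Finset.sum_mul]
      refine Finset.sum_congr rfl fun l _ => ?_
      rw [Equiv.symm_apply_apply, Polynomial.aeval_monomial, Algebra.smul_def]
      ring
    rw [h1] at hc
    have h2 := h.zi _ hc
    funext t
    obtain ⟨⟨l, i⟩, rfl⟩ := finProdFinEquiv.surjective t
    have h3 := h2 i
    have h4 : (∑ l : Fin P.natDegree, Polynomial.monomial (l : ℕ) (c (finProdFinEquiv (l, i)))) = 0 := by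
      refine Polynomial.eq_zero_of_dvd_of_degree_lt h3 ?_
      rw [Polynomial.degree_eq_natDegree h.irr.ne_zero]
      refine lt_of_le_of_lt (Polynomial.degree_sum_le _ _) ?_
      rw [Finset.sup_lt_iff (WithBot.bot_lt_coe _)]
      intro l _
      refine lt_of_le_of_lt (Polynomial.degree_monomial_le _ _) ?_
      exact_mod_cast l.2
    have h5 := congrArg (fun A : Polynomial k => A.coeff (l : ℕ)) h4
    simp only [Polynomial.finset_sum_coeff, Polynomial.coeff_monomial, Polynomial.coeff_zero] at h5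
    rw [Finset.sum_eq_single l] at h5
    · rw [if_pos rfl] at h5
      exact h5
    · intro b _ hb
      rw [if_neg]
      intro hbl
      exact hb (Fin.ext hbl)
    · intro hb
      exact absurd (Finset.mem_univ l) hb
  have hz := he.ind (P.natDegree * s) _ hmem hind
    (fun t => ℓ.coeff ((finProdFinEquiv.symm t).1 : ℕ) * d (finProdFinEquiv.symm t).2) (by
      intro q
      have hE := jeh_of he q
      have h1 : ∀ (l : ℕ) (i : Fin s), (e q (g ^ l * z i)).coeff 0 = al (jj q) ^ l * (e q (z i)).coeff 0 := by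
        intro l i
        have h2 : jtp (e q (g ^ l * z i)) = jtp (e q (g ^ l)) * jtp (e q (z i)) :=
          hE.mul (g ^ l) (O.pow_mem hg l) (z i) (h.zO i)
        have h3 : jtp (e q (g ^ l)) = jtp (e q g) ^ l := hE.pow hg l
        rw [jt_c0, h2, h3, map_mul, map_pow, ← jt_c0, ← jt_c0, hjj]
      rw [← Equiv.sum_comp finProdFinEquiv, Fintype.sum_prod_type]
      have h2 : ∑ l : Fin P.natDegree, ∑ i : Fin s,
          ℓ.coeff ((finProdFinEquiv.symm (finProdFinEquiv (l, i))).1 : ℕ) *
            d (finProdFinEquiv.symm (finProdFinEquiv (l, i))).2 *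
            (e q (g ^ ((finProdFinEquiv.symm (finProdFinEquiv (l, i))).1 : ℕ) *
              z (finProdFinEquiv.symm (finProdFinEquiv (l, i))).2)).coeff 0 =
          (∑ l : Fin P.natDegree, ℓ.coeff l * al (jj q) ^ (l : ℕ)) * ∑ i, d i * (e q (z i)).coeff 0 := by
        rw [Finset.sum_mul]
        refine Finset.sum_congr rfl fun l _ => ?_
        rw [Finset.mul_sum]
        refine Finset.sum_congr rfl fun i _ => ?_
        rw [Equiv.symm_apply_apply, h1]
        ring
      rw [h2, ← hev]
      by_cases hq : jj q = j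
      · rw [hd q hq, mul_zero]
      · rw [hℓ0 _ hq, zero_mul])
  obtain ⟨l, hl⟩ : ∃ l : Fin P.natDegree, ℓ.coeff l ≠ 0 := by
    by_contra hcon
    push Not at hcon
    rw [hev, Finset.sum_eq_zero fun l _ => by rw [hcon l, zero_mul]] at hℓ1
    exact zero_ne_one hℓ1
  funext i
  have h1 := congrFun hz (finProdFinEquiv (l, i))
  simp only [Equiv.symm_apply_apply, Pi.zero_apply] at h1
  exact (mul_eq_zero.1 h1).resolve_left hl

theorem JEh.expd {E : L → PowerSeries F} (hE : JEh k O π E) (hπ : π ∈ O) {s N : ℕ} {z : Fin s → L}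
    (hz : ∀ i, z i ∈ O) {g' : L} (hg' : g' ∈ O) {α : F}
    (hα : (PowerSeries.X : PowerSeries F) ^ N ∣ E g' - PowerSeries.C α) (B : Fin s → ℕ → Polynomial k) {r a : L}
    (hr : r ∈ O)
    (ha : a = (∑ i, ∑ j ∈ Finset.range N, Polynomial.aeval g' (B i j) * z i * π ^ j) + r * π ^ N) :
    (PowerSeries.X : PowerSeries F) ^ N ∣ E a - ∑ i, ∑ u : Fin N,
      PowerSeries.C (Polynomial.aeval α (B i u)) * E (z i) * PowerSeries.X ^ (u : ℕ) := by
  have h1 : ∀ i j, E (Polynomial.aeval g' (B i j) * z i * π ^ j) =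
      Polynomial.aeval (E g') (B i j) * E (z i) * PowerSeries.X ^ j := by
    intro i j
    have h2 := hE.aev hg' (B i j)
    rw [hE.mul _ (O.mul_mem _ _ h2.1 (hz i)) _ (O.pow_mem hπ j), hE.mul _ h2.1 _ (hz i), hE.pow hπ, hE.pi, h2.2]
  have h2 : E a = (∑ i, ∑ u : Fin N, Polynomial.aeval (E g') (B i u) * E (z i) * PowerSeries.X ^ (u : ℕ)) +
      E r * PowerSeries.X ^ N := by
    rw [ha, hE.add, hE.sum, hE.mul _ hr _ (O.pow_mem hπ N), hE.pow hπ, hE.pi]
    congr 1
    refine Finset.sum_congr rfl fun i _ => ?_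
    rw [hE.sum, Finset.sum_range]
    exact Finset.sum_congr rfl fun u _ => h1 i u
  rw [h2, add_sub_right_comm, ← Finset.sum_sub_distrib]
  refine dvd_add (Finset.dvd_sum fun i _ => ?_) (Dvd.intro_left _ rfl)
  rw [← Finset.sum_sub_distrib]
  refine Finset.dvd_sum fun u _ => ?_
  rw [← sub_mul, ← sub_mul]
  exact Dvd.dvd.mul_right (Dvd.dvd.mul_right (hα.trans (jt_dvd _ _ _)) _) _

theorem jt_tri {ρ s N : ℕ} (Z : Fin ρ → Fin s → PowerSeries F) (Qj : Fin ρ → Prop)
    (hind : ∀ d : Fin s → F, (∀ q, Qj q → ∑ i, d i * PowerSeries.constantCoeff (Z q i) = 0) → d = 0)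
    (d : Fin s → Fin N → F) (h : ∀ q, Qj q → ∀ n < N, PowerSeries.coeff n
      (∑ i, ∑ u : Fin N, PowerSeries.C (d i u) * Z q i * PowerSeries.X ^ (u : ℕ)) = 0) :
    ∀ (n : ℕ) (hn : n < N) (i : Fin s), d i ⟨n, hn⟩ = 0 := by
  intro n
  induction n using Nat.strong_induction_on with
  | _ n ih =>
    intro hn i
    have h1 : (fun i => d i ⟨n, hn⟩) = 0 := by
      apply hind
      intro q hq
      have h2 := h q hq n hn
      rw [map_sum] at h2
      rw [← h2]
      refine Finset.sum_congr rfl fun i _ => ?_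
      rw [map_sum, Finset.sum_eq_single ⟨n, hn⟩]
      · rw [PowerSeries.coeff_mul_X_pow', if_pos (le_refl _), Nat.sub_self, PowerSeries.coeff_C_mul,
          PowerSeries.coeff_zero_eq_constantCoeff_apply]
      · intro u _ hu
        rw [PowerSeries.coeff_mul_X_pow']
        split_ifs with hle
        · have hlt : (u : ℕ) < n := lt_of_le_of_ne hle fun h3 => hu (Fin.ext h3)
          rw [PowerSeries.coeff_C_mul, ih u hlt u.2 i, zero_mul]
        · rfl
      · intro hh
        exact absurd (Finset.mem_univ _) hh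
    exact congrFun h1 i

theorem jt_smul (e : L →ₐ[k] LaurentSeries F) (c : k) (a : L) :
    e (c • a) = (algebraMap k F c) • e a := by
  rw [Algebra.smul_def, map_mul, AlgHom.commutes, HahnSeries.algebraMap_apply', PowerSeries.algebraMap_apply,
      HahnSeries.ofPowerSeries_C, HahnSeries.C_mul_eq_smul]

theorem jt_sc (c : F) (f : LaurentSeries F) (n : ℤ) : (c • f).coeff n = c * f.coeff n := by
  rw [HahnSeries.coeff_smul, smul_eq_mul]

theorem jt_sc2 {ρ : ℕ} (c : F) (f : Fin ρ → LaurentSeries F) (q : Fin ρ) (n : ℤ) :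
    ((c • f) q).coeff n = c * (f q).coeff n := by
  rw [Pi.smul_apply, jt_sc]

theorem jt_span [CharZero k] {x : L} {m n ρ : ℕ} {φ : Fin m → L} {e : Fin ρ → (L →ₐ[k] LaurentSeries F)}
    (hφ : ∀ a ∈ LS k x O π n, a ∈ Submodule.span k (Set.range φ)) {ψ : Fin ρ → LaurentSeries F}
    (hψ : ψ ∈ Lb k x O π e n) : ∃ w : Fin m → F, ∀ q i, (ψ q).coeff i = ∑ l, w l * (e q (φ l)).coeff i := by
  have h1 : ψ ∈ Submodule.span F (Set.range fun l => fun q => e q (φ l)) := by
    refine Submodule.span_le.2 ?_ hψ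
    rintro _ ⟨a, ha, rfl⟩
    obtain ⟨cc, hcc⟩ := (Submodule.mem_span_range_iff_exists_fun k).1 (hφ a ha)
    have h2 : (fun q => e q a) = ∑ l, algebraMap k F (cc l) • (fun q => e q (φ l)) := by
      funext q
      rw [← hcc, map_sum, Finset.sum_apply]
      refine Finset.sum_congr rfl fun l _ => ?_
      rw [jt_smul]
      rfl
    change (fun q => e q a) ∈ Submodule.span F (Set.range fun l => fun q => e q (φ l))
    rw [h2]
    exact Submodule.sum_mem _ fun l _ => Submodule.smul_mem _ _ (Submodule.subset_span ⟨l, rfl⟩)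
  obtain ⟨w, hw⟩ := (Submodule.mem_span_range_iff_exists_fun F).1 h1
  refine ⟨w, fun q i => ?_⟩
  rw [← hw, Finset.sum_apply, HahnSeries.coeff_sum]
  exact Finset.sum_congr rfl fun l _ => jt_sc2 _ _ _ _

end Pool.Agent.H90.SF
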