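import Pool.Agent.H90.SF.Geo
import Pool.Agent.H90.SF.Jta

/-! # [SF J7] JETS: the end theorem of chapter J

`ls_fin` for `n = 2D`: basis `φ` of `LS (2D)`, `m`; `0 < m`: `ρ 2D + 1 > γ` (`D ≥ 14 (γ/ρ + 1)`). `nwt` (H85/LK/Nwt) for `3D`: `g'`. `spc`, `exd` (H12/GN/Exd) for `a = π^(2D) φ_k ∈ O`, `M = 3D`: `b k i u`.
Let `F`, `al`, `J` be given. `esx`: `e`. For each `q`: `α q = (e q g).coeff 0` is a root of `P` in `F` (`P(g) ∈ m`), so `α q = al j` for exactly one `j = j(q)` (`al` injective, `natDegree P` roots: all roots), and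
`e q g' ≡ al j` modulo `t^(3D)` (`P(e q g')` is divisible by `t^(3D)`, constant coefficient `al j` is a simple root: `P(u) = ∏ (u - al j')`, the factors with `j' ≠ j` are units of `F[[t]]`).
`T = {q : j(q) ∈ J}`: `|T| ≤ s |J|`: for each `j` the number of `q` over `j` is at most `s`: by `Es.sur` the vectors `((e q a).coeff 0)_q`, `a ∈ O`, span `F^ρ`; for `q` over `j` `(e q a).coeff 0 = ∑_i A_i(al j) (e q z_i).coeff 0` (`h.zs`), so the restrictions are combinations of
`s` vectors. `2|T| ≤ s (r + 1)`.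
Given `c`: `τ q = t^(-2D) ∑_{i,u} c_(j,i,u) (e q z_i) t^u` for `q ∈ T` over `j`, `0` otherwise. `geo_jets`: `φ ∈ Lb (2D)`, `φ = ∑_k w_k E(φ_k)` (`LS (2D)` is the span of the `φ_k`). For `q ∈ T` over `j`: `t^(2D) (e q φ_k) ≡ ∑_{i,u} b_(k,i,u)(al j) (e q z_i) t^u` modulo `t^(3D)`.
So with `d_(i,u) = ∑_k w_k b_(k,i,u)(al j) - c_(j,i,u)`: `∑_{i,u} d_(i,u) (e q z_i) t^u ≡ 0` modulo `t^(3D)` for all `q` over `j`. Induction on `u`: all `d_(i,u) = 0`: the coefficient of `t^u` is `∑_i d_(i,u) (e q z_i).coeff 0 = 0` for all `q` over `j`.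
This implies `d_(i,u) = 0`: let `ℓ = ∑_l λ_l T^l ∈ F[T]`, degree `< r`, `ℓ(al j) = 1`, `ℓ(al j') = 0` for `j' ≠ j` (Lagrange); `∑_(l,i) λ_l d_i (e q (g^l z_i)).coeff 0 = ℓ(al (j q)) ∑_i d_i (e q z_i).coeff 0 = 0` for ALL `q`; the `g^l z_i` (`l < r`) are independent over `k` modulo `m` (`h.zi`),
`Es.ind`: `λ_l d_i = 0` for all `l, i`, `ℓ ≠ 0`. (`0 < |J|` is not needed.) -/

namespace Pool.Agent.H90.SF

open Pool.Agent.H82.NS Pool.Agent.H8.OA Pool.Agent.H12.ON Pool.Agent.H12.OG IntermediateField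

/-- the expansions of a basis `φ` of the functions of pole order at most `2D`, with coefficients `b k i u ∈ k[T]` (taken modulo `P`) -/
structure Bas (k : Type) {L : Type} [Field k] [Field L] [Algebra k L] (x : L) (O : ValuationSubring L)
    (P : Polynomial k) (g π : L) (s : ℕ) (z : Fin s → L) (D m : ℕ) (φ : Fin m → L) (g' : L)
    (b : Fin m → Fin s → Fin (3 * D) → Polynomial k) : Prop where
  m1 : 0 < m
  li : LinearIndependent k φ
  int : ∀ i, IsInt k x (φ i)
  pol : ∀ i, π ^ (2 * D) * φ i ∈ O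
  gO : g' ∈ O
  gm : g' - g ∈ O.nonunits
  Pg : Polynomial.aeval g' P / π ^ (3 * D) ∈ O
  exp : ∀ j, (π ^ (2 * D) * φ j - ∑ i, ∑ u : Fin (3 * D), Polynomial.aeval g' (b j i u) * z i * π ^ (u : ℕ)) /
    π ^ (3 * D) ∈ O

/-- surjectivity onto the jets over at most half of the roots -/
def Sj {k : Type} [Field k] (P : Polynomial k) {s D m : ℕ} (b : Fin m → Fin s → Fin (3 * D) → Polynomial k)
    (F : Type) [Field F] [Algebra k F] : Prop :=
  ∀ (al : Fin P.natDegree → F), Function.Injective al → (∀ j, Polynomial.aeval (al j) P = 0) →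
    ∀ J : Finset (Fin P.natDegree), 2 * J.card ≤ P.natDegree + 1 →
      ∀ c : Fin P.natDegree → Fin s → Fin (3 * D) → F, ∃ w : Fin m → F, ∀ j ∈ J, ∀ i u,
        ∑ l, w l * Polynomial.aeval (al j) (b l i u) = c j i u

theorem jt_sj {k L F : Type} [Field k] [CharZero k] [Field L] [Algebra k L] {x : L} {O : ValuationSubring L}
    {P : Polynomial k} {g π : L} {s γ : ℕ} {z : Fin s → L} (h : Pt k x O P g π s γ z) (hr7 : 7 ≤ P.natDegree) {D : ℕ}
    (hD : 14 * (γ / (P.natDegree * s) + 1) ≤ D) {m : ℕ} {φ : Fin m → L}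
    (hφO : ∀ l, π ^ (2 * D) * φ l ∈ O) (hφs : ∀ a ∈ LS k x O π (2 * D), a ∈ Submodule.span k (Set.range φ))
    {g' : L} (hg' : g' ∈ O) (hgm : g' - g ∈ O.nonunits) (hPg : Polynomial.aeval g' P / π ^ (3 * D) ∈ O)
    (B : Fin m → Fin s → ℕ → Polynomial k) (r : Fin m → L) (hr : ∀ l, r l ∈ O)
    (hB : ∀ l, π ^ (2 * D) * φ l = (∑ i, ∑ j ∈ Finset.range (3 * D),
      Polynomial.aeval g' (B l i j) * z i * π ^ j) + r l * π ^ (3 * D))
    [Field F] [Algebra k F] [IsAlgClosed F] [Algebra.IsAlgebraic k F] :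
    Sj P (D := D) (fun l i (u : Fin (3 * D)) => B l i u) F := by
  classical
  intro al hal hroot J hJ c
  have hg : g ∈ O := Pool.Agent.H12.GN.gO h.inf.base h.irr h.Pg
  have hπ : π ∈ O := O.nonunits_subset h.πm
  obtain ⟨e, he⟩ := esx (F := F) h
  obtain ⟨E, hEd⟩ : ∃ E : Fin (P.natDegree * s) → L → PowerSeries F, ∀ q a, E q a = jtp (e q a) :=
    ⟨fun q a => jtp (e q a), fun _ _ => rfl⟩
  have hE : ∀ q, JEh k O π (E q) := by
    intro q
    have h1 : E q = fun a => jtp (e q a) := funext fun a => hEd q a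
    rw [h1]
    exact jeh_of he q
  have hc0 : ∀ q a, (e q a).coeff 0 = PowerSeries.constantCoeff (E q a) := by
    intro q a
    rw [hEd]
    exact jt_c0 q a
  -- the root over which q lies
  have hjx : ∀ q, ∃ j, (e q g).coeff 0 = al j := by
    intro q
    have h1 : Polynomial.aeval ((e q g).coeff 0) P = 0 := by
      rw [hc0, ← jt_cc, ← ((hE q).aev hg P).2]
      exact (hE q).non h.π0 h.πm h.unf h.Pg
    have hP0 : P.map (algebraMap k F) ≠ 0 := Polynomial.map_ne_zero h.irr.ne_zero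
    have h3 : Finset.univ.image al = (P.map (algebraMap k F)).roots.toFinset := by
      apply Finset.eq_of_subset_of_card_le
      · intro a ha
        obtain ⟨j, -, rfl⟩ := Finset.mem_image.1 ha
        rw [Multiset.mem_toFinset, Polynomial.mem_roots hP0, Polynomial.IsRoot.def,
          Polynomial.eval_map_algebraMap]
        exact hroot j
      · rw [Finset.card_image_of_injective _ hal, Finset.card_fin]
        exact (Multiset.toFinset_card_le _).trans ((Polynomial.card_roots' _).trans Polynomial.natDegree_map_le)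
    have h4 : (e q g).coeff 0 ∈ Finset.univ.image al := by
      rw [h3, Multiset.mem_toFinset, Polynomial.mem_roots hP0, Polynomial.IsRoot.def,
        Polynomial.eval_map_algebraMap]
      exact h1
    obtain ⟨j, -, hj⟩ := Finset.mem_image.1 h4
    exact ⟨j, hj.symm⟩
  choose jj hjj using hjx
  have hg2 : ∀ q, (PowerSeries.X : PowerSeries F) ^ (3 * D) ∣ E q g' - PowerSeries.C (al (jj q)) := by
    intro q
    have h0 : PowerSeries.constantCoeff (E q g') = al (jj q) := by
      have h2 := (hE q).non h.π0 h.πm h.unf hgm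
      rw [(hE q).sub, map_sub, sub_eq_zero] at h2
      rw [h2, ← hc0, hjj]
    have h3 : (PowerSeries.X : PowerSeries F) ^ (3 * D) ∣ Polynomial.aeval (E q g') P := by
      rw [← ((hE q).aev hg' P).2]
      have h5 : Polynomial.aeval g' P = π ^ (3 * D) * (Polynomial.aeval g' P / π ^ (3 * D)) :=
        (mul_div_cancel₀ _ (pow_ne_zero _ h.π0)).symm
      rw [h5, (hE q).mul _ (O.pow_mem hπ _) _ hPg, (hE q).pow hπ, (hE q).pi]
      exact Dvd.intro _ rfl
    have h8 := jt_root h.irr (f := E q g') (N := 3 * D) (by rw [h0]; exact hroot _) h3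
    rw [h0] at h8
    exact h8
  -- the number of points over a root
  have hfib : ∀ j, (Finset.univ.filter fun q => jj q = j).card ≤ s := by
    intro j
    refine jt_card (fun q i => (e q (z i)).coeff 0) jj j ?_
    intro c
    obtain ⟨n, a, w, ha, hw⟩ := he.sur c
    choose A hA using fun i => h.zs (a i) (ha i)
    refine ⟨fun i => ∑ t, w t * Polynomial.aeval (al j) (A t i), fun q hq => ?_⟩
    rw [← hw q]
    have h1 : ∀ t, (e q (a t)).coeff 0 = ∑ i, Polynomial.aeval (al j) (A t i) * (e q (z i)).coeff 0 := by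
      intro t
      have h2 := (hE q).non h.π0 h.πm h.unf (hA t)
      rw [(hE q).sub, map_sub, sub_eq_zero, (hE q).sum, map_sum] at h2
      rw [hc0, h2]
      refine Finset.sum_congr rfl fun i _ => ?_
      rw [(hE q).mul _ ((hE q).aev hg _).1 _ (h.zO i), map_mul, ((hE q).aev hg _).2, jt_cc, ← hc0, ← hc0, hjj, hq]
    have h2 : ∑ t, w t * (e q (a t)).coeff 0 =
        ∑ t, ∑ i, w t * (Polynomial.aeval (al j) (A t i) * (e q (z i)).coeff 0) :=
      Finset.sum_congr rfl fun t _ => by rw [h1 t, Finset.mul_sum]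
    rw [h2, Finset.sum_comm]
    refine Finset.sum_congr rfl fun i _ => ?_
    rw [Finset.sum_mul]
    exact Finset.sum_congr rfl fun t _ => by ring
  obtain ⟨T, hT⟩ : ∃ T : Finset (Fin (P.natDegree * s)), T = Finset.univ.filter (fun q => jj q ∈ J) := ⟨_, rfl⟩
  have hTc : 2 * T.card ≤ P.natDegree * s + s := by
    have h1 : T.card ≤ s * J.card := by
      rw [Finset.card_eq_sum_card_fiberwise (f := jj) (s := T) (t := J) (fun q hq => by
        rw [hT, Finset.coe_filter] at hq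
        exact hq.2)]
      calc ∑ b ∈ J, (T.filter fun q => jj q = b).card ≤ ∑ b ∈ J, s :=
            Finset.sum_le_sum fun b _ => (Finset.card_le_card
              (Finset.filter_subset_filter _ (Finset.subset_univ _))).trans (hfib b)
        _ = s * J.card := by rw [Finset.sum_const, smul_eq_mul, mul_comm]
    nlinarith
  -- the prescribed principal parts
  obtain ⟨τ, hτ⟩ : ∃ τ : Fin (P.natDegree * s) → LaurentSeries F, ∀ q, τ q =
      HahnSeries.single (-((2 * D : ℕ) : ℤ)) 1 * HahnSeries.ofPowerSeries ℤ F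
        (∑ i, ∑ u : Fin (3 * D), PowerSeries.C (c (jj q) i u) * E q (z i) * PowerSeries.X ^ (u : ℕ)) :=
    ⟨_, fun _ => rfl⟩
  have hτP : ∀ q, Pole (τ q) ((2 * D : ℕ) : ℤ) := by
    intro q i hi
    rw [hτ, HahnSeries.coeff_single_mul, one_mul, PowerSeries.coeff_coe, if_pos (by omega)]
  obtain ⟨ψ, hψ, hψT⟩ := geo_jets h hr7 hD he hTc hτP
  obtain ⟨w, hw⟩ := jt_span hφs hψ
  refine ⟨w, fun j hj => ?_⟩
  have hshift : ∀ q l (n : ℕ), (e q (φ l)).coeff ((n : ℤ) - ((2 * D : ℕ) : ℤ)) =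
      PowerSeries.coeff n (E q (π ^ (2 * D) * φ l)) := by
    intro q l n
    rw [hEd, jtp_coeff, map_mul, map_pow, he.pi, HahnSeries.single_pow, one_pow, HahnSeries.coeff_single_mul,
      one_mul, nsmul_eq_mul, mul_one]
  have hkey : ∀ q, jj q = j → ∀ n < 3 * D, PowerSeries.coeff n (∑ i, ∑ u : Fin (3 * D),
      PowerSeries.C ((∑ l, w l * Polynomial.aeval (al j) (B l i u)) - c j i u) * E q (z i) *
        PowerSeries.X ^ (u : ℕ)) = 0 := by
    intro q hq n hn
    have hqT : q ∈ T := by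
      rw [hT, Finset.mem_filter]
      exact ⟨Finset.mem_univ q, by rw [hq]; exact hj⟩
    have h1 := hψT q hqT ((n : ℤ) - ((2 * D : ℕ) : ℤ)) (by push_cast; omega)
    rw [HahnSeries.coeff_sub, hw, sub_eq_zero, hτ, HahnSeries.coeff_single_mul, one_mul,
      show (n : ℤ) - ((2 * D : ℕ) : ℤ) - -((2 * D : ℕ) : ℤ) = (n : ℤ) by ring,
      HahnSeries.ofPowerSeries_apply_coeff, hq] at h1
    have h2 : ∀ l, (e q (φ l)).coeff ((n : ℤ) - ((2 * D : ℕ) : ℤ)) = PowerSeries.coeff n
        (∑ i, ∑ u : Fin (3 * D), PowerSeries.C (Polynomial.aeval (al j) (B l i u)) * E q (z i) *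
          PowerSeries.X ^ (u : ℕ)) := by
      intro l
      rw [hshift]
      have h3 := (hE q).expd hπ h.zO hg' (hg2 q) (B l) (hr l) (hB l)
      rw [PowerSeries.X_pow_dvd_iff] at h3
      have h4 := h3 n hn
      rw [map_sub, sub_eq_zero, hq] at h4
      exact h4
    have h2' : ∑ l, w l * (e q (φ l)).coeff ((n : ℤ) - ((2 * D : ℕ) : ℤ)) =
        ∑ l, w l * PowerSeries.coeff n (∑ i, ∑ u : Fin (3 * D),
          PowerSeries.C (Polynomial.aeval (al j) (B l i u)) * E q (z i) * PowerSeries.X ^ (u : ℕ)) :=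
      Finset.sum_congr rfl fun l _ => by rw [h2 l]
    rw [h2'] at h1
    have h5 : (∑ i, ∑ u : Fin (3 * D),
        PowerSeries.C ((∑ l, w l * Polynomial.aeval (al j) (B l i u)) - c j i u) * E q (z i) *
          PowerSeries.X ^ (u : ℕ)) =
        (∑ l, PowerSeries.C (w l) * (∑ i, ∑ u : Fin (3 * D),
          PowerSeries.C (Polynomial.aeval (al j) (B l i u)) * E q (z i) * PowerSeries.X ^ (u : ℕ))) -
        (∑ i, ∑ u : Fin (3 * D), PowerSeries.C (c j i u) * E q (z i) * PowerSeries.X ^ (u : ℕ)) := by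
      have h6 : (∑ l, PowerSeries.C (w l) * (∑ i, ∑ u : Fin (3 * D),
          PowerSeries.C (Polynomial.aeval (al j) (B l i u)) * E q (z i) * PowerSeries.X ^ (u : ℕ))) =
          ∑ i, ∑ u : Fin (3 * D), ∑ l, PowerSeries.C (w l) *
            (PowerSeries.C (Polynomial.aeval (al j) (B l i u)) * E q (z i) * PowerSeries.X ^ (u : ℕ)) := by
        simp only [Finset.mul_sum]
        rw [Finset.sum_comm]
        exact Finset.sum_congr rfl fun i _ => Finset.sum_comm
      rw [h6, ← Finset.sum_sub_distrib]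
      refine Finset.sum_congr rfl fun i _ => ?_
      rw [← Finset.sum_sub_distrib]
      refine Finset.sum_congr rfl fun u _ => ?_
      rw [map_sub, map_sum, sub_mul, sub_mul, Finset.sum_mul, Finset.sum_mul]
      congr 1
      refine Finset.sum_congr rfl fun l _ => ?_
      rw [map_mul]
      ring
    rw [h5, map_sub, map_sum, h1, sub_eq_zero]
    exact Finset.sum_congr rfl fun l _ => PowerSeries.coeff_C_mul _ _ _
  have htri := jt_tri (fun q i => E q (z i)) (fun q => jj q = j) (fun d hd =>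
    jt_ind h hg he hal hjj j d (fun q hq => by
      rw [← hd q hq]
      exact Finset.sum_congr rfl fun i _ => by rw [hc0])) _ hkey
  intro i u
  have h1 := htri u u.2 i
  exact sub_eq_zero.1 h1

theorem jets {k L : Type} [Field k] [CharZero k] [Field L] [Algebra k L] {x : L} {O : ValuationSubring L}
    {P : Polynomial k} {g π : L} {s γ : ℕ} {z : Fin s → L} (h : Pt k x O P g π s γ z) (hr : 7 ≤ P.natDegree) {D : ℕ}
    (hD : 14 * (γ / (P.natDegree * s) + 1) ≤ D) :
    ∃ (m : ℕ) (φ : Fin m → L) (g' : L) (b : Fin m → Fin s → Fin (3 * D) → Polynomial k),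
      Bas k x O P g π s z D m φ g' b ∧
      ∀ (F : Type) [Field F] [Algebra k F] [IsAlgClosed F] [Algebra.IsAlgebraic k F], Sj P b F := by
  have hbase : ∀ c : k, algebraMap k L c ∈ O := h.inf.base
  have hg : g ∈ O := Pool.Agent.H12.GN.gO hbase h.irr h.Pg
  have hpos : 0 < P.natDegree * s := Nat.mul_pos (by omega) h.s1
  obtain ⟨m, φ, hφi, hφ, hφs, hm⟩ := ls_fin h (2 * D)
  have hm1 : 0 < m := by
    have h1 : γ < P.natDegree * s * (γ / (P.natDegree * s) + 1) := Nat.lt_mul_div_succ γ hpos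
    have h2 : P.natDegree * s * (γ / (P.natDegree * s) + 1) ≤ P.natDegree * s * (2 * D) :=
      Nat.mul_le_mul_left _ (by omega)
    omega
  obtain ⟨g', hg'O, hg'm, hg'P⟩ := Pool.Agent.H85.LK.nwt hbase h.π0 h.πm h.unf hg h.irr h.Pg (3 * D)
  have hsp := Pool.Agent.H12.GN.spc hbase h.zO hg hg'O hg'm h.zs
  have hex := fun j => Pool.Agent.H12.GN.exd h.π0 h.unf hsp (3 * D) (hφ j).2
  choose B r hr' hB using hex
  refine ⟨m, φ, g', fun l i u => B l i u, ⟨hm1, hφi, fun i => (hφ i).1, fun i => (hφ i).2, hg'O, hg'm, hg'P,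
    fun j => ?_⟩, fun F _ _ _ _ => jt_sj h hr hD (fun l => (hφ l).2) hφs hg'O hg'm hg'P B r hr' hB⟩
  have h1 : ∑ i, ∑ u : Fin (3 * D), Polynomial.aeval g' (B j i u) * z i * π ^ (u : ℕ) =
      ∑ i, ∑ u ∈ Finset.range (3 * D), Polynomial.aeval g' (B j i u) * z i * π ^ u :=
    Finset.sum_congr rfl fun i _ =>
      (Finset.sum_range fun u => Polynomial.aeval g' (B j i u) * z i * π ^ u).symm
  rw [h1, hB j, add_sub_cancel_left, mul_div_cancel_right₀ _ (pow_ne_zero _ h.π0)]
  exact hr' j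

end Pool.Agent.H90.SF
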