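import Pool.Agent.H90.SF.Emb
import Pool.Agent.H82.NS.PlA

/-! # [SF J2] Existence of the expansions at all geometric points

The residue field `κ` of `O` (`IsLocalRing.ResidueField O`) is a `k`-algebra (`hO`), of dimension `ρ = r s` with the basis `g^l z_i`, `l < r`, `i < s` (`h.zs`: spanning after reducing the `A_i` modulo `P`; `h.zi`:
`∑ c_(l,i) g^l z_i ∈ m` gives `P ∣ ∑_l c_(l,i) T^l`, of degree `< r`, so it is zero). Separable (characteristic zero): primitive element; lift it to `g₁ ∈ O`, `Q` = its minimal polynomial over `k`, `natDegree Q = ρ`, `Q(g₁) ∈ m`, every `a ∈ O` is `≡ A(g₁)`.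
`Q` has `ρ` different roots `β_q` in `F` (separable, `IsAlgClosed`). `hd` for `emb1`: for `a ≠ 0` `pole_bdd` (H82/NS/PlA.lean) for `a⁻¹` (`a⁻¹ x⁻¹^j ∈ O`) and `rank_one` (`π^M x^j ∈ O`). `emb1` for each `β_q` gives `e q`.
`ind`: let `a_i ∈ O` be independent over `k` modulo `m`, `a_i ≡ A_i(g₁)`, `deg A_i < ρ`; `(e q a_i).coeff 0 = A_i(β_q)` (for `A ∈ k[T]`: `e q (aeval g₁ A) = aeval (e q g₁) A`, constant coefficient is a ring homomorphism on series without pole; elements of `m` have constant coefficient `0`: `a/π ∈ O`).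
The `A_i` are independent over `k`, so over `F` (`Polynomial.map`; e.g. extend to a basis / coefficients: linear independence of vectors over `k` stays over `F`), `∑ c_i A_i` has degree `< ρ` and vanishes at the `ρ` points `β_q`: it is zero, `c = 0`.
`sur`: `a_l = g₁^l`, `l < ρ`: Vandermonde (`Polynomial.Lagrange.interpolate` or `Matrix.det_vandermonde_ne_zero_iff`): `w` = coefficients of the interpolation polynomial. -/

namespace Pool.Agent.H90.SF

open Pool.Agent.H82.NS Pool.Agent.H8.OA Pool.Agent.H12.ON Pool.Agent.H12.OG IntermediateField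

/-- a primitive element of the residue field -/
private theorem esx_prim {k L : Type} [Field k] [CharZero k] [Field L] [Algebra k L]
    {x : L} {O : ValuationSubring L} {P : Polynomial k} {g π : L} {s γ : ℕ} {z : Fin s → L}
    (h : Pt k x O P g π s γ z) :
    ∃ (g₁ : L) (Q : Polynomial k), g₁ ∈ O ∧ Irreducible Q ∧ Q.natDegree = P.natDegree * s ∧
      Polynomial.aeval g₁ Q ∈ O.nonunits ∧
      ∀ a ∈ O, ∃ A : Polynomial k, a - Polynomial.aeval g₁ A ∈ O.nonunits := by
  have hO : ∀ c : k, algebraMap k L c ∈ O := h.inf.base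
  letI : Algebra k O := ((algebraMap k L).codRestrict O.toSubring hO).toAlgebra
  haveI : IsScalarTower k O L := IsScalarTower.of_algebraMap_eq fun c => rfl
  have hres : ∀ a : O, IsLocalRing.residue O a = 0 ↔ (a : L) ∈ O.nonunits := fun a => by
    rw [IsLocalRing.residue_eq_zero_iff, ← ValuationSubring.coe_mem_nonunits_iff]
  have hcoe : ∀ (a : O) (A : Polynomial k), ((Polynomial.aeval a A : O) : L) = Polynomial.aeval (a : L) A :=
    fun a A => (Polynomial.aeval_algebraMap_apply L a A).symm
  have hrae : ∀ (a : O) (A : Polynomial k), IsLocalRing.residue O (Polynomial.aeval a A) =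
      Polynomial.aeval (IsLocalRing.residue O a) A :=
    fun a A => (Polynomial.aeval_algebraMap_apply (IsLocalRing.ResidueField O) a A).symm
  have hP0 : P ≠ 0 := h.irr.ne_zero
  -- `g ∈ O`
  have hg : g ∈ O := by
    by_contra hg
    have hy : g⁻¹ ∈ O := (O.mem_or_inv_mem g).resolve_left hg
    have hg0 : g ≠ 0 := fun h0 => hg (by rw [h0]; exact O.zero_mem)
    obtain ⟨y, hyd⟩ : ∃ y : O, (y : L) = g⁻¹ := ⟨⟨g⁻¹, hy⟩, rfl⟩
    have hy0 : IsLocalRing.residue O y = 0 := by
      rw [hres, hyd, ValuationSubring.inv_mem_nonunits_iff]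
      exact Or.inr hg
    have h1 : Polynomial.aeval (y : L) P.reverse * g ^ P.natDegree = Polynomial.aeval g P := by
      letI : Invertible g := invertibleOfNonzero hg0
      have := Polynomial.eval₂_reverse_mul_pow (algebraMap k L) g P
      rw [invOf_eq_inv] at this
      rw [hyd]
      exact this
    obtain ⟨w, hw⟩ : ∃ w : O, (w : L) = Polynomial.aeval g P :=
      ⟨⟨_, O.nonunits_subset h.Pg⟩, rfl⟩
    have hw0 : IsLocalRing.residue O w = 0 := by rw [hres, hw]; exact h.Pg
    have h2 : Polynomial.aeval y P.reverse = w * y ^ P.natDegree := by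
      apply Subtype.ext
      rw [hcoe]
      push_cast
      rw [hw, ← h1, hyd, mul_assoc, ← mul_pow, mul_inv_cancel₀ hg0, one_pow, mul_one]
    have h3 := congrArg (IsLocalRing.residue O) h2
    rw [hrae, map_mul, hw0, zero_mul, hy0, ← Polynomial.coeff_zero_eq_aeval_zero', Polynomial.coeff_zero_reverse] at h3
    have h4 : P.leadingCoeff = 0 := (map_eq_zero_iff _ (algebraMap k (IsLocalRing.ResidueField O)).injective).1 h3
    exact hP0 (Polynomial.leadingCoeff_eq_zero.1 h4)
  obtain ⟨gO, hgO⟩ : ∃ gO : O, (gO : L) = g := ⟨⟨g, hg⟩, rfl⟩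
  obtain ⟨zO, hzO⟩ : ∃ zO : Fin s → O, ∀ i, (zO i : L) = z i := ⟨fun i => ⟨z i, h.zO i⟩, fun i => rfl⟩
  have hgP : Polynomial.aeval (IsLocalRing.residue O gO) P = 0 := by
    rw [← hrae, hres, hcoe, hgO]; exact h.Pg
  -- the basis
  set b : Fin P.natDegree × Fin s → IsLocalRing.ResidueField O :=
    fun p => IsLocalRing.residue O gO ^ (p.1 : ℕ) * IsLocalRing.residue O (zO p.2) with hb
  have hli : LinearIndependent k b := by
    rw [Fintype.linearIndependent_iff]
    intro c hc
    obtain ⟨A, hA⟩ : ∃ A : Fin s → Polynomial k, ∀ i, A i = ∑ l : Fin P.natDegree, Polynomial.C (c (l, i)) * Polynomial.X ^ (l : ℕ) :=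
      ⟨_, fun i => rfl⟩
    have h1 : (∑ i, Polynomial.aeval g (A i) * z i) ∈ O.nonunits := by
      have h2 : (∑ i, Polynomial.aeval g (A i) * z i) = ((∑ i, Polynomial.aeval gO (A i) * zO i : O) : L) := by
        push_cast
        refine Finset.sum_congr rfl fun i _ => ?_
        rw [hcoe, hgO, hzO]
      rw [h2, ← hres, map_sum, ← hc, Fintype.sum_prod_type_right]
      refine Finset.sum_congr rfl fun i _ => ?_
      rw [map_mul, hrae, hA, map_sum, Finset.sum_mul]
      refine Finset.sum_congr rfl fun l _ => ?_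
      rw [map_mul, Polynomial.aeval_C, map_pow, Polynomial.aeval_X, hb, Algebra.smul_def]
      ring
    have h2 := h.zi A h1
    intro p
    have h3 : A p.2 = 0 := by
      refine Polynomial.eq_zero_of_dvd_of_degree_lt (h2 p.2) ?_
      rw [Polynomial.degree_eq_natDegree hP0, hA]
      refine lt_of_le_of_lt (Polynomial.degree_sum_le _ _) ?_
      rw [Finset.sup_lt_iff (WithBot.bot_lt_coe _)]
      intro l _
      exact lt_of_le_of_lt (Polynomial.degree_C_mul_X_pow_le _ _) (by exact_mod_cast l.2)
    have h4 := congrArg (fun B => Polynomial.coeff B (p.1 : ℕ)) h3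
    simp only [hA, Polynomial.finset_sum_coeff, Polynomial.coeff_C_mul, Polynomial.coeff_X_pow, Polynomial.coeff_zero] at h4
    rw [Finset.sum_eq_single p.1] at h4
    · simpa using h4
    · intro l _ hl
      rw [if_neg, mul_zero]
      intro h5
      exact hl (Fin.ext h5.symm)
    · intro h5
      exact absurd (Finset.mem_univ _) h5
  have hsp : ⊤ ≤ Submodule.span k (Set.range b) := by
    intro y _
    obtain ⟨a, rfl⟩ := IsLocalRing.residue_surjective y
    obtain ⟨A, hA⟩ := h.zs a a.2
    have h1 : IsLocalRing.residue O a = ∑ i, Polynomial.aeval (IsLocalRing.residue O gO) (A i) *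
        IsLocalRing.residue O (zO i) := by
      have h2 : (a : L) - ∑ i, Polynomial.aeval g (A i) * z i =
          ((a - ∑ i, Polynomial.aeval gO (A i) * zO i : O) : L) := by
        push_cast
        congr 1
        refine Finset.sum_congr rfl fun i _ => ?_
        rw [hcoe, hgO, hzO]
      rw [h2, ← hres, map_sub, sub_eq_zero, map_sum] at hA
      rw [hA]
      refine Finset.sum_congr rfl fun i _ => ?_
      rw [map_mul, hrae]
    rw [h1]
    refine Submodule.sum_mem _ fun i _ => ?_
    have h3 : Polynomial.aeval (IsLocalRing.residue O gO) (A i) =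
        Polynomial.aeval (IsLocalRing.residue O gO) (A i % P) := by
      conv_lhs => rw [← EuclideanDomain.div_add_mod (A i) P]
      rw [map_add, map_mul, hgP, zero_mul, zero_add]
    have h4 : (A i % P).natDegree < P.natDegree ∨ A i % P = 0 := by
      by_cases h5 : A i % P = 0
      · exact Or.inr h5
      · exact Or.inl (Polynomial.natDegree_lt_natDegree h5 (Polynomial.degree_mod_lt _ hP0))
    rcases h4 with h4 | h4
    · rw [h3, Polynomial.aeval_eq_sum_range' h4, Finset.sum_mul]
      refine Submodule.sum_mem _ fun l hl => ?_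
      rw [Finset.mem_range] at hl
      rw [smul_mul_assoc]
      exact Submodule.smul_mem _ _ (Submodule.subset_span ⟨(⟨l, hl⟩, i), rfl⟩)
    · rw [h3, h4, map_zero, zero_mul]
      exact Submodule.zero_mem _
  have hbas := Module.Basis.mk hli hsp
  haveI : FiniteDimensional k (IsLocalRing.ResidueField O) := Module.Finite.of_basis hbas
  have hrank : Module.finrank k (IsLocalRing.ResidueField O) = P.natDegree * s := by
    rw [Module.finrank_eq_card_basis hbas, Fintype.card_prod, Fintype.card_fin, Fintype.card_fin]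
  obtain ⟨α, hα⟩ := Field.exists_primitive_element k (IsLocalRing.ResidueField O)
  obtain ⟨a1, rfl⟩ := IsLocalRing.residue_surjective α
  have hint : IsIntegral k (IsLocalRing.residue O a1) := IsIntegral.of_finite k _
  refine ⟨a1, minpoly k (IsLocalRing.residue O a1), a1.2, minpoly.irreducible hint, ?_, ?_, ?_⟩
  · rw [← hrank]
    exact (Field.primitive_element_iff_minpoly_natDegree_eq k _).1 hα
  · rw [← hcoe, ← hres, hrae]
    exact minpoly.aeval _ _
  · intro a ha
    have h1 : IsLocalRing.residue O ⟨a, ha⟩ ∈ k⟮IsLocalRing.residue O a1⟯ := by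
      rw [hα]; exact IntermediateField.mem_top
    rw [← IntermediateField.mem_toSubalgebra,
      IntermediateField.adjoin_simple_toSubalgebra_of_isAlgebraic hint.isAlgebraic,
      Algebra.adjoin_singleton_eq_range_aeval] at h1
    obtain ⟨A, hA⟩ := h1
    refine ⟨A, ?_⟩
    have h2 : a - Polynomial.aeval (a1 : L) A = (((⟨a, ha⟩ : O) - Polynomial.aeval a1 A : O) : L) := by
      push_cast
      rw [hcoe]
    rw [h2, ← hres, map_sub, hrae, sub_eq_zero]
    exact hA.symm

private theorem nonunits_add {L : Type} [Field L] {O : ValuationSubring L} {a b : L} (ha : a ∈ O.nonunits)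
    (hb : b ∈ O.nonunits) : a + b ∈ O.nonunits := by
  rw [ValuationSubring.mem_nonunits_iff] at ha hb ⊢
  exact lt_of_le_of_lt (Valuation.map_add _ _ _) (max_lt ha hb)

private theorem nonunits_mul {L : Type} [Field L] {O : ValuationSubring L} {a b : L} (ha : a ∈ O.nonunits)
    (hb : b ∈ O) : a * b ∈ O.nonunits := by
  rw [ValuationSubring.mem_nonunits_iff] at ha ⊢
  rw [← ValuationSubring.valuation_le_one_iff] at hb
  rw [map_mul]
  exact mul_lt_one_of_lt_of_le ha hb

private theorem nonunits_sum {L : Type} [Field L] {O : ValuationSubring L} {n : ℕ} {f : Fin n → L}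
    (hf : ∀ i, f i ∈ O.nonunits) : ∑ i, f i ∈ O.nonunits := by
  have h0 : (0 : L) ∈ O.nonunits := by
    rw [ValuationSubring.mem_nonunits_iff, map_zero]
    exact zero_lt_one
  refine Finset.sum_induction f (fun a => a ∈ O.nonunits) (fun a b => nonunits_add) h0 fun i _ => hf i

private theorem pole0 {F : Type} [Field F] {f : LaurentSeries F} (hf : Pole f 0) {i : ℤ} (hi : f.coeff i ≠ 0) :
    0 ≤ i := by
  by_contra hn
  push Not at hn
  exact hi (hf i (by rwa [neg_zero]))

private theorem coeff0_mul {F : Type} [Field F] {f g : LaurentSeries F} (hf : Pole f 0) (hg : Pole g 0) :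
    (f * g).coeff 0 = f.coeff 0 * g.coeff 0 := by
  rw [HahnSeries.coeff_mul]
  refine (Finset.sum_eq_single (0, 0) ?_ ?_)
  · rintro ⟨i, j⟩ hij hne
    rw [Finset.mem_addAntidiagonal] at hij
    obtain ⟨h1, h2, h3⟩ := hij
    have i0 := pole0 hf (HahnSeries.mem_support _ _ |>.1 h1)
    have j0 := pole0 hg (HahnSeries.mem_support _ _ |>.1 h2)
    exfalso
    apply hne
    simp only at h3 i0 j0
    ext <;> simp only <;> omega
  · intro h1
    rw [Finset.mem_addAntidiagonal] at h1
    by_contra h2
    apply h1
    exact ⟨(HahnSeries.mem_support _ _).2 (left_ne_zero_of_mul h2), (HahnSeries.mem_support _ _).2 (right_ne_zero_of_mul h2),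
      add_zero 0⟩

theorem esx {k L F : Type} [Field k] [CharZero k] [Field L] [Algebra k L] [Field F] [Algebra k F] [IsAlgClosed F]
    {x : L} {O : ValuationSubring L} {P : Polynomial k} {g π : L} {s γ : ℕ} {z : Fin s → L}
    (h : Pt k x O P g π s γ z) :
    ∃ e : Fin (P.natDegree * s) → (L →ₐ[k] LaurentSeries F), Es k O π e := by
  classical
  obtain ⟨g₁, Q, hg1, hQ, hQd, hQg, hs⟩ := esx_prim h
  have hO : ∀ c : k, algebraMap k L c ∈ O := h.inf.base
  -- archimedean
  have hd : ∀ a : L, a ≠ 0 → ∃ n : ℕ, π ^ n / a ∈ O := by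
    intro a ha
    obtain ⟨j, hj⟩ := pole_bdd h.ff h.inf a⁻¹
    obtain ⟨M, hM⟩ := rank_one h.ff h.inf h.πm j
    have hx0 : x ≠ 0 := fun h0 => h.inf.pole (by rw [h0]; exact O.zero_mem)
    refine ⟨M, ?_⟩
    have h1 := O.mul_mem _ _ hM hj
    have h2 : π ^ M * x ^ j * (a⁻¹ * x⁻¹ ^ j) = π ^ M / a := by
      rw [inv_pow]
      field_simp
    rwa [h2] at h1
  -- the roots
  have hQ0 : Q ≠ 0 := hQ.ne_zero
  have hcard : Fintype.card (Q.rootSet F) = P.natDegree * s := by
    rw [Polynomial.card_rootSet_eq_natDegree hQ.separable (IsAlgClosed.splits _), hQd]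
  obtain ⟨β, hβi, hβ⟩ : ∃ β : Fin (P.natDegree * s) → F, Function.Injective β ∧ ∀ q, Polynomial.aeval (β q) Q = 0 := by
    obtain ⟨E⟩ : Nonempty (Fin (P.natDegree * s) ≃ Q.rootSet F) :=
      ⟨(Fintype.equivFinOfCardEq hcard).symm⟩
    refine ⟨fun q => (E q : F), fun a b hab => E.injective (Subtype.ext hab), fun q => ?_⟩
    exact ((Polynomial.mem_rootSet.1 (E q).2)).2
  have hex := fun q => emb1 (F := F) hO h.π0 h.πm h.unf hd hQ hg1 hQg hs (hβ q)
  choose e he1 he2 he3 using hex
  -- constant coefficients
  have hpol : ∀ q (a : L), a ∈ O → Pole (e q a) 0 := fun q a ha => (he2 q a).1 ha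
  have hm0 : ∀ q (a : L), a ∈ O.nonunits → (e q a).coeff 0 = 0 := by
    intro q a ha
    have h1 : a = a / π * π := by rw [div_mul_cancel₀ _ h.π0]
    rw [h1, map_mul, coeff0_mul (hpol q _ (h.unf a ha)) (hpol q _ (O.nonunits_subset h.πm)), he1,
      HahnSeries.coeff_single_of_ne (by norm_num), mul_zero]
  have hpw : ∀ q (n : ℕ), (e q (g₁ ^ n)).coeff 0 = β q ^ n := by
    intro q n
    induction n with
    | zero => rw [pow_zero, map_one, pow_zero, HahnSeries.coeff_one, if_pos rfl]
    | succ n ih =>
      rw [pow_succ, map_mul, coeff0_mul (hpol q _ (O.pow_mem hg1 n)) (hpol q _ hg1), ih, he3, pow_succ]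
  have hae : ∀ q (A : Polynomial k), (e q (Polynomial.aeval g₁ A)).coeff 0 = Polynomial.aeval (β q) A := by
    intro q A
    induction A using Polynomial.induction_on' with
    | add A B hA hB => rw [map_add, map_add, HahnSeries.coeff_add, hA, hB, map_add]
    | monomial n r =>
      rw [Polynomial.aeval_monomial, map_mul, AlgHom.commutes, HahnSeries.algebraMap_apply', PowerSeries.algebraMap_apply,
        HahnSeries.ofPowerSeries_C, HahnSeries.C_apply, HahnSeries.coeff_single_zero_mul, hpw, Polynomial.aeval_monomial]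
  have hcg : ∀ q (a : L) (A : Polynomial k), a - Polynomial.aeval g₁ A ∈ O.nonunits →
      (e q a).coeff 0 = Polynomial.aeval (β q) A := by
    intro q a A hA
    have h1 := hm0 q _ hA
    rw [map_sub, HahnSeries.coeff_sub, sub_eq_zero] at h1
    rw [h1, hae]
  refine ⟨e, ⟨he1, he2, ?_, ?_⟩⟩
  · intro n a ha hin c hc
    have hex : ∀ i, ∃ A : Polynomial k, A.degree < Q.degree ∧ a i - Polynomial.aeval g₁ A ∈ O.nonunits := by
      intro i
      obtain ⟨A, hA⟩ := hs _ (ha i)
      refine ⟨A % Q, Polynomial.degree_mod_lt _ hQ0, ?_⟩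
      have hdO : Polynomial.aeval g₁ (A / Q) ∈ O := by
        rw [Polynomial.aeval_eq_sum_range]
        refine O.toSubring.sum_mem fun l _ => ?_
        rw [Algebra.smul_def]
        exact O.mul_mem _ _ (hO _) (O.pow_mem hg1 _)
      have h1 : a i - Polynomial.aeval g₁ (A % Q) = (a i - Polynomial.aeval g₁ A) +
          Polynomial.aeval g₁ Q * Polynomial.aeval g₁ (A / Q) := by
        have h2 := congrArg (Polynomial.aeval g₁) (EuclideanDomain.div_add_mod A Q)
        rw [map_add, map_mul] at h2
        linear_combination -h2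
      rw [h1]
      exact nonunits_add hA (nonunits_mul hQg hdO)
    choose A hAd hA using hex
    -- independence over `k`
    have hAk : ∀ d : Fin n → k, ∑ i, Polynomial.C (d i) * A i = 0 → d = 0 := by
      intro d hd0
      refine hin d ?_
      have h1 : ∑ i, d i • a i = ∑ i, d i • (a i - Polynomial.aeval g₁ (A i)) := by
        have h2 := congrArg (Polynomial.aeval g₁) hd0
        rw [map_sum, map_zero] at h2
        simp only [smul_sub, Finset.sum_sub_distrib]
        rw [eq_comm, sub_eq_self, ← h2]
        refine Finset.sum_congr rfl fun i _ => ?_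
        rw [map_mul, Polynomial.aeval_C, Algebra.smul_def]
      rw [h1]
      refine nonunits_sum fun i => ?_
      rw [Algebra.smul_def, mul_comm]
      exact nonunits_mul (hA i) (hO _)
    -- the combination over `F`
    have hB : ∑ i, Polynomial.C (c i) * (A i).map (algebraMap k F) = 0 := by
      refine Polynomial.eq_zero_of_degree_lt_of_eval_finset_eq_zero (Finset.univ.image β) ?_ ?_
      · rw [Finset.card_image_of_injective _ hβi, Finset.card_univ, Fintype.card_fin, ← hQd,
          ← Polynomial.degree_eq_natDegree hQ0]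
        refine lt_of_le_of_lt (Polynomial.degree_sum_le _ _) ?_
        rw [Finset.sup_lt_iff (bot_lt_iff_ne_bot.2 (Polynomial.degree_ne_bot.2 hQ0))]
        intro i _
        by_cases hci : c i = 0
        · rw [hci, Polynomial.C_0, zero_mul, Polynomial.degree_zero]
          exact bot_lt_iff_ne_bot.2 (Polynomial.degree_ne_bot.2 hQ0)
        · rw [Polynomial.degree_C_mul hci, Polynomial.degree_map]
          exact hAd i
      · intro y hy
        obtain ⟨q, -, rfl⟩ := Finset.mem_image.1 hy
        rw [Polynomial.eval_finset_sum, ← hc q]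
        refine Finset.sum_congr rfl fun i _ => ?_
        rw [Polynomial.eval_mul, Polynomial.eval_C, Polynomial.eval_map_algebraMap, hcg q _ _ (hA i)]
    set bs := Module.Basis.ofVectorSpace k F with hbs
    have hcoord : ∀ t, (fun i => bs.coord t (c i)) = 0 := by
      intro t
      refine hAk _ ?_
      ext l
      have h1 := congrArg (fun B => bs.coord t (Polynomial.coeff B l)) hB
      simp only [Polynomial.finset_sum_coeff, Polynomial.coeff_C_mul, Polynomial.coeff_map, Polynomial.coeff_zero,
        map_sum, map_zero] at h1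
      rw [Polynomial.finset_sum_coeff, Polynomial.coeff_zero, ← h1]
      refine Finset.sum_congr rfl fun i _ => ?_
      rw [Polynomial.coeff_C_mul, mul_comm (c i), ← Algebra.smul_def, map_smul, smul_eq_mul, mul_comm]
    funext i
    refine (bs.forall_coord_eq_zero_iff).1 fun t => ?_
    exact congrFun (hcoord t) i
  · intro c
    refine ⟨_, fun l : Fin ((Lagrange.interpolate Finset.univ β c).natDegree + 1) => g₁ ^ (l : ℕ),
      fun l => (Lagrange.interpolate Finset.univ β c).coeff l, fun l => O.pow_mem hg1 _, fun q => ?_⟩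
    have h1 : (Lagrange.interpolate Finset.univ β c).eval (β q) = c q :=
      Lagrange.eval_interpolate_at_node _ (hβi.injOn) (Finset.mem_univ q)
    rw [← h1, Polynomial.eval_eq_sum_range, Finset.sum_range]
    refine Finset.sum_congr rfl fun l _ => ?_
    rw [hpw]

end Pool.Agent.H90.SF
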