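import Pool.Agent.H90.SF.Def
import Pool.Agent.H82.NS.PlB

/-! # [SF J3] Leading coefficients: all residues occur for pole orders larger than `2γ/ρ + 1`

`κ` = residue field of `O`, dimension `ρ = r s` over `k` (see J2). For `n ≥ 1` let `A_n ⊆ κ` be the `k`-subspace of the residues of `π^n φ`, `φ ∈ LS n`. The kernel of `LS n → A_n` is `LS (n-1)` (`π^n φ ∈ m` implies `π^(n-1) φ ∈ O`: `h.unf`),
`LS 0` = constants, dimension one (`φ` integral over `k[x]` and in `O`: it is in every valuation ring over `k`: if `x ∈ V` integrally closed, if `x ∉ V` then `V = O`; so algebraic over `k`: a transcendental `φ` would have a place `V ∌ φ` over `k` (`exists_place`, H82/NS/PlB.lean); `h.cl`).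
So `dim LS n = 1 + ∑_{1≤i≤n} dim A_i`, and by `h.gen` `∑_{1≤i≤n} (ρ - dim A_i) ≤ γ` for every `n`.
`A_i A_j ⊆ A_(i+j)`. If `A, B ⊆ κ` are subspaces with `dim A + dim B > ρ` then the products `a b` span `κ`: otherwise there is a `k`-linear `λ : κ → k`, `λ ≠ 0`, `λ(A B) = 0`; `x ↦ λ(x ·)` is injective from `κ` to its dual (`κ` a field), so
`B` is mapped injectively into the annihilator of `A`, of dimension `ρ - dim A`: contradiction.
Suppose `A_n ≠ κ`, `n > 2γ/ρ + 1`. For each `0 < i < n`: `dim A_i + dim A_(n-i) ≤ ρ`. Sum: `2 ∑_{0<i<n} (ρ - dim A_i) ≥ (n-1) ρ`, so `(n-1) ρ ≤ 2γ`, `n - 1 ≤ 2γ/ρ`: contradiction. -/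

namespace Pool.Agent.H90.SF

open Pool.Agent.H82.NS Pool.Agent.H8.OA Pool.Agent.H12.ON Pool.Agent.H12.OG IntermediateField

/-- products of two large subspaces of a finite extension -/
private theorem led_mul {k κ : Type} [Field k] [Field κ] [Algebra k κ] [FiniteDimensional k κ] (A B : Submodule k κ)
    (h : Module.finrank k κ < Module.finrank k A + Module.finrank k B) : A * B = ⊤ := by
  by_contra hne
  obtain ⟨f, hf0, hf⟩ := (A * B).exists_le_ker_of_lt_top (lt_top_iff_ne_top.2 hne)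
  have hmul : ∀ a ∈ A, ∀ b ∈ B, f (a * b) = 0 := fun a ha b hb => hf (Submodule.mul_mem_mul ha hb)
  obtain ⟨Φ, hΦ⟩ : ∃ Φ : κ →ₗ[k] Module.Dual k κ, ∀ b a, Φ b a = f (a * b) :=
    ⟨(LinearMap.llcomp k κ κ k f).comp (LinearMap.mul k κ).flip, fun b a => rfl⟩
  have hinj : Function.Injective Φ := by
    rw [← LinearMap.ker_eq_bot, LinearMap.ker_eq_bot']
    intro b hb
    by_contra hb0
    refine hf0 (LinearMap.ext fun a => ?_)
    have := LinearMap.congr_fun hb (a * b⁻¹)
    rw [hΦ, mul_assoc, inv_mul_cancel₀ hb0, mul_one] at this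
    exact this
  have hle : B.map Φ ≤ A.dualAnnihilator := by
    rintro _ ⟨b, hb, rfl⟩
    rw [Submodule.mem_dualAnnihilator]
    intro a ha
    rw [hΦ]
    exact hmul a ha b hb
  have h1 := Submodule.finrank_mono hle
  have h2 : Module.finrank k (B.map Φ) = Module.finrank k B :=
    (Submodule.equivMapOfInjective Φ hinj B).finrank_eq.symm
  have h3 := Subspace.finrank_add_finrank_dualAnnihilator_eq A
  omega

/-- combinatorial core -/
private theorem led_comb {ρ γ n : ℕ} (hρ : 0 < ρ) (a : ℕ → ℕ)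
    (hs : ρ * (n - 1) + 1 ≤ (1 + ∑ i ∈ Finset.range (n - 1), a (i + 1)) + γ)
    (hn : 2 * γ / ρ + 1 < n) : ∃ i, 0 < i ∧ i < n ∧ ρ < a i + a (n - i) := by
  by_contra hcon
  push Not at hcon
  have h1 : ∑ i ∈ Finset.range (n - 1), a (i + 1) = ∑ i ∈ Finset.range (n - 1), a (n - (i + 1)) := by
    rw [← Finset.sum_range_reflect]
    refine Finset.sum_congr rfl fun i hi => ?_
    rw [Finset.mem_range] at hi
    congr 1
    omega
  have h2 : ∑ i ∈ Finset.range (n - 1), (a (i + 1) + a (n - (i + 1))) ≤ ∑ i ∈ Finset.range (n - 1), ρ := by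
    refine Finset.sum_le_sum fun i hi => ?_
    rw [Finset.mem_range] at hi
    exact hcon (i + 1) (by omega) (by omega)
  rw [Finset.sum_add_distrib, ← h1, Finset.sum_const, Finset.card_range, smul_eq_mul] at h2
  have h3 : (n - 1) * ρ ≤ 2 * γ := by
    have : ρ * (n - 1) = (n - 1) * ρ := mul_comm _ _
    omega
  have h4 : n - 1 ≤ 2 * γ / ρ := (Nat.le_div_iff_mul_le hρ).2 h3
  omega

/-- the functions without poles are constants -/
private theorem led_zero {k L : Type} [Field k] [Field L] [Algebra k L]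
    {x : L} {O : ValuationSubring L} (hcl : RelCl k L) (huni : ∀ V : ValuationSubring L, Inf k x V → V = O)
    {φ : L} (h1 : IsInt k x φ) (h2 : φ ∈ O) : ∃ c : k, algebraMap k L c = φ := by
  refine hcl φ ?_
  by_contra hφ
  obtain ⟨V, hV⟩ := exists_place (E := k) (x := φ) hφ
  by_cases hx : x ∈ V
  · refine hV.pole ?_
    have hle : ∀ y ∈ Algebra.adjoin k {x}, y ∈ V := by
      intro y hy
      refine Algebra.adjoin_induction (p := fun y _ => y ∈ V) ?_ ?_ ?_ ?_ hy
      · intro z hz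
        rw [Set.mem_singleton_iff] at hz
        rw [hz]
        exact hx
      · exact fun c => hV.base c
      · exact fun a b _ _ ha hb => V.add_mem _ _ ha hb
      · exact fun a b _ _ ha hb => V.mul_mem _ _ ha hb
    have hint : IsIntegral V φ := by
      obtain ⟨p, hp, hp2⟩ := h1
      obtain ⟨j, hj⟩ : ∃ j : Algebra.adjoin k {x} →+* V, ∀ y, ((j y : V) : L) = (y : L) :=
        ⟨(Algebra.adjoin k {x}).val.toRingHom.codRestrict V.toSubring (fun y => hle y y.2), fun y => rfl⟩
      refine ⟨p.map j, hp.map j, ?_⟩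
      rw [Polynomial.eval₂_map]
      have : (algebraMap V L).comp j = algebraMap (Algebra.adjoin k {x}) L := RingHom.ext fun y => hj y
      rw [this]
      exact hp2
    obtain ⟨y, hy⟩ := (IsIntegrallyClosed.isIntegral_iff (R := V) (K := L)).1 hint
    rw [← hy]
    exact y.2
  · have := huni V ⟨hV.base, hx⟩
    rw [this] at hV
    exact hV.pole h2

/-- the degree of the residue field -/
private theorem led_rank {k L κ : Type} [Field k] [Field L] [Algebra k L] {O : ValuationSubring L} [Algebra k O]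
    [IsScalarTower k O L] [Field κ] [Algebra k κ] {P : Polynomial k} (hP : Irreducible P) {g : L} (hg : g ∈ O)
    (hPg : Polynomial.aeval g P ∈ O.nonunits) {s : ℕ} {z : Fin s → L} (zO : ∀ i, z i ∈ O)
    (zi : ∀ A : Fin s → Polynomial k, (∑ i, Polynomial.aeval g (A i) * z i) ∈ O.nonunits → ∀ i, P ∣ A i)
    (zs : ∀ a ∈ O, ∃ A : Fin s → Polynomial k, a - ∑ i, Polynomial.aeval g (A i) * z i ∈ O.nonunits)
    (r : O →ₐ[k] κ) (hs : Function.Surjective r) (hk : ∀ a : O, r a = 0 ↔ (a : L) ∈ O.nonunits) :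
    FiniteDimensional k κ ∧ Module.finrank k κ = P.natDegree * s := by
  have hae : ∀ A : Polynomial k, ((Polynomial.aeval (⟨g, hg⟩ : O) A : O) : L) = Polynomial.aeval g A :=
    fun A => (Polynomial.aeval_algebraMap_apply L (⟨g, hg⟩ : O) A).symm
  obtain ⟨Φ, hΦ⟩ : ∃ Φ : (Fin s → Polynomial.degreeLT k P.natDegree) →ₗ[k] κ,
      ∀ A, Φ A = r (∑ i, Polynomial.aeval (⟨g, hg⟩ : O) ((A i : Polynomial.degreeLT k P.natDegree) : Polynomial k) *
        ⟨z i, zO i⟩) := by
    refine ⟨⟨⟨fun A => r (∑ i, Polynomial.aeval (⟨g, hg⟩ : O)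
      ((A i : Polynomial.degreeLT k P.natDegree) : Polynomial k) * ⟨z i, zO i⟩), ?_⟩, ?_⟩, fun A => rfl⟩
    · intro A B
      rw [← map_add, ← Finset.sum_add_distrib]
      congr 1
      refine Finset.sum_congr rfl fun i _ => ?_
      rw [Pi.add_apply, Submodule.coe_add, map_add, add_mul]
    · intro c A
      rw [RingHom.id_apply]
      change r (∑ i, Polynomial.aeval (⟨g, hg⟩ : O)
        (((c • A) i : Polynomial.degreeLT k P.natDegree) : Polynomial k) * ⟨z i, zO i⟩) =
        c • r (∑ i, Polynomial.aeval (⟨g, hg⟩ : O)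
        ((A i : Polynomial.degreeLT k P.natDegree) : Polynomial k) * ⟨z i, zO i⟩)
      rw [← map_smul, Finset.smul_sum]
      congr 1
      refine Finset.sum_congr rfl fun i _ => ?_
      rw [Pi.smul_apply, Submodule.coe_smul, map_smul, smul_mul_assoc]
  have hcoe : ∀ A : Fin s → Polynomial k, ((∑ i, Polynomial.aeval (⟨g, hg⟩ : O) (A i) * ⟨z i, zO i⟩ : O) : L) =
      ∑ i, Polynomial.aeval g (A i) * z i := by
    intro A
    rw [AddSubmonoidClass.coe_finsetSum]
    refine Finset.sum_congr rfl fun i _ => ?_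
    rw [MulMemClass.coe_mul, hae]
  have hinj : Function.Injective Φ := by
    rw [← LinearMap.ker_eq_bot, LinearMap.ker_eq_bot']
    intro A hA
    rw [hΦ, hk, hcoe] at hA
    funext i
    have h1 := zi _ hA i
    have h2 := Polynomial.mem_degreeLT.1 (A i).2
    refine Subtype.ext ?_
    exact Polynomial.eq_zero_of_dvd_of_degree_lt h1 (by rwa [Polynomial.degree_eq_natDegree hP.ne_zero])
  have hsur : Function.Surjective Φ := by
    intro b
    obtain ⟨a, rfl⟩ := hs b
    obtain ⟨A, hA⟩ := zs a a.2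
    have hdeg : ∀ i, A i % P ∈ Polynomial.degreeLT k P.natDegree := by
      intro i
      rw [Polynomial.mem_degreeLT, ← Polynomial.degree_eq_natDegree hP.ne_zero]
      exact Polynomial.degree_mod_lt _ hP.ne_zero
    refine ⟨fun i => ⟨A i % P, hdeg i⟩, ?_⟩
    rw [hΦ, eq_comm, ← sub_eq_zero, ← map_sub, hk]
    have h1 : (a : L) - ∑ i, Polynomial.aeval g (A i % P) * z i =
        (a - ∑ i, Polynomial.aeval g (A i) * z i) + ∑ i, Polynomial.aeval g P * (Polynomial.aeval g (A i / P) * z i) := by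
      rw [sub_add, ← Finset.sum_sub_distrib]
      congr 1
      refine Finset.sum_congr rfl fun i _ => ?_
      have h2 : Polynomial.aeval g (A i) = Polynomial.aeval g P * Polynomial.aeval g (A i / P) +
          Polynomial.aeval g (A i % P) := by
        rw [← map_mul, ← map_add, EuclideanDomain.div_add_mod]
      rw [h2]
      ring
    have h3 : ((a - ∑ i, Polynomial.aeval (⟨g, hg⟩ : O) (A i % P) * ⟨z i, zO i⟩ : O) : L) ∈ O.nonunits := by
      rw [AddSubgroupClass.coe_sub, hcoe, h1, ← Finset.mul_sum]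
      obtain ⟨u, hu⟩ : ∃ u : O, (u : L) = a - ∑ i, Polynomial.aeval g (A i) * z i := ⟨⟨_, O.nonunits_subset hA⟩, rfl⟩
      obtain ⟨v, hv⟩ : ∃ v : O, (v : L) = Polynomial.aeval g P := ⟨⟨_, O.nonunits_subset hPg⟩, rfl⟩
      obtain ⟨w, hw⟩ : ∃ w : O, (w : L) = ∑ i, Polynomial.aeval g (A i / P) * z i :=
        ⟨∑ i, Polynomial.aeval (⟨g, hg⟩ : O) (A i / P) * ⟨z i, zO i⟩, hcoe _⟩
      rw [← hu] at hA
      rw [← hv] at hPg
      rw [← hu, ← hv, ← hw, ← MulMemClass.coe_mul, ← AddMemClass.coe_add, ← hk, map_add, map_mul, (hk u).2 hA,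
        (hk v).2 hPg, zero_mul, add_zero]
    exact h3
  have E : (Fin s → Polynomial.degreeLT k P.natDegree) ≃ₗ[k] κ := LinearEquiv.ofBijective Φ ⟨hinj, hsur⟩
  have E2 : Polynomial.degreeLT k P.natDegree ≃ₗ[k] (Fin P.natDegree → k) := Polynomial.degreeLTEquiv k P.natDegree
  have : FiniteDimensional k (Polynomial.degreeLT k P.natDegree) := Module.Finite.equiv E2.symm
  refine ⟨Module.Finite.equiv E, ?_⟩
  rw [← E.finrank_eq, Module.finrank_pi_fintype, Finset.sum_const, Finset.card_univ, Fintype.card_fin, E2.finrank_eq,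
    Module.finrank_fin_fun, smul_eq_mul, mul_comm]

/-- the spaces of functions with bounded pole order and their residues -/
private theorem led_core {k L κ : Type} [Field k] [Field L] [Algebra k L] {O : ValuationSubring L} [Algebra k O]
    [IsScalarTower k O L] [Field κ] [Algebra k κ] [FiniteDimensional k κ] {x π : L} (hcl : RelCl k L)
    (huni : ∀ V : ValuationSubring L, Inf k x V → V = O) (π0 : π ≠ 0) (πm : π ∈ O.nonunits)
    (unf : ∀ a ∈ O.nonunits, a / π ∈ O)
    (r : O →ₐ[k] κ) (hk : ∀ a : O, r a = 0 ↔ (a : L) ∈ O.nonunits) :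
    ∃ (M : ℕ → Submodule k L) (A : ℕ → Submodule k κ), (∀ n φ, φ ∈ M n ↔ φ ∈ LS k x O π n) ∧
      (∀ n b, b ∈ A n ↔ ∃ (φ : L) (h : π ^ n * φ ∈ O), φ ∈ LS k x O π n ∧ r ⟨π ^ n * φ, h⟩ = b) ∧
      (∀ n, FiniteDimensional k (M n)) ∧
      ∀ n, Module.finrank k (M n) = 1 + ∑ i ∈ Finset.range n, Module.finrank k (A (i + 1)) := by
  have hOk : ∀ c : k, algebraMap k L c ∈ O := by
    intro c
    rw [IsScalarTower.algebraMap_apply k O L]
    exact (algebraMap k O c).2
  obtain ⟨M, hM⟩ : ∃ M : ℕ → Submodule k L, ∀ n φ, φ ∈ M n ↔ φ ∈ LS k x O π n := by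
    refine ⟨fun n => ⟨⟨⟨LS k x O π n, ?_⟩, ?_⟩, ?_⟩, fun n φ => Iff.rfl⟩
    · rintro a b ⟨ha1, ha2⟩ ⟨hb1, hb2⟩
      refine ⟨IsIntegral.add ha1 hb1, ?_⟩
      rw [mul_add]
      exact O.add_mem _ _ ha2 hb2
    · refine ⟨isIntegral_zero, ?_⟩
      rw [mul_zero]
      exact O.zero_mem
    · rintro c a ⟨ha1, ha2⟩
      refine ⟨?_, ?_⟩
      · have : c • a = (algebraMap k (Algebra.adjoin k {x}) c) • a := by
          rw [algebraMap_smul]
        rw [this]
        exact IsIntegral.smul _ ha1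
      · rw [Algebra.smul_def, mul_left_comm]
        exact O.mul_mem _ _ (hOk c) ha2
  have hMO : ∀ n (φ : M n), π ^ n * (φ : L) ∈ O := fun n φ => ((hM n φ).1 φ.2).2
  obtain ⟨ψ, hψ⟩ : ∃ ψ : ∀ n, M n →ₗ[k] κ, ∀ n φ, ψ n φ = r ⟨π ^ n * (φ : L), hMO n φ⟩ := by
    refine ⟨fun n => ⟨⟨fun φ => r ⟨π ^ n * (φ : L), hMO n φ⟩, ?_⟩, ?_⟩, fun n φ => rfl⟩
    · intro a b
      rw [← map_add]
      congr 1
      refine Subtype.ext ?_
      change π ^ n * ((a : L) + (b : L)) = π ^ n * (a : L) + π ^ n * (b : L)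
      ring
    · intro c a
      rw [RingHom.id_apply]
      change r ⟨π ^ n * ((c • a : M n) : L), hMO n (c • a)⟩ = c • r ⟨π ^ n * (a : L), hMO n a⟩
      rw [← map_smul]
      congr 1
      refine Subtype.ext ?_
      rw [Algebra.smul_def (A := O)]
      change π ^ n * (c • (a : L)) = ((algebraMap k O c : O) : L) * (π ^ n * (a : L))
      rw [Algebra.smul_def, IsScalarTower.algebraMap_apply k O L]
      change π ^ n * (((algebraMap k O c : O) : L) * (a : L)) = ((algebraMap k O c : O) : L) * (π ^ n * (a : L))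
      ring
  have hker : ∀ n, (LinearMap.ker (ψ (n + 1))).map (M (n + 1)).subtype = M n := by
    intro n
    ext φ
    rw [Submodule.mem_map]
    constructor
    · rintro ⟨y, hy, rfl⟩
      rw [LinearMap.mem_ker, hψ, hk] at hy
      rw [hM]
      refine ⟨((hM _ _).1 y.2).1, ?_⟩
      have h1 := unf _ hy
      have h2 : π ^ (n + 1) * (y : L) / π = π ^ n * (y : L) := by
        rw [pow_succ]
        field_simp
      have h3 : ((⟨π ^ (n + 1) * (y : L), hMO (n + 1) y⟩ : O) : L) = π ^ (n + 1) * (y : L) := rfl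
      rw [h3, h2] at h1
      exact h1
    · intro hφ
      rw [hM] at hφ
      have h1 : φ ∈ M (n + 1) := by
        rw [hM]
        refine ⟨hφ.1, ?_⟩
        rw [pow_succ', mul_assoc]
        exact O.mul_mem _ _ (O.nonunits_subset πm) hφ.2
      refine ⟨⟨φ, h1⟩, ?_, rfl⟩
      rw [LinearMap.mem_ker, hψ, hk]
      obtain ⟨u, hu⟩ : ∃ u : O, (u : L) = π := ⟨⟨_, O.nonunits_subset πm⟩, rfl⟩
      obtain ⟨v, hv⟩ : ∃ v : O, (v : L) = π ^ n * φ := ⟨⟨_, hφ.2⟩, rfl⟩
      have h4 : ((⟨π ^ (n + 1) * ((⟨φ, h1⟩ : M (n + 1)) : L), hMO (n + 1) ⟨φ, h1⟩⟩ : O) : L) = ((u * v : O) : L) := by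
        rw [MulMemClass.coe_mul, hu, hv]
        change π ^ (n + 1) * φ = π * (π ^ n * φ)
        ring
      rw [h4, ← hk, map_mul, (hk u).2 (by rw [hu]; exact πm), zero_mul]
  have hM0 : M 0 = LinearMap.range (Algebra.linearMap k L) := by
    ext φ
    rw [hM, LinearMap.mem_range]
    constructor
    · rintro ⟨h1, h2⟩
      rw [pow_zero, one_mul] at h2
      exact led_zero hcl huni h1 h2
    · rintro ⟨c, rfl⟩
      rw [Algebra.linearMap_apply]
      refine ⟨?_, ?_⟩
      · rw [IsInt, IsScalarTower.algebraMap_apply k (Algebra.adjoin k {x}) L]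
        exact isIntegral_algebraMap
      · rw [pow_zero, one_mul]
        exact hOk c
  have hM0f : Module.finrank k (M 0) = 1 := by
    rw [hM0, LinearMap.finrank_range_of_inj (algebraMap k L).injective, Module.finrank_self]
  have hfin : ∀ n, FiniteDimensional k (M n) := by
    intro n
    induction n with
    | zero => exact Module.finite_of_finrank_pos (by rw [hM0f]; exact one_pos)
    | succ n ih =>
      have h1 : FiniteDimensional k (LinearMap.ker (ψ (n + 1))) := by
        have E := Submodule.equivMapOfInjective (M (n + 1)).subtype (M (n + 1)).injective_subtype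
          (LinearMap.ker (ψ (n + 1)))
        rw [hker] at E
        exact Module.Finite.equiv E.symm
      refine ⟨?_⟩
      refine Submodule.fg_of_fg_map_of_fg_inf_ker (ψ (n + 1)) ?_ ?_
      · exact IsNoetherian.noetherian _
      · rw [top_inf_eq]
        exact (Submodule.fg_top _).1 h1.fg_top
  refine ⟨M, fun n => LinearMap.range (ψ n), hM, ?_, hfin, ?_⟩
  · intro n b
    constructor
    · rintro ⟨φ, rfl⟩
      exact ⟨φ, hMO n φ, (hM n φ).1 φ.2, (hψ n φ).symm⟩
    · rintro ⟨φ, h, hφ, hb⟩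
      exact ⟨⟨φ, (hM n φ).2 hφ⟩, by rw [hψ]; exact hb⟩
  · intro n
    induction n with
    | zero => rw [Finset.sum_range_zero, hM0f, add_zero]
    | succ n ih =>
      have := hfin (n + 1)
      have h1 := LinearMap.finrank_range_add_finrank_ker (ψ (n + 1))
      have E := Submodule.equivMapOfInjective (M (n + 1)).subtype (M (n + 1)).injective_subtype
        (LinearMap.ker (ψ (n + 1)))
      rw [hker] at E
      rw [← h1, E.finrank_eq, ih, Finset.sum_range_succ]
      ring


/-- both statements, with residue map -/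
private theorem led_all {k L κ : Type} [Field k] [Field L] [Algebra k L] {O : ValuationSubring L} [Algebra k O]
    [IsScalarTower k O L] [Field κ] [Algebra k κ]
    {x : L} {P : Polynomial k} {g π : L} {s γ : ℕ} {z : Fin s → L} (h : Pt k x O P g π s γ z)
    (r : O →ₐ[k] κ) (hs : Function.Surjective r) (hk : ∀ a : O, r a = 0 ↔ (a : L) ∈ O.nonunits) :
    (∀ n : ℕ, 2 * γ / (P.natDegree * s) + 1 < n → ∀ a ∈ O, ∃ φ ∈ LS k x O π n, π ^ n * φ - a ∈ O.nonunits) ∧
    ∀ n : ℕ, ∃ (m : ℕ) (q : Fin m → L), LinearIndependent k q ∧ (∀ i, q i ∈ LS k x O π n) ∧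
      (∀ φ ∈ LS k x O π n, φ ∈ Submodule.span k (Set.range q)) ∧ P.natDegree * s * n + 1 ≤ m + γ := by
  obtain ⟨hfκ, hrk⟩ := led_rank h.irr (Pool.Agent.H12.GN.gO h.inf.base h.irr h.Pg) h.Pg h.zO h.zi h.zs r hs hk
  obtain ⟨M, A, hM, hA, hfin, hdim⟩ := led_core h.cl h.uni h.π0 h.πm h.unf r hk
  have hρ : 0 < P.natDegree * s := Nat.mul_pos h.irr.natDegree_pos h.s1
  have hgen : ∀ n, P.natDegree * s * n + 1 ≤ Module.finrank k (M n) + γ := by
    intro n
    obtain ⟨m, q, h1, h2, h3, h4⟩ := h.gen n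
    have := hfin n
    have h5 : LinearIndependent k (fun i => (⟨q i, (hM n _).2 ⟨h2 i, h3 i⟩⟩ : M n)) := by
      refine LinearIndependent.of_comp (M n).subtype ?_
      exact h1
    have h6 := h5.fintype_card_le_finrank
    rw [Fintype.card_fin] at h6
    omega
  have hmul : ∀ i j, A i * A j ≤ A (i + j) := by
    intro i j
    rw [Submodule.mul_le]
    intro a ha b hb
    obtain ⟨φ, h1, h2, rfl⟩ := (hA _ _).1 ha
    obtain ⟨φ', h3, h4, rfl⟩ := (hA _ _).1 hb
    have h5 : π ^ (i + j) * (φ * φ') = π ^ i * φ * (π ^ j * φ') := by ring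
    have h6 : π ^ (i + j) * (φ * φ') ∈ O := by
      rw [h5]
      exact O.mul_mem _ _ h1 h3
    refine (hA _ _).2 ⟨φ * φ', h6, ⟨IsIntegral.mul h2.1 h4.1, h6⟩, ?_⟩
    rw [← map_mul]
    congr 1
    exact Subtype.ext h5
  refine ⟨fun n hn a ha => ?_, fun n => ?_⟩
  · have h1 := hgen (n - 1)
    rw [hdim] at h1
    obtain ⟨i, hi, hin, hlt⟩ := led_comb hρ (fun i => Module.finrank k (A i)) h1 hn
    rw [← hrk] at hlt
    have h2 := led_mul _ _ hlt
    have h3 := hmul i (n - i)
    rw [h2, Nat.add_sub_cancel' hin.le] at h3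
    obtain ⟨φ, h4, h5, h6⟩ := (hA n (r ⟨a, ha⟩)).1 (h3 trivial)
    refine ⟨φ, h5, ?_⟩
    rw [← sub_eq_zero, ← map_sub, hk] at h6
    exact h6
  · have := hfin n
    have B := Module.finBasis k (M n)
    refine ⟨Module.finrank k (M n), fun i => (B i : L), ?_, fun i => (hM n _).1 (B i).2, ?_, hgen n⟩
    · exact B.linearIndependent.map' (M n).subtype (LinearMap.ker_eq_bot.2 (M n).injective_subtype)
    · intro φ hφ
      have h1 : (⟨φ, (hM n φ).2 hφ⟩ : M n) ∈ Submodule.span k (Set.range B) := by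
        rw [B.span_eq]
        trivial
      have h2 := Submodule.mem_map_of_mem (f := (M n).subtype) h1
      rw [Submodule.map_span, ← Set.range_comp] at h2
      exact h2

/-- the residue field -/
private theorem led_fin {k L : Type} [Field k] [Field L] [Algebra k L]
    {x : L} {O : ValuationSubring L} {P : Polynomial k} {g π : L} {s γ : ℕ} {z : Fin s → L}
    (h : Pt k x O P g π s γ z) :
    (∀ n : ℕ, 2 * γ / (P.natDegree * s) + 1 < n → ∀ a ∈ O, ∃ φ ∈ LS k x O π n, π ^ n * φ - a ∈ O.nonunits) ∧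
    ∀ n : ℕ, ∃ (m : ℕ) (q : Fin m → L), LinearIndependent k q ∧ (∀ i, q i ∈ LS k x O π n) ∧
      (∀ φ ∈ LS k x O π n, φ ∈ Submodule.span k (Set.range q)) ∧ P.natDegree * s * n + 1 ≤ m + γ := by
  let ι : k →+* O := (algebraMap k L).codRestrict O.toSubring h.inf.base
  let _ : Algebra k O := ι.toAlgebra
  have : IsScalarTower k O L := IsScalarTower.of_algebraMap_eq fun c => rfl
  let r : O →ₐ[k] IsLocalRing.ResidueField O := IsScalarTower.toAlgHom k O (IsLocalRing.ResidueField O)
  refine led_all h r IsLocalRing.residue_surjective fun a => ?_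
  rw [ValuationSubring.coe_mem_nonunits_iff]
  exact IsLocalRing.residue_eq_zero_iff a

theorem led {k L : Type} [Field k] [CharZero k] [Field L] [Algebra k L]
    {x : L} {O : ValuationSubring L} {P : Polynomial k} {g π : L} {s γ : ℕ} {z : Fin s → L}
    (h : Pt k x O P g π s γ z) {n : ℕ} (hn : 2 * γ / (P.natDegree * s) + 1 < n) {a : L} (ha : a ∈ O) :
    ∃ φ ∈ LS k x O π n, π ^ n * φ - a ∈ O.nonunits :=
  (led_fin h).1 n hn a ha

/-- the spaces `LS n` are finite dimensional -/
theorem ls_fin {k L : Type} [Field k] [CharZero k] [Field L] [Algebra k L]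
    {x : L} {O : ValuationSubring L} {P : Polynomial k} {g π : L} {s γ : ℕ} {z : Fin s → L}
    (h : Pt k x O P g π s γ z) (n : ℕ) :
    ∃ (m : ℕ) (q : Fin m → L), LinearIndependent k q ∧ (∀ i, q i ∈ LS k x O π n) ∧
      (∀ φ ∈ LS k x O π n, φ ∈ Submodule.span k (Set.range q)) ∧ P.natDegree * s * n + 1 ≤ m + γ :=
  (led_fin h).2 n

end Pool.Agent.H90.SF
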