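import Pool.Agent.H90.SF.Lbx
import Pool.Agent.H90.SF.Led

/-! # [SF J5] Principal parts

See the header of `Lbx.lean` (`lb_pp`). -/

namespace Pool.Agent.H90.SF

open Pool.Agent.H82.NS Pool.Agent.H8.OA Pool.Agent.H12.ON Pool.Agent.H12.OG IntermediateField

theorem lb_pp {k L F : Type} [Field k] [CharZero k] [Field L] [Algebra k L] [Field F] [Algebra k F] [IsAlgClosed F]
    [Algebra.IsAlgebraic k F] {x : L} {O : ValuationSubring L} {P : Polynomial k} {g π : L} {s γ : ℕ} {z : Fin s → L}
    (h : Pt k x O P g π s γ z) {ρ : ℕ} {e : Fin ρ → (L →ₐ[k] LaurentSeries F)} (he : Es k O π e) (N : ℕ)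
    {τ : Fin ρ → LaurentSeries F} (hτ : ∀ q, Pole (τ q) N) :
    ∃ ψ ∈ Lb k x O π e N, ∀ q, Pole (τ q - ψ q) ((2 * γ / (P.natDegree * s) + 1 : ℕ) : ℤ) := by
  classical
  have hπO : π ∈ O := O.nonunits_subset h.πm
  have hsh : ∀ (q : Fin ρ) (a : L) (n : ℕ) (i : ℤ), (e q (π ^ n * a)).coeff i = (e q a).coeff (i - n) := by
    intro q a n i
    rw [map_mul, map_pow, he.pi q, HahnSeries.single_pow]
    have h1 := HahnSeries.coeff_single_mul_add (r := (1 : F) ^ n) (x := e q a) (a := i - n) (b := n • (1 : ℤ))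
    have h2 : i - (n : ℤ) + n • (1 : ℤ) = i := by simp
    rw [h2] at h1
    rw [h1, one_pow, one_mul]
  have hnu : ∀ (q : Fin ρ) (b : L), b ∈ O.nonunits → (e q b).coeff 0 = 0 := by
    intro q b hb
    have hb' := (he.val q _).1 (h.unf b hb)
    have h3 : b = π ^ 1 * (b / π) := by
      have := h.π0
      field_simp
    rw [h3, hsh]
    exact hb' _ (by norm_num)
  have hmono : ∀ n : ℕ, Lb k x O π e n ≤ Lb k x O π e (n + 1) := by
    intro n
    unfold Lb
    apply Submodule.span_mono
    apply Set.image_mono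
    rintro φ ⟨h1, h2⟩
    refine ⟨h1, ?_⟩
    rw [pow_succ', mul_assoc]
    exact O.mul_mem _ _ hπO h2
  induction N generalizing τ with
  | zero =>
    refine ⟨0, Submodule.zero_mem _, ?_⟩
    intro q i hi
    rw [Pi.zero_apply, sub_zero]
    apply hτ q i
    have : (0 : ℤ) ≤ ((2 * γ / (P.natDegree * s) + 1 : ℕ) : ℤ) := by positivity
    push_cast at hi this ⊢
    linarith
  | succ N ih =>
    by_cases hN : 2 * γ / (P.natDegree * s) + 1 < N + 1
    · obtain ⟨n, a, w, ha, hw⟩ := he.sur (fun q => (τ q).coeff (-((N + 1 : ℕ) : ℤ)))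
      choose φ hφ hφ' using fun i => led h hN (ha i)
      have hc : ∀ q i, (e q (φ i)).coeff (-((N + 1 : ℕ) : ℤ)) = (e q (a i)).coeff 0 := by
        intro q i
        have h1 := hnu q _ (hφ' i)
        rw [map_sub, HahnSeries.coeff_sub, sub_eq_zero, hsh] at h1
        rw [← h1, zero_sub]
      have hp : ∀ q i, Pole (e q (φ i)) ((N + 1 : ℕ) : ℤ) := by
        intro q i j hj
        have h1 := (he.val q _).1 (hφ i).2
        have h2 := h1 (j + ((N + 1 : ℕ) : ℤ)) (by linarith)
        rw [hsh] at h2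
        rw [← h2]
        congr 1
        ring
      set ψ₁ : Fin ρ → LaurentSeries F := ∑ i, w i • (fun q => e q (φ i)) with hψ₁
      have hψ₁m : ψ₁ ∈ Lb k x O π e (N + 1) := by
        apply Submodule.sum_mem
        intro i _
        apply Submodule.smul_mem
        exact Submodule.subset_span ⟨φ i, hφ i, rfl⟩
      have hco : ∀ q j, (ψ₁ q).coeff j = ∑ i, w i * (e q (φ i)).coeff j := by
        intro q j
        rw [hψ₁, Finset.sum_apply, HahnSeries.coeff_sum]
        apply Finset.sum_congr rfl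
        intro i _
        rw [Pi.smul_apply, HahnSeries.coeff_smul, smul_eq_mul]
      have hτ' : ∀ q, Pole ((τ - ψ₁) q) N := by
        intro q j hj
        rw [Pi.sub_apply, HahnSeries.coeff_sub, hco]
        rcases lt_or_eq_of_le (show j ≤ -((N + 1 : ℕ) : ℤ) by push_cast; omega) with h1 | h1
        · rw [hτ q j h1, Finset.sum_eq_zero, sub_zero]
          intro i _
          rw [hp q i j h1, mul_zero]
        · rw [h1]
          have h2 := hw q
          rw [← h2, sub_eq_zero]
          apply Finset.sum_congr rfl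
          intro i _
          rw [hc]
      obtain ⟨ψ₂, hψ₂, hψ₂'⟩ := ih hτ'
      refine ⟨ψ₁ + ψ₂, Submodule.add_mem _ hψ₁m (hmono N hψ₂), ?_⟩
      intro q
      have h1 := hψ₂' q
      rw [Pi.sub_apply] at h1
      rw [Pi.add_apply, ← sub_sub]
      exact h1
    · refine ⟨0, Submodule.zero_mem _, ?_⟩
      intro q i hi
      rw [Pi.zero_apply, sub_zero]
      apply hτ q i
      have : ((N + 1 : ℕ) : ℤ) ≤ ((2 * γ / (P.natDegree * s) + 1 : ℕ) : ℤ) := by exact_mod_cast not_lt.mp hN
      linarith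

end Pool.Agent.H90.SF
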