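import Pool.Agent.H90.SF.Tma
import Pool.Agent.H90.SF.Pta
import Pool.Agent.H85.SF.Jel

/-! # [SF T6] END THEOREM of chapter T: the numerical data `Dat` for almost all `N`, from the frame -/

namespace Pool.Agent.H90.SF

open Pool.Agent.H82.NS Pool.Agent.H8.OA Pool.Agent.H12.ON Pool.Agent.H12.OG Pool.Agent.H85.LK Pool.Agent.H87.SA2 Filter
open Pool.Agent.H85.SF

theorem tmn {H : ℕ → ℕ} {L : IntermediateField (Q0 H) QS} {x : L} (hx : (x : QS) ∈ ZS) {O : ValuationSubring L}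
    (hOV : O = (V0 H).comap (algebraMap L QS)) {r : ℕ} {p : ℕ → Polynomial ℤ} {P : Polynomial (Q0 H)}
    (hP : PCl H r p P) (hr : 4 ≤ r) {g π : L} {s γ : ℕ} {z : Fin s → L} (h : Pt (Q0 H) x O P g π s γ z) {W : ℕ}
    (hW1 : 1 ≤ W) (hW : 3 * γ + r * s ≤ s * W * (r - 3)) :
    ∃ m C₀ : ℕ, ∀ C ≥ C₀, ∀ E : ℕ, ∀ᶠ N in UU, ∃ (α ϖ : ℝ) (z' : Fin s → ℝ)
      (b : Fin m → Fin s → ℕ → Polynomial ℤ) (e : ℤ) (Y : Fin m → ℤ),
      Polynomial.aeval α (p N) = 0 ∧ |ϖ| * (((H N : ℝ) + 2) ^ C) ^ E ≤ 1 ∧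
      ∀ (B : ℝ) (cu cw : ℤ), 1 ≤ B → B ≤ ((H N : ℝ) + 2) ^ C →
        (((p N).map (Int.castRingHom ℂ)).roots.map fun β => max 1 ‖β‖).prod ≤ B → |(cu : ℝ)| ≤ B → 1 ≤ cw →
        (cw : ℝ) ≤ B → Pool.Agent.H77.SF.Dat r s m W (((H N : ℝ) + 2) ^ C) B (p N) α cu cw ϖ z' b e Y := by
  obtain ⟨m, φ, g', b, hB, hS⟩ := jetsL h (by rw [hP.Pdeg]; exact hr) (by rw [hP.Pdeg]; exact hW)
  have : IsAlgClosed (algebraicClosure (Q0 H) AS) := aq_closed H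
  have hS' := hS (algebraicClosure (Q0 H) AS)
  obtain ⟨C₀, hC⟩ := tma hx hOV hP (by omega : 2 ≤ r) h.s1 hW1 h.π0 h.πm h.zO hB.m1 hB.li hB.int hB.gO hB.Pg hB.exp
    (fun al hinj hrt i h1 h4 J hJ c => by
      have hd := hP.Pdeg
      subst hd
      exact hS' al hinj hrt i h1 h4 J (by omega) c)
  exact ⟨m, C₀, hC⟩

end Pool.Agent.H90.SF
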