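import Pool.Agent.H90.SF.Cls

/-! # [SF] Values of polynomials over `Q0 H` at classes of sequences -/

namespace Pool.Agent.H90.SF

open Pool.Agent.H82.NS Pool.Agent.H8.OA Pool.Agent.H12.ON Pool.Agent.H12.OG Pool.Agent.H85.LK Pool.Agent.H87.SA2 Filter

theorem cl_sumf {R ι : Type} [CommRing R] (s : Finset ι) (f : ι → ℕ → R) :
    (cl (∑ i ∈ s, f i) : Ult R) = ∑ i ∈ s, cl (f i) := map_sum (clHom R) f s

theorem cl_prodf {R ι : Type} [CommRing R] (s : Finset ι) (f : ι → ℕ → R) :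
    (cl (∏ i ∈ s, f i) : Ult R) = ∏ i ∈ s, cl (f i) := map_prod (clHom R) f s

theorem cl_mulf {R : Type} [CommRing R] (f g : ℕ → R) : (cl (f * g) : Ult R) = cl f * cl g := rfl

theorem cl_powf {R : Type} [CommRing R] (f : ℕ → R) (n : ℕ) : (cl (f ^ n) : Ult R) = cl f ^ n := map_pow (clHom R) f n

theorem aev_as {H : ℕ → ℕ} {P : Polynomial (Q0 H)} {q : ℕ → Polynomial ℤ} {l : ℕ} (hl : ∀ N, (q N).natDegree ≤ l)
    {δ : ℕ → ℚ} (hP : ∀ j, (cl (fun N => ((q N).coeff j : ℚ)) : QS) = cl δ * ((P.coeff j : Q0 H) : QS)) (a : ℕ → AA) :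
    algebraMap QS AS (cl δ) * Polynomial.aeval (cl a : AS) P = cl (fun N => Polynomial.aeval (a N) (q N)) := by
  obtain ⟨M, hM⟩ : ∃ M : ℕ, M = max l P.natDegree + 1 := ⟨_, rfl⟩
  have h1 : P.natDegree < M := by omega
  have h2 : ∀ N, (q N).natDegree < M := fun N => by have := hl N; omega
  rw [Polynomial.aeval_eq_sum_range' h1, Finset.mul_sum]
  have h3 : (fun N => Polynomial.aeval (a N) (q N)) =
      ∑ j ∈ Finset.range M, (fun N => algebraMap ℚ AA ((q N).coeff j : ℚ)) * (fun N => a N) ^ j := by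
    funext N
    rw [Polynomial.aeval_eq_sum_range' (h2 N), Finset.sum_apply]
    refine Finset.sum_congr rfl fun j _ => ?_
    rw [Pi.mul_apply, Pi.pow_apply, map_intCast, zsmul_eq_mul]
  rw [h3, cl_sumf]
  refine Finset.sum_congr rfl fun j _ => ?_
  rw [cl_mulf, cl_powf, ← map_cl, hP j, map_mul, Algebra.smul_def, mul_assoc]
  rfl

theorem aev_qs {H : ℕ → ℕ} {P : Polynomial (Q0 H)} {q : ℕ → Polynomial ℤ} {l : ℕ} (hl : ∀ N, (q N).natDegree ≤ l)
    {δ : ℕ → ℚ} (hP : ∀ j, (cl (fun N => ((q N).coeff j : ℚ)) : QS) = cl δ * ((P.coeff j : Q0 H) : QS)) (a : ℕ → ℚ) :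
    (cl δ : QS) * Polynomial.aeval (cl a : QS) P = cl (fun N => Polynomial.aeval (a N) (q N)) := by
  obtain ⟨M, hM⟩ : ∃ M : ℕ, M = max l P.natDegree + 1 := ⟨_, rfl⟩
  have h1 : P.natDegree < M := by omega
  have h2 : ∀ N, (q N).natDegree < M := fun N => by have := hl N; omega
  rw [Polynomial.aeval_eq_sum_range' h1, Finset.mul_sum]
  have h3 : (fun N => Polynomial.aeval (a N) (q N)) =
      ∑ j ∈ Finset.range M, (fun N => ((q N).coeff j : ℚ)) * (fun N => a N) ^ j := by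
    funext N
    rw [Polynomial.aeval_eq_sum_range' (h2 N), Finset.sum_apply]
    refine Finset.sum_congr rfl fun j _ => ?_
    rw [Pi.mul_apply, Pi.pow_apply, zsmul_eq_mul]
  rw [h3, cl_sumf]
  refine Finset.sum_congr rfl fun j _ => ?_
  rw [cl_mulf, cl_powf, hP j, Algebra.smul_def, mul_assoc]
  rfl

end Pool.Agent.H90.SF
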