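import Pool.Agent.H90.SF.Jet
import Pool.Agent.H85.LK.Sta
import Pool.Agent.H77.SF.Dat

/-! # [SF T0] Chapter T (from the nonstandard frame to real numbers for almost all `N`): definitions and basic lemmas

`PCl H p P`: the polynomial `P` over `Q0 H` is the class of the sequence `p N ∈ ℤ[X]`. `v0_iff`: `cl f ∈ V0 H` iff `|f N| ≤ (H N + 2)^C` for almost all `N` (`r ∈ Q0 H`, `r = cl r'`, `Small`: `|r' N| ≤ (H N + 2)^C`). `v0_non`: `cl f` is in the maximal ideal iff for all `C` `|f N| (H N + 2)^C ≤ 1`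
for almost all `N` (inverse not in `V0 H`; compare `va_iff`, `va_non` in H85/LK/Sta.lean; `va_qs`). -/

namespace Pool.Agent.H90.SF

open Pool.Agent.H82.NS Pool.Agent.H8.OA Pool.Agent.H12.ON Pool.Agent.H12.OG Pool.Agent.H85.LK Pool.Agent.H87.SA2 Filter

/-- `P` is the class of the sequence `p` of integer polynomials of degree `r` -/
structure PCl (H : ℕ → ℕ) (r : ℕ) (p : ℕ → Polynomial ℤ) (P : Polynomial (Q0 H)) : Prop where
  mon : ∀ N, (p N).Monic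
  irr : ∀ N, Irreducible (p N)
  deg : ∀ N, (p N).natDegree = r
  Pdeg : P.natDegree = r
  co : ∀ i, ((P.coeff i : Q0 H) : QS) = cl (fun N => ((p N).coeff i : ℚ))

theorem v0_iff {H : ℕ → ℕ} {f : ℕ → ℚ} :
    (cl f : QS) ∈ V0 H ↔ ∃ C : ℕ, ∀ᶠ N in UU, |(f N : ℝ)| ≤ ((H N : ℝ) + 2) ^ C := by
  have hn : ∀ N, ‖((algebraMap ℚ AA (f N) : AA) : ℂ)‖ = |(f N : ℝ)| := by
    intro N
    have h1 : ((algebraMap ℚ AA (f N) : AA) : ℂ) = ((f N : ℝ) : ℂ) := by
      simp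
    rw [h1, Complex.norm_real, Real.norm_eq_abs]
  rw [← va_qs, map_cl]
  constructor
  · rintro ⟨g, C, hg, hb⟩
    refine ⟨C, ?_⟩
    filter_upwards [cl_eq.1 hg, hb] with N h1 h2
    rw [← hn, h1]
    exact h2
  · rintro ⟨C, hC⟩
    refine ⟨_, C, rfl, ?_⟩
    filter_upwards [hC] with N h1
    rw [hn]
    exact h1

theorem v0_non {H : ℕ → ℕ} {f : ℕ → ℚ} :
    (cl f : QS) ∈ (V0 H).nonunits ↔ ∀ C : ℕ, ∀ᶠ N in UU, |(f N : ℝ)| * ((H N : ℝ) + 2) ^ C ≤ 1 := by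
  have hn : ∀ N, ‖((algebraMap ℚ AA (f N) : AA) : ℂ)‖ = |(f N : ℝ)| := by
    intro N
    have h1 : ((algebraMap ℚ AA (f N) : AA) : ℂ) = ((f N : ℝ) : ℂ) := by
      simp
    rw [h1, Complex.norm_real, Real.norm_eq_abs]
  have hmem : (cl f : QS) ∈ (V0 H).nonunits ↔ (algebraMap QS AS (cl f)) ∈ (VA H).nonunits := by
    rw [ValuationSubring.mem_nonunits_iff_or, ValuationSubring.mem_nonunits_iff_or, map_eq_zero, ← map_inv₀, va_qs]
  rw [hmem, map_cl, va_non]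
  constructor
  · intro h C
    filter_upwards [h C] with N h1
    rw [← hn]
    exact h1.le
  · intro h C
    filter_upwards [h (C + 1)] with N h1
    rw [hn]
    have h2 : (0 : ℝ) ≤ |(f N : ℝ)| := abs_nonneg _
    have h3 : (0 : ℝ) < ((H N : ℝ) + 2) ^ C := by positivity
    have h4 : (2 : ℝ) ≤ (H N : ℝ) + 2 := by
      have : (0 : ℝ) ≤ (H N : ℝ) := Nat.cast_nonneg _
      linarith
    rw [pow_succ, ← mul_assoc] at h1
    have h5 : 0 ≤ |(f N : ℝ)| * ((H N : ℝ) + 2) ^ C := mul_nonneg h2 h3.le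
    nlinarith

end Pool.Agent.H90.SF
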