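import Pool.Agent.H12.GN.Pls
import Pool.Agent.H8.OA.LDa

/-! # [H90 SF] THEOREM SF (special fields), chapter J (jets): definitions

`Pt k x O P g π s γ z`: `L` is a function field over `k`, `k` is algebraically closed in `L`, `O` is the only place of `L` without `x`,
`π` a uniformizer, `P(g) ∈ m` for the irreducible `P`, `z` a basis of the residue field over `k[T]/P` (so `ρ = (deg P) s` is the degree
of the residue field), and Riemann's inequality with genus `γ`: the functions integral over `k[x]` with pole order at most `n` at `O`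
have dimension at least `ρ n + 1 - γ`.
`LS k x O π n`: these functions. `Pole f n`: the Laurent series `f` has pole order at most `n`.
`Es O π e`: `e q`, `q < ρ`, are the expansions at the `ρ` geometric points over `O` in powers of `π`, with values in `F((t))`, `F` algebraically
closed and algebraic over `k`. `Lb e n`: the `F`-span of the expansions of the elements of `LS n`, inside `(F((t)))^ρ`. -/

namespace Pool.Agent.H90.SF

open Pool.Agent.H82.NS Pool.Agent.H8.OA Pool.Agent.H12.ON Pool.Agent.H12.OG IntermediateField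

/-- a function field with only one place at infinity, the field `k[T]/P` in its residue field, genus at most `γ` -/
structure Pt (k : Type) {L : Type} [Field k] [Field L] [Algebra k L] (x : L) (O : ValuationSubring L)
    (P : Polynomial k) (g π : L) (s γ : ℕ) (z : Fin s → L) : Prop where
  ff : FF k x
  cl : RelCl k L
  inf : Inf k x O
  uni : ∀ V : ValuationSubring L, Inf k x V → V = O
  irr : Irreducible P
  Pg : Polynomial.aeval g P ∈ O.nonunits
  π0 : π ≠ 0
  πm : π ∈ O.nonunits
  unf : ∀ a ∈ O.nonunits, a / π ∈ O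
  s1 : 1 ≤ s
  zO : ∀ i, z i ∈ O
  zi : ∀ A : Fin s → Polynomial k, (∑ i, Polynomial.aeval g (A i) * z i) ∈ O.nonunits → ∀ i, P ∣ A i
  zs : ∀ a ∈ O, ∃ A : Fin s → Polynomial k, a - ∑ i, Polynomial.aeval g (A i) * z i ∈ O.nonunits
  gen : ∀ n : ℕ, ∃ (m : ℕ) (q : Fin m → L), LinearIndependent k q ∧ (∀ i, IsInt k x (q i)) ∧
    (∀ i, π ^ n * q i ∈ O) ∧ P.natDegree * s * n + 1 ≤ m + γ

/-- functions with poles only at `O`, of order at most `n` -/
def LS (k : Type) {L : Type} [Field k] [Field L] [Algebra k L] (x : L) (O : ValuationSubring L) (π : L)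
    (n : ℕ) : Set L := {q | IsInt k x q ∧ π ^ n * q ∈ O}

/-- pole order at most `n` -/
def Pole {F : Type} [Field F] (f : LaurentSeries F) (n : ℤ) : Prop := ∀ i : ℤ, i < -n → f.coeff i = 0

/-- the expansions at the geometric points over `O` -/
structure Es (k : Type) {L F : Type} [Field k] [Field L] [Algebra k L] [Field F] [Algebra k F]
    (O : ValuationSubring L) (π : L) {ρ : ℕ} (e : Fin ρ → (L →ₐ[k] LaurentSeries F)) : Prop where
  pi : ∀ q, e q π = HahnSeries.single 1 1
  val : ∀ q a, a ∈ O ↔ Pole (e q a) 0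
  ind : ∀ (n : ℕ) (a : Fin n → L), (∀ i, a i ∈ O) →
    (∀ c : Fin n → k, (∑ i, c i • a i) ∈ O.nonunits → c = 0) →
    ∀ c : Fin n → F, (∀ q, ∑ i, c i * (e q (a i)).coeff 0 = 0) → c = 0
  sur : ∀ c : Fin ρ → F, ∃ (n : ℕ) (a : Fin n → L) (w : Fin n → F), (∀ i, a i ∈ O) ∧
    ∀ q, ∑ i, w i * (e q (a i)).coeff 0 = c q

/-- the `F`-span of the expansions of the functions with pole order at most `n` -/
noncomputable def Lb (k : Type) {L F : Type} [Field k] [Field L] [Algebra k L] [Field F] [Algebra k F] (x : L)
    (O : ValuationSubring L) (π : L) {ρ : ℕ} (e : Fin ρ → (L →ₐ[k] LaurentSeries F)) (n : ℕ) :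
    Submodule F (Fin ρ → LaurentSeries F) :=
  Submodule.span F ((fun φ : L => fun q => e q φ) '' LS k x O π n)

end Pool.Agent.H90.SF
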