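import Pool.Agent.H90.SF.Cls

/-! # [SF T1] Common denominators of finitely many polynomials over `Q0 H`

Each coefficient `(b i).coeff j ∈ Q0 H` is `cl f`, `Small H f` (definition of `Q0`): `|num (f N)|, den (f N) ≤ (H N + 2)^C`. Finitely many (`i : ι`, `j ≤ l = max natDegree`). `δ N` = the product of all denominators, `1 ≤ δ N ≤ (H N + 2)^C'`;
`bN N i = ∑_{j ≤ l} C (δ N * f_(i,j) N) X^j`, an integer; `|δ N f_(i,j) N| ≤ (H N + 2)^(C' + C)`. The relation of the classes holds coefficientwise (for `j > l` both sides are zero). -/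

namespace Pool.Agent.H90.SF

open Pool.Agent.H82.NS Pool.Agent.H8.OA Pool.Agent.H12.ON Pool.Agent.H12.OG Pool.Agent.H85.LK Pool.Agent.H87.SA2 Filter

theorem den_poly {H : ℕ → ℕ} {ι : Type} [Finite ι] (b : ι → Polynomial (Q0 H)) :
    ∃ (δ : ℕ → ℤ) (bN : ℕ → ι → Polynomial ℤ) (C l : ℕ), (∀ N, 1 ≤ δ N ∧ δ N ≤ ((H N : ℤ) + 2) ^ C) ∧
      (∀ N i, (bN N i).natDegree ≤ l ∧ ∀ j, |(bN N i).coeff j| ≤ ((H N : ℤ) + 2) ^ C) ∧
      ∀ i j, (cl (fun N => ((bN N i).coeff j : ℚ)) : QS) =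
        cl (fun N => (δ N : ℚ)) * (((b i).coeff j : Q0 H) : QS) := by
  classical
  have : Fintype ι := Fintype.ofFinite ι
  choose f hf hc using fun t : ι × ℕ => ((b t.1).coeff t.2).2
  choose C hC using hf
  obtain ⟨l, hl⟩ : ∃ l : ℕ, ∀ i, (b i).natDegree ≤ l :=
    ⟨Finset.univ.sup fun i => (b i).natDegree, fun i => Finset.le_sup (f := fun i => (b i).natDegree) (Finset.mem_univ i)⟩
  obtain ⟨T, hT⟩ : ∃ T : Finset (ι × ℕ), T = Finset.univ ×ˢ Finset.range (l + 1) := ⟨_, rfl⟩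
  obtain ⟨v, hv⟩ : ∃ v : ι × ℕ → ℕ → ℤ, v = fun t N => (∏ t' ∈ T.erase t, ((f t' N).den : ℤ)) * (f t N).num := ⟨_, rfl⟩
  have hden : ∀ t N, (1 : ℤ) ≤ ((f t N).den : ℤ) ∧ ((f t N).den : ℤ) ≤ ((H N : ℤ) + 2) ^ C t := by
    intro t N
    constructor
    · exact_mod_cast (f t N).den_pos
    · exact_mod_cast (hC t N).2
  have hnum : ∀ t N, |(f t N).num| ≤ ((H N : ℤ) + 2) ^ C t := by
    intro t N
    rw [Int.abs_eq_natAbs]
    exact_mod_cast (hC t N).1
  have hprod : ∀ (S : Finset (ι × ℕ)) N, (1 : ℤ) ≤ ∏ t ∈ S, ((f t N).den : ℤ) ∧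
      ∏ t ∈ S, ((f t N).den : ℤ) ≤ ((H N : ℤ) + 2) ^ (∑ t ∈ S, C t) := by
    intro S N
    constructor
    · have h1 : (0 : ℤ) < ∏ t ∈ S, ((f t N).den : ℤ) :=
        Finset.prod_pos fun t _ => by have := (hden t N).1; linarith
      linarith
    · rw [← Finset.prod_pow_eq_pow_sum]
      exact Finset.prod_le_prod (fun t _ => by have := (hden t N).1; linarith) fun t _ => (hden t N).2
  have hvb : ∀ t ∈ T, ∀ N, |v t N| ≤ ((H N : ℤ) + 2) ^ (∑ t ∈ T, C t) := by
    intro t ht N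
    rw [hv]
    dsimp only
    rw [abs_mul, abs_of_nonneg (by have := (hprod (T.erase t) N).1; linarith), ← Finset.sum_erase_add _ _ ht, pow_add]
    exact mul_le_mul (hprod _ N).2 (hnum t N) (abs_nonneg _) (by positivity)
  have hco : ∀ N i j, ((∑ j' ∈ Finset.range (l + 1), Polynomial.C (v (i, j') N) * Polynomial.X ^ j' : Polynomial ℤ)).coeff j =
      if j ∈ Finset.range (l + 1) then v (i, j) N else 0 := by
    intro N i j
    rw [Polynomial.finsetSum_coeff]
    simp only [Polynomial.coeff_C_mul, Polynomial.coeff_X_pow, mul_ite, mul_one, mul_zero]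
    rw [Finset.sum_ite_eq]
  refine ⟨fun N => ∏ t ∈ T, ((f t N).den : ℤ), fun N i => ∑ j' ∈ Finset.range (l + 1),
    Polynomial.C (v (i, j') N) * Polynomial.X ^ j', ∑ t ∈ T, C t, l, fun N => hprod T N, fun N i => ⟨?_, fun j => ?_⟩,
    fun i j => ?_⟩
  · refine Polynomial.natDegree_sum_le_of_forall_le _ _ fun j hj => ?_
    exact (Polynomial.natDegree_C_mul_X_pow_le _ _).trans (Nat.lt_succ_iff.1 (Finset.mem_range.1 hj))
  · rw [hco]
    split_ifs with hj
    · refine hvb _ ?_ N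
      rw [hT]
      exact Finset.mem_product.2 ⟨Finset.mem_univ _, hj⟩
    · rw [abs_zero]
      positivity
  · have h1 : (((b i).coeff j : Q0 H) : QS) = cl (f (i, j)) := hc (i, j)
    by_cases hj : j ∈ Finset.range (l + 1)
    · rw [h1, cl_mul]
      congr 1
      funext N
      rw [hco, if_pos hj]
      have ht : (i, j) ∈ T := by
        rw [hT]
        exact Finset.mem_product.2 ⟨Finset.mem_univ _, hj⟩
      rw [hv]
      dsimp only
      rw [← Finset.prod_erase_mul _ _ ht]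
      push_cast
      rw [mul_assoc, Rat.den_mul_eq_num]
    · have h2 : (b i).coeff j = 0 := by
        apply Polynomial.coeff_eq_zero_of_natDegree_lt
        have h3 := hl i
        rw [Finset.mem_range] at hj
        omega
      rw [h2]
      have h4 : ((0 : Q0 H) : QS) = 0 := rfl
      rw [h4, mul_zero, cl_zero]
      congr 1
      funext N
      rw [hco, if_neg hj, Int.cast_zero]

/-- common denominators for elements integral over `(Q0 H)[x]`, `x ∈ ZS` (`int_small`, H82/NS/Int.lean, for every `i`, product) -/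
theorem den_int {H : ℕ → ℕ} {m : ℕ} {x : QS} (hx : x ∈ ZS) {φ : Fin m → QS}
    (hφ : ∀ i, IsIntegral (Algebra.adjoin (Q0 H) {x}) (φ i)) :
    ∃ (e : ℕ → ℤ) (Y : ℕ → Fin m → ℤ) (C : ℕ), (∀ᶠ N in UU, 1 ≤ e N ∧ e N ≤ ((H N : ℤ) + 2) ^ C) ∧
      ∀ i, φ i = cl (fun N => (Y N i : ℚ) / (e N : ℚ)) := by
  classical
  choose d hd1 hd2 hd3 hd4 using fun i => int_small H x (φ i) hx (hφ i)
  obtain ⟨δ, hδ⟩ : ∃ δ : QS, δ = ∏ i, d i := ⟨_, rfl⟩
  have h1 : δ ∈ Q0 H := by
    rw [hδ]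
    exact (Q0 H).prod_mem fun i _ => hd1 i
  have h2 : δ ∈ ZS := by
    rw [hδ]
    exact ZS.prod_mem fun i _ => hd2 i
  have h3 : δ ≠ 0 := by
    rw [hδ]
    exact Finset.prod_ne_zero_iff.2 fun i _ => hd3 i
  have h4 : ∀ i, δ * φ i ∈ ZS := by
    intro i
    rw [hδ, ← Finset.prod_erase_mul _ _ (Finset.mem_univ i), mul_assoc]
    exact ZS.mul_mem (ZS.prod_mem fun i _ => hd2 i) (hd4 i)
  obtain ⟨a, ha⟩ := mem_zs.1 h2
  choose y hy using fun i => mem_zs.1 (h4 i)
  obtain ⟨f, ⟨C, hC⟩, hf⟩ := h1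
  have ha0 : ∀ᶠ N in UU, a N ≠ 0 := by
    have h5 : ¬ ∀ᶠ N in UU, a N = 0 := by
      intro h5
      apply h3
      rw [ha, cl_zero, cl_eq]
      exact h5.mono fun N hN => by rw [hN, Int.cast_zero]
    exact Ultrafilter.eventually_not.2 h5
  refine ⟨fun N => |a N|, fun N i => (a N).sign * y i N, C, ?_, fun i => ?_⟩
  · rw [ha, cl_eq] at hf
    filter_upwards [hf, ha0] with N h5 h6
    refine ⟨Int.one_le_abs h6, ?_⟩
    have h7 : a N = (f N).num := by
      have h8 := congrArg Rat.num h5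
      rwa [Rat.num_intCast] at h8
    rw [h7, Int.abs_eq_natAbs]
    exact_mod_cast (hC N).1
  · have h5 : φ i = cl (fun N => (y i N : ℚ)) / δ := by
      rw [← hy i, mul_comm, mul_div_assoc, div_self h3, mul_one]
    rw [h5, ha, div_eq_mul_inv, cl_inv, cl_mul, cl_eq]
    filter_upwards [ha0] with N h6
    have h7 : (a N : ℚ) ≠ 0 := Int.cast_ne_zero.2 h6
    rcases lt_or_gt_of_ne h6 with h8 | h8
    · rw [abs_of_neg h8, Int.sign_eq_neg_one_of_neg h8]
      push_cast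
      field_simp
    · rw [abs_of_pos h8, Int.sign_eq_one_of_pos h8]
      push_cast
      field_simp

end Pool.Agent.H90.SF
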