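import Pool.Agent.H90.SF.Def

/-! # [SF J1] The expansion of a function field at a place, for one root `β` of `Q`

`O` valuation ring of `L` over `k`, `π` a uniformizer, archimedean (`hd`), the residue field is `k[g]`, `Q` irreducible with `Q(g) ∈ m`, `β ∈ F` a root of
`Q`. CLAIM: there is an embedding `e : L → F((t))` over `k` with `e π = t`, `a ∈ O ↔ e a ∈ F[[t]]`, constant coefficient of `e g` is `β`.
Proof. (1) `nwt` (H85/LK/Nwt): for each `N` there is `g' ∈ O`, `g' - g ∈ m`, `Q(g') ∈ π^N O` (call `g'` an `N`-root). `Q` is separable, `Q'(g)` is a unit of `O`: two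
`N`-roots differ by an element of `π^N O` (`Q(g'') - Q(g') = (g'' - g') (Q'(g') + (g'' - g') c)`, the factor is a unit). So `A(g'') - A(g') ∈ π^N O` for `A ∈ k[T]`.
(2) For `A ∈ k[T]`, `A(g) ∈ m` or `A(g') ∈ m` implies `Q ∣ A` (`Q` irreducible, otherwise `U A + W Q = 1`, `1 ∈ m`), so `A(g') ∈ π^N O` for every `N`-root and `A(β) = 0`.
(3) Say that `f ∈ F[[X]]` is the expansion of `a ∈ O` (`Rel a f`) if for every `N` and every `N`-root `g'` there are `A_u ∈ k[T]` with `a - ∑_{u<N} A_u(g') π^u ∈ π^N O`,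
`A_u(β) = coeff u f`. Existence: as in `exd` (H12/GN/Exd.lean) for every `N` polynomials `A_u`, `u < N`; by (2) and induction the values `A_u(β)` do not depend on the choices nor on
`N`: if `∑_{u<N} A_u(g') π^u ∈ π^N O` then `Q ∣ A_u` for all `u < N`. Uniqueness of `f` in the same way. Sum, product (`A_u B_v` and reorder, terms `u + v ≥ N` are in `π^N O`), constants
(`A_0 = C c`), `π` (`A_1 = 1`), `g` (`A_0 = T`: `g - g' ∈ m`, `(g - g')/π` again expand; only the constant coefficient matters).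
(4) So `e₀ : O →+* F[[X]]`, `e₀ c = C c`, `e₀ π = X`, constant coefficient of `e₀ g` is `β`; `a ∈ m ↔` the constant coefficient of `e₀ a` is `0` (units go to units). `e₀` is injective: `a ≠ 0`,
`a = π^n u`, `u` unit of `O` (`hd`: `π^n/a ∈ O`, least `n` such that `a/π^(n+1) ∉ O`). Extend to `L = Frac O` (`IsFractionRing O L`; `IsFractionRing.lift` of the injective ring homomorphism
`O → F[[X]] → F((X))`). `a ∉ O`: `a⁻¹ ∈ m`, `e a` has a pole. -/

namespace Pool.Agent.H90.SF

open Pool.Agent.H82.NS Pool.Agent.H8.OA Pool.Agent.H12.ON Pool.Agent.H12.OG IntermediateField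

open Polynomial in
private theorem ej_sub {k R : Type} [Field k] [CommRing R] [Algebra k R] (x y : R) (A : Polynomial k) :
    x - y ∣ aeval x A - aeval y A := by
  rw [aeval_def, aeval_def, eval₂_eq_eval_map, eval₂_eq_eval_map]
  exact sub_dvd_eval_sub x y _

/-- evaluation of `∑ A_u X^u` at `g' = x`, `X = p` -/
private noncomputable def ejE (k : Type) {R : Type} [Field k] [CommRing R] [Algebra k R] (p x : R) :
    Polynomial (Polynomial k) →+* R :=
  Polynomial.eval₂RingHom ((Polynomial.aeval x : Polynomial k →ₐ[k] R) : Polynomial k →+* R) p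

open Polynomial in
private theorem ejE_sum {k R : Type} [Field k] [CommRing R] [Algebra k R] (p x : R)
    (P : Polynomial (Polynomial k)) (n : ℕ) (hn : P.natDegree < n) :
    ejE k p x P = ∑ u ∈ Finset.range n, aeval x (P.coeff u) * p ^ u := by
  unfold ejE
  rw [coe_eval₂RingHom, eval₂_eq_sum_range' _ hn]
  rfl

open Polynomial in
private theorem ejE_sub {k R : Type} [Field k] [CommRing R] [Algebra k R] (p x y : R)
    (P : Polynomial (Polynomial k)) : x - y ∣ ejE k p x P - ejE k p y P := by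
  rw [ejE_sum p x P _ (Nat.lt_succ_self _), ejE_sum p y P _ (Nat.lt_succ_self _), ← Finset.sum_sub_distrib]
  refine Finset.dvd_sum fun u _ => ?_
  rw [← sub_mul]
  exact (ej_sub x y _).mul_right _

/-- the setting -/
private structure EJ (k : Type) {R F : Type} [Field k] [CommRing R] [IsLocalRing R] [Algebra k R] [Field F] [Algebra k F]
    (p g : R) (Q : Polynomial k) (β : F) (G : ℕ → R) : Prop where
  p0 : p ≠ 0
  pm : p ∈ IsLocalRing.maximalIdeal R
  pd : ∀ a ∈ IsLocalRing.maximalIdeal R, p ∣ a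
  irr : Irreducible Q
  gQ : Polynomial.aeval g Q ∈ IsLocalRing.maximalIdeal R
  gs : ∀ a : R, ∃ A : Polynomial k, a - Polynomial.aeval g A ∈ IsLocalRing.maximalIdeal R
  bQ : Polynomial.aeval β Q = 0
  Gg : ∀ N, G N - g ∈ IsLocalRing.maximalIdeal R
  GQ : ∀ N, p ^ N ∣ Polynomial.aeval (G N) Q

section ej

set_option linter.unusedSectionVars false
set_option linter.unusedVariables false

open Polynomial

variable {k R F : Type} [Field k] [CharZero k] [CommRing R] [IsDomain R] [IsLocalRing R] [Algebra k R] [Field F] [Algebra k F]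
    {p g : R} {Q : Polynomial k} {β : F} {G : ℕ → R}

private theorem ej_near (h : EJ k p g Q β G) {x : R} (hx : x - g ∈ IsLocalRing.maximalIdeal R) (A : Polynomial k) :
    aeval x A - aeval g A ∈ IsLocalRing.maximalIdeal R := by
  obtain ⟨c, hc⟩ := ej_sub x g A
  rw [hc]
  exact Ideal.mul_mem_right _ _ hx

private theorem ej_xQ (h : EJ k p g Q β G) {x : R} (hx : x - g ∈ IsLocalRing.maximalIdeal R) :
    aeval x Q ∈ IsLocalRing.maximalIdeal R := by
  have h1 := Ideal.add_mem _ (ej_near h hx Q) h.gQ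
  rwa [sub_add_cancel] at h1

private theorem ej_unit (h : EJ k p g Q β G) {x : R} (hx : x - g ∈ IsLocalRing.maximalIdeal R) {A : Polynomial k}
    (hA : ¬ Q ∣ A) : aeval x A ∉ IsLocalRing.maximalIdeal R := by
  intro h1
  obtain ⟨U, V, h2⟩ := (h.irr.coprime_iff_not_dvd).2 hA
  have h3 := congrArg (aeval x) h2
  rw [map_add, map_mul, map_mul, map_one] at h3
  have h4 : (1 : R) ∈ IsLocalRing.maximalIdeal R := by
    rw [← h3]
    exact Ideal.add_mem _ (Ideal.mul_mem_left _ _ (ej_xQ h hx)) (Ideal.mul_mem_left _ _ h1)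
  exact h4 isUnit_one

private theorem ej_beta (h : EJ k p g Q β G) {A : Polynomial k} : aeval β A = 0 ↔ Q ∣ A := by
  constructor
  · intro h1
    by_contra hA
    obtain ⟨U, V, h2⟩ := (h.irr.coprime_iff_not_dvd).2 hA
    have h3 := congrArg (aeval β) h2
    rw [map_add, map_mul, map_mul, map_one, h1, h.bQ, mul_zero, mul_zero, add_zero] at h3
    exact zero_ne_one h3
  · rintro ⟨B, rfl⟩
    rw [map_mul, h.bQ, zero_mul]

/-- two `N`-roots -/
private theorem ej_root (h : EJ k p g Q β G) {N : ℕ} {x y : R} (hx : x - g ∈ IsLocalRing.maximalIdeal R)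
    (hy : y - g ∈ IsLocalRing.maximalIdeal R) (hxQ : p ^ N ∣ aeval x Q) (hyQ : p ^ N ∣ aeval y Q) :
    p ^ N ∣ x - y := by
  have hxy : x - y ∈ IsLocalRing.maximalIdeal R := by
    have h1 := Ideal.sub_mem _ hx hy
    rwa [sub_sub_sub_cancel_right] at h1
  obtain ⟨c, hc⟩ := (Q.map (algebraMap k R)).binomExpansion y (x - y)
  rw [add_sub_cancel] at hc
  rw [eval_map_algebraMap, eval_map_algebraMap, derivative_map, eval_map_algebraMap] at hc
  have hd : ¬ Q ∣ derivative Q := by
    intro h1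
    have h2 : derivative Q = 0 := by
      by_contra h3
      have h4 := natDegree_le_of_dvd h1 h3
      have h5 := natDegree_derivative_lt (p := Q) (by
        have := h.irr.natDegree_pos
        omega)
      omega
    have h3 := h.irr.natDegree_pos
    rw [derivative_eq_zero.1 h2] at h3
    exact lt_irrefl 0 h3
  have h1 := ej_unit h hy hd
  have h2 : IsUnit (aeval y (derivative Q) + c * (x - y)) := by
    by_contra h3
    have h4 : aeval y (derivative Q) + c * (x - y) ∈ IsLocalRing.maximalIdeal R := h3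
    have h5 := Ideal.sub_mem _ h4 (Ideal.mul_mem_left _ c hxy)
    rw [add_sub_cancel_right] at h5
    exact h1 h5
  obtain ⟨u, hu⟩ := h2.exists_right_inv
  have h3 : x - y = (aeval x Q - aeval y Q) * u := by
    rw [hc]
    have h4 : (x - y) * ((aeval y (derivative Q) + c * (x - y)) * u) = x - y := by rw [hu, mul_one]
    linear_combination -h4
  rw [h3]
  exact (dvd_sub hxQ hyQ).mul_right _

/-- the key equivalence -/
private theorem ej_key (h : EJ k p g Q β G) {N : ℕ} {x : R} (hx : x - g ∈ IsLocalRing.maximalIdeal R)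
    (hxQ : p ^ N ∣ aeval x Q) {P : Polynomial (Polynomial k)} (hP : p ^ N ∣ ejE k p x P) :
    ∀ u < N, aeval β (P.coeff u) = 0 := by
  intro u
  induction u using Nat.strong_induction_on with
  | _ u ih =>
    intro hu
    by_contra hne
    have h1 : ¬ Q ∣ P.coeff u := fun h2 => hne ((ej_beta h).2 h2)
    have h2 := ej_unit h hx h1
    have h3 := ejE_sum p x P (max P.natDegree u + 1) (Nat.lt_succ_of_le (le_max_left _ _))
    have h4 : u ∈ Finset.range (max P.natDegree u + 1) :=
      Finset.mem_range.2 (Nat.lt_succ_of_le (le_max_right _ _))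
    rw [← Finset.add_sum_erase _ _ h4] at h3
    have h5 : p ^ (u + 1) ∣ ∑ j ∈ (Finset.range (max P.natDegree u + 1)).erase u, aeval x (P.coeff j) * p ^ j := by
      refine Finset.dvd_sum fun j hj => ?_
      rcases lt_or_gt_of_ne (Finset.ne_of_mem_erase hj) with h6 | h6
      · have h7 := (ej_beta h).1 (ih j h6 (h6.trans hu))
        have h8 : aeval x Q ∣ aeval x (P.coeff j) := by
          obtain ⟨B, hB⟩ := h7
          rw [hB, map_mul]
          exact dvd_mul_right _ _
        exact (((pow_dvd_pow p (Nat.succ_le_of_lt hu)).trans hxQ).trans h8).mul_right _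
      · exact (pow_dvd_pow p (Nat.succ_le_of_lt h6)).mul_left _
    have h6 : p ^ (u + 1) ∣ aeval x (P.coeff u) * p ^ u := by
      have h7 : aeval x (P.coeff u) * p ^ u = ejE k p x P -
          ∑ j ∈ (Finset.range (max P.natDegree u + 1)).erase u, aeval x (P.coeff j) * p ^ j := by
        rw [h3]
        ring
      rw [h7]
      exact dvd_sub ((pow_dvd_pow p (Nat.succ_le_of_lt hu)).trans hP) h5
    rw [pow_succ', mul_dvd_mul_iff_right (pow_ne_zero u h.p0)] at h6
    obtain ⟨c, hc⟩ := h6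
    apply h2
    rw [hc]
    exact Ideal.mul_mem_right _ _ h.pm

/-- the expansion up to `p ^ M` -/
private theorem ej_sur (h : EJ k p g Q β G) {x : R} (hx : x - g ∈ IsLocalRing.maximalIdeal R) (a : R) (M : ℕ) :
    ∃ P : Polynomial (Polynomial k), p ^ M ∣ a - ejE k p x P := by
  induction M with
  | zero => exact ⟨0, by rw [pow_zero]; exact one_dvd _⟩
  | succ M ih =>
    obtain ⟨P, b, hb⟩ := ih
    obtain ⟨A, hA⟩ := h.gs b
    have h1 : b - aeval x A ∈ IsLocalRing.maximalIdeal R := by
      have h2 := Ideal.sub_mem _ hA (ej_near h hx A)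
      have h3 : b - aeval g A - (aeval x A - aeval g A) = b - aeval x A := by ring
      rwa [h3] at h2
    obtain ⟨c, hc⟩ := h.pd _ h1
    refine ⟨P + C A * X ^ M, c, ?_⟩
    have h2 : ejE k p x (C A * X ^ M) = aeval x A * p ^ M := by
      unfold ejE
      rw [coe_eval₂RingHom, eval₂_mul, eval₂_C, eval₂_pow, eval₂_X]
      rfl
    rw [map_add, h2, pow_succ]
    linear_combination hb + p ^ M * hc

private theorem ej_ring [h' : Fact (EJ k p g Q β G)] :
    ∃ E : R →ₐ[k] PowerSeries F, E p = PowerSeries.X ∧ PowerSeries.coeff 0 (E g) = β := by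
  classical
  have h := h'.out
  have hex : ∀ (a : R) (N : ℕ), ∃ P : Polynomial (Polynomial k), p ^ N ∣ a - ejE k p (G N) P :=
    fun a N => ej_sur h (h.Gg N) a N
  choose Pc hPc using hex
  obtain ⟨Ψ, hΨ⟩ : ∃ Ψ : Polynomial (Polynomial k) →+* PowerSeries F, ∀ P u,
      PowerSeries.coeff u (Ψ P) = aeval β (P.coeff u) := by
    refine ⟨(Polynomial.coeToPowerSeries.ringHom).comp
      (Polynomial.mapRingHom ((aeval β : Polynomial k →ₐ[k] F) : Polynomial k →+* F)), fun P u => ?_⟩
    rw [RingHom.comp_apply, Polynomial.coeToPowerSeries.ringHom_apply, Polynomial.coeff_coe,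
      Polynomial.coe_mapRingHom, Polynomial.coeff_map]
    rfl
  obtain ⟨E, hE⟩ : ∃ E : R → PowerSeries F, ∀ a u, PowerSeries.coeff u (E a) = aeval β ((Pc a (u + 1)).coeff u) :=
    ⟨fun a => PowerSeries.mk fun u => aeval β ((Pc a (u + 1)).coeff u), fun a u => PowerSeries.coeff_mk _ _⟩
  have key : ∀ (a : R) (N : ℕ) (P : Polynomial (Polynomial k)), p ^ N ∣ a - ejE k p (G N) P → ∀ u < N,
      PowerSeries.coeff u (E a) = PowerSeries.coeff u (Ψ P) := by
    intro a N P hP u hu
    rw [hE, hΨ]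
    have h1 : p ^ (u + 1) ∣ G N - G (u + 1) :=
      ej_root h (h.Gg N) (h.Gg (u + 1)) ((pow_dvd_pow p (Nat.succ_le_of_lt hu)).trans (h.GQ N)) (h.GQ (u + 1))
    have h2 : p ^ (u + 1) ∣ ejE k p (G N) P - ejE k p (G (u + 1)) P := h1.trans (ejE_sub p _ _ P)
    have h3 : p ^ (u + 1) ∣ ejE k p (G (u + 1)) (Pc a (u + 1) - P) := by
      have h4 := hPc a (u + 1)
      have h5 := (pow_dvd_pow p (Nat.succ_le_of_lt hu)).trans hP
      have h6 : ejE k p (G (u + 1)) (Pc a (u + 1) - P) = (a - ejE k p (G N) P) -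
          (a - ejE k p (G (u + 1)) (Pc a (u + 1))) + (ejE k p (G N) P - ejE k p (G (u + 1)) P) := by
        rw [map_sub]
        ring
      rw [h6]
      exact dvd_add (dvd_sub h5 h4) h2
    have h4 := ej_key h (h.Gg (u + 1)) (h.GQ (u + 1)) h3 u (Nat.lt_succ_self u)
    rw [coeff_sub, map_sub] at h4
    exact sub_eq_zero.1 h4
  have ex : ∀ (a : R) (P : Polynomial (Polynomial k)), (∀ N, a = ejE k p (G N) P) → E a = Ψ P := by
    intro a P hP
    ext u
    exact key a (u + 1) P (by rw [← hP (u + 1), sub_self]; exact dvd_zero _) u (Nat.lt_succ_self u)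
  have hC : ∀ c : k, E (algebraMap k R c) = algebraMap k (PowerSeries F) c := by
    intro c
    have h1 := ex (algebraMap k R c) (C (C c)) fun N => by
      unfold ejE
      rw [coe_eval₂RingHom, eval₂_C]
      exact (aeval_C _ _).symm
    rw [h1]
    ext u
    rw [hΨ, PowerSeries.algebraMap_apply, PowerSeries.coeff_C, coeff_C]
    split_ifs with hu
    · exact aeval_C _ _
    · exact map_zero _
  have hadd : ∀ a b, E (a + b) = E a + E b := by
    intro a b
    ext u
    have h1 := hPc a (u + 1)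
    have h2 := hPc b (u + 1)
    rw [map_add, key (a + b) (u + 1) (Pc a (u + 1) + Pc b (u + 1)) (by
      rw [map_add, add_sub_add_comm]
      exact dvd_add h1 h2) u (Nat.lt_succ_self u), key a (u + 1) _ h1 u (Nat.lt_succ_self u),
      key b (u + 1) _ h2 u (Nat.lt_succ_self u), map_add, map_add]
  have hmul : ∀ a b, E (a * b) = E a * E b := by
    intro a b
    ext u
    have h1 := hPc a (u + 1)
    have h2 := hPc b (u + 1)
    rw [key (a * b) (u + 1) (Pc a (u + 1) * Pc b (u + 1)) (by
      have h3 : a * b - ejE k p (G (u + 1)) (Pc a (u + 1) * Pc b (u + 1)) =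
          a * (b - ejE k p (G (u + 1)) (Pc b (u + 1))) +
            (a - ejE k p (G (u + 1)) (Pc a (u + 1))) * ejE k p (G (u + 1)) (Pc b (u + 1)) := by
        rw [map_mul]
        ring
      rw [h3]
      exact dvd_add (h2.mul_left _) (h1.mul_right _)) u (Nat.lt_succ_self u), map_mul, PowerSeries.coeff_mul,
      PowerSeries.coeff_mul]
    refine Finset.sum_congr rfl fun ij hij => ?_
    have h3 := Finset.HasAntidiagonal.mem_antidiagonal.1 hij
    rw [key a (u + 1) _ h1 ij.1 (by omega), key b (u + 1) _ h2 ij.2 (by omega)]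
  have hone : E 1 = 1 := by
    have h1 := hC 1
    rwa [map_one, map_one] at h1
  have hzero : E 0 = 0 := by
    have h1 := hC 0
    rwa [map_zero, map_zero] at h1
  refine ⟨{ toFun := E, map_one' := hone, map_mul' := hmul, map_zero' := hzero, map_add' := hadd, commutes' := hC }, ?_, ?_⟩
  · show E p = PowerSeries.X
    have h1 := ex p X fun N => by
      unfold ejE
      rw [coe_eval₂RingHom, eval₂_X]
    rw [h1]
    ext u
    rw [hΨ, PowerSeries.coeff_X, coeff_X]
    by_cases hu : u = 1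
    · rw [if_pos hu, if_pos hu.symm, map_one]
    · rw [if_neg hu, if_neg (Ne.symm hu), map_zero]
  · show PowerSeries.coeff 0 (E g) = β
    rw [key g 1 (C X) (by
      have h1 : ejE k p (G 1) (C X) = G 1 := by
        unfold ejE
        rw [coe_eval₂RingHom, eval₂_C]
        exact aeval_X _
      rw [h1, pow_one, ← neg_sub, dvd_neg]
      exact h.pd _ (h.Gg 1)) 0 Nat.zero_lt_one, hΨ, coeff_C_zero, aeval_X]

end ej

theorem emb1 {k L F : Type} [Field k] [CharZero k] [Field L] [Algebra k L] [Field F] [Algebra k F]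
    {O : ValuationSubring L} (hO : Ov k O) {π : L} (h0 : π ≠ 0) (hm : π ∈ O.nonunits)
    (hu : ∀ a ∈ O.nonunits, a / π ∈ O) (hd : ∀ a : L, a ≠ 0 → ∃ n : ℕ, π ^ n / a ∈ O)
    {Q : Polynomial k} (hQ : Irreducible Q) {g : L} (hg : g ∈ O) (hQg : Polynomial.aeval g Q ∈ O.nonunits)
    (hs : ∀ a ∈ O, ∃ A : Polynomial k, a - Polynomial.aeval g A ∈ O.nonunits)
    {β : F} (hβ : Polynomial.aeval β Q = 0) :
    ∃ e : L →ₐ[k] LaurentSeries F, e π = HahnSeries.single 1 1 ∧ (∀ a, a ∈ O ↔ Pole (e a) 0) ∧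
      (e g).coeff 0 = β := by
  have hιex : ∃ ι : k →+* O, ∀ c, ((ι c : O) : L) = algebraMap k L c :=
    ⟨(algebraMap k L).codRestrict O.toSubring hO, fun c => rfl⟩
  obtain ⟨ι, hι⟩ := hιex
  let _ : Algebra k O := ι.toAlgebra
  have hev : ∀ (x : O) (A : Polynomial k), ((Polynomial.aeval x A : O) : L) = Polynomial.aeval (x : L) A := by
    intro x A
    rw [Polynomial.aeval_def, Polynomial.aeval_def]
    have h1 := Polynomial.hom_eval₂ A ι O.subtype x
    have h2 : O.subtype.comp ι = algebraMap k L := RingHom.ext fun c => hι c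
    rw [h2] at h1
    exact h1
  have hπO : π ∈ O := O.nonunits_subset hm
  have hmx : ∀ a : O, a ∈ IsLocalRing.maximalIdeal O ↔ (a : L) ∈ O.nonunits := fun a =>
    (ValuationSubring.coe_mem_nonunits_iff (A := O)).symm
  have hG : ∀ N : ℕ, ∃ x : O, (x : L) - g ∈ O.nonunits ∧ Polynomial.aeval (x : L) Q / π ^ N ∈ O := by
    intro N
    obtain ⟨g', h1, h2, h3⟩ := Pool.Agent.H85.LK.nwt hO h0 hm hu hg hQ hQg N
    exact ⟨⟨g', h1⟩, h2, h3⟩
  choose G hG1 hG2 using hG
  have hdv : ∀ (a : O) (N : ℕ), (a : L) / π ^ N ∈ O → (⟨π, hπO⟩ : O) ^ N ∣ a := by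
    intro a N ha
    refine ⟨⟨(a : L) / π ^ N, ha⟩, Subtype.ext ?_⟩
    show (a : L) = π ^ N * ((a : L) / π ^ N)
    rw [mul_div_cancel₀ _ (pow_ne_zero N h0)]
  have hEJ : EJ k (⟨π, hπO⟩ : O) ⟨g, hg⟩ Q β G := by
    refine ⟨?_, ?_, ?_, hQ, ?_, ?_, hβ, ?_, ?_⟩
    · intro h
      exact h0 (congrArg Subtype.val h)
    · exact (hmx _).2 hm
    · intro a ha
      have h1 := hdv a 1 (by
        rw [pow_one]
        exact hu _ ((hmx a).1 ha))
      rwa [pow_one] at h1
    · rw [hmx, hev]
      exact hQg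
    · intro a
      obtain ⟨A, hA⟩ := hs a a.2
      refine ⟨A, ?_⟩
      rw [hmx]
      show (a : L) - ((Polynomial.aeval (⟨g, hg⟩ : O) A : O) : L) ∈ O.nonunits
      rw [hev]
      exact hA
    · intro N
      rw [hmx]
      exact hG1 N
    · intro N
      apply hdv
      rw [hev]
      exact hG2 N
  have hfact : Fact (EJ k (⟨π, hπO⟩ : O) ⟨g, hg⟩ Q β G) := ⟨hEJ⟩
  obtain ⟨E, hE1, hE2⟩ := ej_ring (h' := hfact)
  have hinj : Function.Injective ((HahnSeries.ofPowerSeries ℤ F).comp (E : O →+* PowerSeries F)) := by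
    rw [injective_iff_map_eq_zero]
    intro a ha
    by_contra hne
    have hne' : (a : L) ≠ 0 := fun h => hne (Subtype.ext h)
    obtain ⟨n, hn⟩ := hd a hne'
    have h1 : (⟨π, hπO⟩ : O) ^ n = a * ⟨π ^ n / a, hn⟩ := by
      apply Subtype.ext
      show π ^ n = (a : L) * (π ^ n / a)
      rw [mul_div_cancel₀ _ hne']
    have h2 := congrArg ((HahnSeries.ofPowerSeries ℤ F).comp (E : O →+* PowerSeries F)) h1
    rw [map_mul, ha, zero_mul, map_pow, RingHom.comp_apply] at h2
    have h3 : (HahnSeries.ofPowerSeries ℤ F) ((E : O →+* PowerSeries F) ⟨π, hπO⟩) = HahnSeries.single 1 1 := by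
      show (HahnSeries.ofPowerSeries ℤ F) (E ⟨π, hπO⟩) = _
      rw [hE1, HahnSeries.ofPowerSeries_X]
    rw [h3] at h2
    have h4 : (HahnSeries.single (1 : ℤ) (1 : F) : LaurentSeries F) ≠ 0 := fun h =>
      one_ne_zero (HahnSeries.single_eq_zero_iff.1 h)
    exact pow_ne_zero n h4 h2
  obtain ⟨e', he'⟩ : ∃ e' : L →+* LaurentSeries F, ∀ a : O, e' (a : L) = HahnSeries.ofPowerSeries ℤ F (E a) :=
    ⟨IsFractionRing.lift hinj, fun a => IsFractionRing.lift_algebraMap hinj a⟩
  have hpole : ∀ a : O, Pole (e' (a : L)) 0 := by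
    intro a i hi
    rw [he', PowerSeries.coeff_coe, if_pos (by omega)]
  have hπe : e' π = HahnSeries.single 1 1 := by
    have h1 := he' ⟨π, hπO⟩
    rw [hE1, HahnSeries.ofPowerSeries_X] at h1
    exact h1
  refine ⟨{ e' with commutes' := fun c => ?_ }, hπe, fun a => ⟨fun ha => hpole ⟨a, ha⟩, fun ha => ?_⟩, ?_⟩
  · show e' (algebraMap k L c) = algebraMap k (LaurentSeries F) c
    have h1 : E (ι c) = algebraMap k (PowerSeries F) c := E.commutes c
    rw [← hι, he', h1]
    rfl
  · by_contra hna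
    have ha' : Pole (e' a) 0 := ha
    have hne : a ≠ 0 := fun h => hna (by rw [h]; exact O.zero_mem)
    have h1 : a⁻¹ ∈ O.nonunits := (O.inv_mem_nonunits_iff).2 (Or.inr hna)
    obtain ⟨b, hb⟩ : ∃ b : O, (b : L) = a⁻¹ / π := ⟨⟨_, hu _ h1⟩, rfl⟩
    have h2 : π * (a * (b : L)) = 1 := by
      rw [hb]
      field_simp
    have h3 := congrArg e' h2
    rw [map_mul, map_mul, hπe, map_one e'] at h3
    have h4 := congrArg (fun f : LaurentSeries F => f.coeff 0) h3
    simp only [HahnSeries.coeff_single_mul, HahnSeries.coeff_one, one_mul, if_true] at h4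
    rw [HahnSeries.coeff_mul] at h4
    rw [Finset.sum_eq_zero] at h4
    · exact zero_ne_one h4
    · intro ij hij
      have h5 : ij.1 + ij.2 = 0 - 1 := (Finset.mem_antidiagonal.1 hij).2.2
      rcases lt_or_ge ij.1 0 with h6 | h6
      · rw [ha' ij.1 (by omega), zero_mul]
      · rw [hpole b ij.2 (by omega), mul_zero]
  · show (e' g).coeff 0 = β
    have h1 := he' ⟨g, hg⟩
    have h2 : e' g = HahnSeries.ofPowerSeries ℤ F (E ⟨g, hg⟩) := h1
    rw [h2, PowerSeries.coeff_coe, if_neg (lt_irrefl _)]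
    exact hE2

end Pool.Agent.H90.SF
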