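import Pool.Agent.H90.SF.Esx
import Pool.Agent.H90.SF.Lbp

/-! # [SF J6] Geometric jets

`ρ = r s`, `m₀ = 2γ/ρ + 1`, `D ≥ 14 (γ/ρ + 1)`, `T` a set of geometric points with `2 |T| ≤ ρ + s`, `ρ ≥ 7 s`. Given `τ q` (`q ∈ T`) with pole order at most `2D`, there is `φ ∈ Lb (2D)` with `φ q ≡ τ q` modulo `t^D` for `q ∈ T`.
Proof. (1) `2D > m₀`. The space `Lb (2D - m₀)` has dimension at least `ρ (2D - m₀) + 1 - γ` (`ls_fin`, `lb_dim`). The conditions: the coefficients of `t^i` in `f q`, `-(2D - m₀) ≤ i < D + m₀`, `q ∈ T`: `3D |T|` linear conditions. `3D |T| < ρ (2D - m₀) + 1 - γ`: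
`6D|T| ≤ 3D (ρ + s)`; need `3Dρ + 3Ds + 2ρ m₀ + 2γ < 4Dρ + 2`: `D (ρ - 3s) ≥ (4/7) D ρ ≥ 8 ρ (γ/ρ + 1)` (as `s ≤ ρ/7`), `ρ (γ/ρ + 1) ≥ max(γ + 1, ρ)`, `ρ m₀ ≤ 2γ + ρ`: `2ρ m₀ + 2γ ≤ 6γ + 2ρ < 8 ρ (γ/ρ + 1)`. So there is `f ∈ Lb (2D - m₀)`, `f ≠ 0`, with these coefficients
zero, `Pole (f q) (-(D + m₀))` for `q ∈ T` (`lb_pole` for the lower coefficients). `f q ≠ 0` for all `q` (`lb_ne`).
(2) For `q ∈ T` let `τ' q = τ q / f q`, for the other `q` `τ' q = 0`; `N` a common bound of the pole orders (every Laurent series has some pole order). `lb_pp`: `h ∈ Lb N`, `τ' q - h q` of pole order `≤ m₀`. `φ = f h ∈ Lb (2D - m₀ + N)`. For `q ∈ T`: `τ q - φ q = f q (τ' q - h q)` has pole order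
`≤ m₀ - (D + m₀) = -D`. So `φ q` has pole order `≤ 2D` (`τ q` has, and `-D ≤ 2D`). For `q ∉ T`: `h q` has pole order `≤ m₀`, `f q` `≤ 2D - m₀`. `lb_desc`: `φ ∈ Lb (2D)`. -/

namespace Pool.Agent.H90.SF

open Pool.Agent.H82.NS Pool.Agent.H8.OA Pool.Agent.H12.ON Pool.Agent.H12.OG IntermediateField

private theorem geo_mono {F : Type} [Field F] {f : LaurentSeries F} {n m : ℤ} (h : Pole f n)
    (hnm : n ≤ m) : Pole f m := fun i hi => h i (by omega)

private theorem geo_sub {F : Type} [Field F] {f g : LaurentSeries F} {n : ℤ} (hf : Pole f n)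
    (hg : Pole g n) : Pole (f - g) n := by
  intro i hi
  rw [HahnSeries.coeff_sub, hf i hi, hg i hi, sub_zero]

private theorem geo_mul {F : Type} [Field F] {f g : LaurentSeries F} {n m : ℤ} (hf : Pole f n)
    (hg : Pole g m) : Pole (f * g) (n + m) := by
  intro i hi
  rw [HahnSeries.coeff_mul]
  refine Finset.sum_eq_zero fun p hp => ?_
  rw [Finset.mem_antidiagonal] at hp
  obtain ⟨-, -, h3⟩ := hp
  rcases lt_or_ge p.1 (-n) with h4 | h4
  · rw [hf _ h4, zero_mul]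
  · rw [hg p.2 (by omega), mul_zero]

private theorem geo_ex {F : Type} [Field F] (f : LaurentSeries F) : ∃ N : ℕ, Pole f N := by
  refine ⟨(-f.order).toNat, fun i hi => ?_⟩
  have h1 := Int.self_le_toNat (-f.order)
  exact HahnSeries.coeff_eq_zero_of_lt_order (by omega)

private theorem geo_div {ρ γ : ℕ} (h : 0 < ρ) : 2 * γ / ρ ≤ 2 * (γ / ρ) + 1 := by
  have h5 := Nat.div_add_mod γ ρ
  have h6 := Nat.mod_lt γ h
  have h7 : 2 * γ / ρ < 2 * (γ / ρ) + 2 := by
    rw [Nat.div_lt_iff_lt_mul h]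
    nlinarith
  omega

private theorem geo_num {r s γ D t m : ℕ} (hr : 7 ≤ r) (hs : 1 ≤ s) (hD : 14 * (γ / (r * s) + 1) ≤ D)
    (hT : 2 * t ≤ r * s + s) (hm0 : 2 * γ / (r * s) + 1 ≤ 2 * D)
    (hm : r * s * (2 * D - (2 * γ / (r * s) + 1)) + 1 ≤ m + γ) : 3 * D * t < m := by
  have hρ : 7 * s ≤ r * s := Nat.mul_le_mul_right s hr
  generalize r * s = ρ at *
  have hρ0 : 0 < ρ := by omega
  have h1 : 2 * (D * t) ≤ D * ρ + D * s := by
    have := Nat.mul_le_mul_left D hT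
    nlinarith
  have h2 : 7 * (D * s) ≤ D * ρ := by
    have := Nat.mul_le_mul_left D hρ
    nlinarith
  have h3 : ρ * (2 * γ / ρ + 1) ≤ 2 * γ + ρ := by
    have := Nat.div_mul_le_self (2 * γ) ρ
    nlinarith
  have h4 : γ < ρ * (γ / ρ + 1) := by
    have h5 := Nat.div_add_mod γ ρ
    have h6 := Nat.mod_lt γ hρ0
    nlinarith
  have h5 : 14 * (ρ * (γ / ρ + 1)) ≤ D * ρ := by
    have := Nat.mul_le_mul_right ρ hD
    nlinarith
  have h6 : ρ ≤ ρ * (γ / ρ + 1) := Nat.le_mul_of_pos_right ρ (Nat.succ_pos _)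
  have h7 : ρ * (2 * D - (2 * γ / ρ + 1)) + ρ * (2 * γ / ρ + 1) = 2 * (D * ρ) := by
    rw [← Nat.mul_add, Nat.sub_add_cancel hm0]
    ring
  have h8 : 3 * D * t = 3 * (D * t) := by ring
  rw [h8]
  generalize ρ * (2 * D - (2 * γ / ρ + 1)) = a at *
  generalize ρ * (2 * γ / ρ + 1) = b at *
  generalize ρ * (γ / ρ + 1) = c at *
  generalize D * t = d at *
  generalize D * ρ = f at *
  generalize D * s = g at *
  omega

theorem geo_jets {k L F : Type} [Field k] [CharZero k] [Field L] [Algebra k L] [Field F] [Algebra k F] [IsAlgClosed F]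
    [Algebra.IsAlgebraic k F] {x : L} {O : ValuationSubring L} {P : Polynomial k} {g π : L} {s γ : ℕ} {z : Fin s → L}
    (h : Pt k x O P g π s γ z) (hr : 7 ≤ P.natDegree) {D : ℕ} (hD : 14 * (γ / (P.natDegree * s) + 1) ≤ D)
    {e : Fin (P.natDegree * s) → (L →ₐ[k] LaurentSeries F)} (he : Es k O π e)
    {T : Finset (Fin (P.natDegree * s))} (hT : 2 * T.card ≤ P.natDegree * s + s)
    {τ : Fin (P.natDegree * s) → LaurentSeries F} (hτ : ∀ q, Pole (τ q) ((2 * D : ℕ) : ℤ)) :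
    ∃ φ ∈ Lb k x O π e (2 * D), ∀ q ∈ T, Pole (τ q - φ q) (-(D : ℤ)) := by
  classical
  have hs := h.s1
  have hρ0 : 0 < P.natDegree * s := Nat.mul_pos (by omega) hs
  have hdiv := geo_div (γ := γ) hρ0
  have hm0 : 2 * γ / (P.natDegree * s) + 1 ≤ 2 * D := by omega
  obtain ⟨m, v, hv, hvL, -, hdim⟩ := ls_fin h (2 * D - (2 * γ / (P.natDegree * s) + 1))
  have hlt := geo_num hr hs hD hT hm0 hdim
  have hli := lb_dim (F := F) (e := e) h hρ0 hv
  have hmem : ∀ c : Fin m → F, (∑ i, c i • fun q => e q (v i)) ∈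
      Lb k x O π e (2 * D - (2 * γ / (P.natDegree * s) + 1)) := fun c =>
    Submodule.sum_mem _ fun i _ => Submodule.smul_mem _ _ (Submodule.subset_span ⟨v i, hvL i, rfl⟩)
  set n : ℕ := 2 * D - (2 * γ / (P.natDegree * s) + 1) with hn
  set m0 : ℕ := 2 * γ / (P.natDegree * s) + 1 with hm0'
  -- the conditions
  let A : (Fin m → F) →ₗ[F] (T × Fin (3 * D) → F) :=
    { toFun := fun c p => ∑ i, c i * (e p.1 (v i)).coeff (-(n : ℤ) + (p.2 : ℕ))
      map_add' := fun c d => by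
        funext p
        simp only [Pi.add_apply, add_mul, Finset.sum_add_distrib]
      map_smul' := fun a c => by
        funext p
        simp only [Pi.smul_apply, smul_eq_mul, mul_assoc, Finset.mul_sum, RingHom.id_apply] }
  have hker : LinearMap.ker A ≠ ⊥ := by
    refine LinearMap.ker_ne_bot_of_finrank_lt ?_
    rw [Module.finrank_fintype_fun_eq_card, Module.finrank_fintype_fun_eq_card, Fintype.card_prod,
      Fintype.card_coe, Fintype.card_fin, Fintype.card_fin]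
    calc T.card * (3 * D) = 3 * D * T.card := Nat.mul_comm _ _
      _ < m := hlt
  obtain ⟨c, hc, hc0⟩ := (Submodule.ne_bot_iff _).1 hker
  rw [LinearMap.mem_ker] at hc
  set f : Fin (P.natDegree * s) → LaurentSeries F := ∑ i, c i • fun q => e q (v i) with hf
  have hfm : f ∈ Lb k x O π e n := hmem c
  have hf0 : f ≠ 0 := fun h0 => hc0 (funext (Fintype.linearIndependent_iff.1 hli c h0))
  have hfq : ∀ q, f q ≠ 0 := lb_ne h hfm hf0
  have hfc : ∀ q (j : ℤ), (f q).coeff j = ∑ i, c i * (e q (v i)).coeff j := by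
    intro q j
    rw [hf, Finset.sum_apply, HahnSeries.coeff_sum]
    refine Finset.sum_congr rfl fun i _ => ?_
    rw [Pi.smul_apply, HahnSeries.coeff_smul, smul_eq_mul]
  have hfT : ∀ q ∈ T, Pole (f q) (-((D : ℤ) + m0)) := by
    intro q hq j hj
    rcases lt_or_ge j (-(n : ℤ)) with h1 | h1
    · exact lb_pole h he hfm q j h1
    · have h2 := congrFun hc (⟨q, hq⟩, ⟨(j + n).toNat, by omega⟩)
      have h3 : (-(n : ℤ) + ((j + n).toNat : ℕ)) = j := by omega
      rw [hfc]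
      simp only [A, LinearMap.coe_mk, AddHom.coe_mk, Pi.zero_apply] at h2
      rw [h3] at h2
      exact h2
  -- the second step
  let τ' : Fin (P.natDegree * s) → LaurentSeries F := fun q => if q ∈ T then τ q / f q else 0
  choose Nq hNq using fun q => geo_ex (τ' q)
  obtain ⟨ψ, hψ, hψ2⟩ := lb_pp h he (Finset.univ.sup Nq) (τ := τ') (fun q =>
    geo_mono (hNq q) (by exact_mod_cast Finset.le_sup (f := Nq) (Finset.mem_univ q)))
  have hmul := lb_mul h hfm hψ
  have hT' : ∀ q ∈ T, Pole (τ q - (f * ψ) q) (-(D : ℤ)) := by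
    intro q hq
    have h1 : τ q - (f * ψ) q = f q * (τ' q - ψ q) := by
      simp only [τ', if_pos hq, Pi.mul_apply]
      rw [mul_sub, mul_div_cancel₀ _ (hfq q)]
    rw [h1]
    have h2 := geo_mul (hfT q hq) (hψ2 q)
    exact geo_mono h2 (by omega)
  refine ⟨f * ψ, lb_desc h he hmul fun q => ?_, hT'⟩
  by_cases hq : q ∈ T
  · have h1 : (f * ψ) q = τ q - (τ q - (f * ψ) q) := by ring
    rw [h1]
    exact geo_sub (hτ q) (geo_mono (hT' q hq) (by omega))
  · have h1 : Pole (ψ q) (m0 : ℤ) := by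
      have h2 := hψ2 q
      simp only [τ', if_neg hq, zero_sub] at h2
      intro i hi
      have h3 := h2 i hi
      rw [HahnSeries.coeff_neg, neg_eq_zero] at h3
      exact h3
    rw [Pi.mul_apply]
    exact geo_mono (geo_mul (lb_pole h he hfm q) h1) (by omega)

end Pool.Agent.H90.SF
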