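import Pool.Agent.H90.SF.Def
import Pool.Agent.H8.OA.LDa

/-! # [SF J4] The spaces `Lb n` over the algebraically closed field

`e` as in `Es`. `lb_mul`: bilinearity, `e q` is multiplicative, `LS n * LS m ⊆ LS (n+m)`. `lb_pole`: `π^n φ ∈ O` and `Es.val`, `Es.pi` (`e q (π^n φ) = t^n e q φ`).
`lb_ne`: let `ψ ∈ Lb n`, `ψ ≠ 0`. Write `ψ = ∑ c_i E(φ_i)` with `φ_i` linearly independent over `k` and `c_i ∈ F` not all zero (choose a `k`-basis of the span of the occurring functions). If `ψ q = 0` for one `q`: `∑ c_i (e q φ_i) = 0` in `F((t))`,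
`ld_alg` (H8/OA/LDa.lean) with `E := L` mapped by `e q`, `M := F((t))`, `w i := c_i` (constants: `HahnSeries.C`, algebraic over `k`): all `c_i = 0`. Contradiction.
`lb_dim`: if `φ_i ∈ LS n` are independent over `k` then their images are independent over `F` (the same argument; needs `0 < ρ`).
`lb_desc`: let `ψ ∈ Lb N` have all pole orders at most `n`, `n < N`. `ψ = ∑ c_i E(φ_i)`, `φ_i ∈ LS N`. Show that `ψ ∈ Lb (N-1)` and use induction. Choose the `φ_i` such that, for some index set `I₁`, the `π^N φ_i`, `i ∈ I₁`, are independent over `k` modulo `m` and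
the others are in `LS (N-1)` (first a `k`-basis of the span of the `φ_i` adapted to the subspace `LS (N-1)`; `φ ∈ LS N` with `π^N φ ∈ m` is in `LS (N-1)` by `h.unf`). The coefficient of `t^(-N)` in `ψ q`: `∑_{i ∈ I₁} c_i (e q (π^N φ_i)).coeff 0 = 0` for all `q`; `Es.ind`: `c_i = 0`.
`lb_pp`: principal parts. Let `m₀ = 2γ/ρ + 1`. Given `τ : Fin ρ → F((t))` with pole orders at most `N`, there is `h ∈ Lb N` (if `N > m₀`; `N ≤ m₀`: `h = 0`) with `τ q - h q` of pole order at most `m₀` for all `q`: induction on `N`: `Es.sur` for `c q = (τ q).coeff (-N)`: `a_i ∈ O`, `w_i`; `led` (J3):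
`φ_i ∈ LS N`, `π^N φ_i - a_i ∈ m`, so `(e q φ_i).coeff (-N) = (e q a_i).coeff 0`; subtract `∑ w_i E(φ_i)`. -/

namespace Pool.Agent.H90.SF

open Pool.Agent.H82.NS Pool.Agent.H8.OA Pool.Agent.H12.ON Pool.Agent.H12.OG IntermediateField

variable {k L F : Type} [Field k] [CharZero k] [Field L] [Algebra k L] [Field F] [Algebra k F] [IsAlgClosed F]
    [Algebra.IsAlgebraic k F] {x : L} {O : ValuationSubring L} {P : Polynomial k} {g π : L} {s γ : ℕ} {z : Fin s → L}

/-- `LS n` as a subspace -/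
private def lsm (h : Pt k x O P g π s γ z) (n : ℕ) : Submodule k L where
  carrier := LS k x O π n
  zero_mem' := by
    refine ⟨isIntegral_zero, ?_⟩
    rw [mul_zero]
    exact O.zero_mem
  add_mem' := by
    rintro a b ⟨ha, ha'⟩ ⟨hb, hb'⟩
    refine ⟨IsIntegral.add ha hb, ?_⟩
    rw [mul_add]
    exact O.add_mem _ _ ha' hb'
  smul_mem' := by
    rintro c a ⟨ha, ha'⟩
    refine ⟨?_, ?_⟩
    · rw [Algebra.smul_def]
      refine IsIntegral.mul ?_ ha
      have h1 : algebraMap k L c = algebraMap (Algebra.adjoin k {x}) L (algebraMap k (Algebra.adjoin k {x}) c) :=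
        (IsScalarTower.algebraMap_apply k (Algebra.adjoin k {x}) L c)
      rw [h1]
      exact isIntegral_algebraMap
    · rw [mul_smul_comm, Algebra.smul_def]
      exact O.mul_mem _ _ (h.inf.base c) ha'

private theorem ls_mul {n m : ℕ} {a b : L} (ha : a ∈ LS k x O π n) (hb : b ∈ LS k x O π m) :
    a * b ∈ LS k x O π (n + m) := by
  refine ⟨IsIntegral.mul ha.1 hb.1, ?_⟩
  have h1 : π ^ (n + m) * (a * b) = (π ^ n * a) * (π ^ m * b) := by ring
  rw [h1]
  exact O.mul_mem _ _ ha.2 hb.2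

private theorem piO (h : Pt k x O P g π s γ z) : π ∈ O := O.nonunits_le h.πm

private theorem ls_mono (h : Pt k x O P g π s γ z) {n m : ℕ} (hnm : n ≤ m) : LS k x O π n ⊆ LS k x O π m := by
  rintro a ⟨h1, h2⟩
  refine ⟨h1, ?_⟩
  obtain ⟨d, rfl⟩ := Nat.exists_eq_add_of_le hnm
  have h3 : π ^ (n + d) * a = π ^ d * (π ^ n * a) := by ring
  rw [h3]
  exact O.mul_mem _ _ (O.toSubring.pow_mem (piO h) d) h2

private theorem alg_C (y : k) : algebraMap k (LaurentSeries F) y = HahnSeries.C (algebraMap k F y) := by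
  rw [HahnSeries.algebraMap_apply', PowerSeries.algebraMap_apply, HahnSeries.ofPowerSeries_C]

private theorem e_sm (e : L →ₐ[k] LaurentSeries F) (a : k) (y : L) : e (a • y) = (algebraMap k F a) • e y := by
  rw [Algebra.smul_def, map_mul, AlgHom.commutes, alg_C, HahnSeries.C_mul_eq_smul]

private theorem sm_mul (c : F) (f : LaurentSeries F) : c • f = f * HahnSeries.C c := by
  rw [mul_comm, HahnSeries.C_mul_eq_smul]

private theorem mul_sm (c : F) (f g : LaurentSeries F) : f * (c • g) = c • (f * g) := by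
  rw [sm_mul, sm_mul]
  ring

/-- representation with independent functions -/
private theorem rep {ρ : ℕ} (e : Fin ρ → (L →ₐ[k] LaurentSeries F)) (C : Submodule k L) {ψ : Fin ρ → LaurentSeries F}
    (hψ : ψ ∈ Submodule.span F ((fun φ : L => fun q => e q φ) '' (C : Set L))) :
    ∃ (m : ℕ) (b : Fin m → L) (c : Fin m → F), LinearIndependent k b ∧ (∀ i, b i ∈ C) ∧
      ψ = ∑ i, c i • (fun q => e q (b i)) := by
  classical
  let B := Module.Basis.ofVectorSpace k C
  have h1 : Submodule.span F ((fun φ : L => fun q => e q φ) '' (C : Set L)) ≤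
      Submodule.span F (Set.range fun i => (fun q => e q (B i : L))) := by
    rw [Submodule.span_le]
    rintro _ ⟨φ, hφ, rfl⟩
    have h2 := B.linearCombination_repr ⟨φ, hφ⟩
    rw [Finsupp.linearCombination_apply, Finsupp.sum] at h2
    have h3 := congrArg (Subtype.val) h2
    rw [Submodule.coe_sum] at h3
    have h4 : (fun q => e q φ) = ∑ i ∈ (B.repr ⟨φ, hφ⟩).support,
        (algebraMap k F (B.repr ⟨φ, hφ⟩ i)) • (fun q => e q (B i : L)) := by
      funext q
      rw [Finset.sum_apply]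
      have h5 : e q φ = e q (∑ i ∈ (B.repr ⟨φ, hφ⟩).support, ((B.repr ⟨φ, hφ⟩ i • B i : C) : L)) := congrArg (e q) h3.symm
      rw [h5, map_sum]
      refine Finset.sum_congr rfl fun i _ => ?_
      rw [Submodule.coe_smul, e_sm]
      rfl
    show (fun q => e q φ) ∈ _
    rw [h4]
    exact Submodule.sum_mem _ fun i _ => Submodule.smul_mem _ _ (Submodule.subset_span ⟨i, rfl⟩)
  have h5 := h1 hψ
  rw [Finsupp.mem_span_range_iff_exists_finsupp] at h5
  obtain ⟨c, hc⟩ := h5
  let σ := (Fintype.equivFin {i // i ∈ c.support}).symm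
  refine ⟨Fintype.card {i // i ∈ c.support}, fun i => (B (σ i).1 : L), fun i => c (σ i).1, ?_, fun i => (B (σ i).1).2, ?_⟩
  · have h6 : LinearIndependent k (fun i => (B i : L)) := by
      have h7 := B.linearIndependent.map' C.subtype (Submodule.ker_subtype C)
      exact h7
    exact h6.comp (fun i => (σ i).1) (Subtype.val_injective.comp σ.injective)
  · rw [← hc, Finsupp.sum, ← Finset.sum_coe_sort]
    exact (Equiv.sum_comp σ (fun i : {i // i ∈ c.support} => c i.1 • (fun q => e q (B i.1 : L)))).symm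

private theorem ev0 {ρ : ℕ} (e : Fin ρ → (L →ₐ[k] LaurentSeries F)) (hcl : RelCl k L) (q : Fin ρ) {ι : Type} [Fintype ι]
    {b : ι → L} (hb : LinearIndependent k b) {c : ι → F} (h : (∑ i, c i • (fun q => e q (b i))) q = 0) : ∀ i, c i = 0 := by
  let : Algebra L (LaurentSeries F) := (e q).toRingHom.toAlgebra
  have : @IsScalarTower k L (LaurentSeries F) _ _ (HahnSeries.powerSeriesAlgebra ℤ F).toSMul :=
    IsScalarTower.of_algebraMap_eq fun y => ((e q).commutes y).symm
  have h1 : ∑ i, algebraMap L (LaurentSeries F) (b i) * HahnSeries.C (c i) = 0 := by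
    rw [← h, Finset.sum_apply]
    refine Finset.sum_congr rfl fun i _ => ?_
    rw [← sm_mul]
    rfl
  have h2 : ∀ i, IsAlgebraic k (HahnSeries.C (c i) : LaurentSeries F) := by
    intro i
    have h3 : IsAlgebraic k (c i) := Algebra.IsAlgebraic.isAlgebraic (c i)
    obtain ⟨p, hp, hp'⟩ := h3
    refine ⟨p, hp, ?_⟩
    rw [Polynomial.aeval_def] at hp' ⊢
    have h4 : algebraMap k (LaurentSeries F) = (HahnSeries.C : F →+* LaurentSeries F).comp (algebraMap k F) := by
      ext1 y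
      exact alg_C y
    rw [h4, ← Polynomial.hom_eval₂, hp', map_zero]
  intro i
  have h5 := ld_alg hcl hb h2 h1 i
  exact HahnSeries.C_injective (by rw [h5, map_zero])

theorem lb_mul (h : Pt k x O P g π s γ z) {ρ : ℕ} {e : Fin ρ → (L →ₐ[k] LaurentSeries F)} {n m : ℕ}
    {ψ χ : Fin ρ → LaurentSeries F} (hψ : ψ ∈ Lb k x O π e n) (hχ : χ ∈ Lb k x O π e m) :
    ψ * χ ∈ Lb k x O π e (n + m) := by
  unfold Lb at hψ
  refine Submodule.span_induction (p := fun ψ _ => ψ * χ ∈ Lb k x O π e (n + m)) ?_ ?_ ?_ ?_ hψ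
  · rintro _ ⟨a, ha, rfl⟩
    unfold Lb at hχ
    refine Submodule.span_induction (p := fun χ _ => (fun q => e q a) * χ ∈ Lb k x O π e (n + m)) ?_ ?_ ?_ ?_ hχ
    · rintro _ ⟨b, hb, rfl⟩
      refine Submodule.subset_span ⟨a * b, ls_mul ha hb, ?_⟩
      funext q
      simp
    · rw [mul_zero]
      exact Submodule.zero_mem _
    · intro u v _ _ hu hv
      rw [mul_add]
      exact Submodule.add_mem _ hu hv
    · intro c u _ hu
      have h1 : (fun q => e q a) * (c • u) = c • ((fun q => e q a) * u) := by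
        funext q
        exact mul_sm c _ _
      rw [h1]
      exact Submodule.smul_mem _ _ hu
  · rw [zero_mul]
    exact Submodule.zero_mem _
  · intro u v _ _ hu hv
    rw [add_mul]
    exact Submodule.add_mem _ hu hv
  · intro c u _ hu
    have h1 : (c • u) * χ = c • (u * χ) := by
      funext q
      show (c • u q) * χ q = c • (u q * χ q)
      rw [mul_comm, mul_sm, mul_comm]
    rw [h1]
    exact Submodule.smul_mem _ _ hu

private theorem pole_add {f f' : LaurentSeries F} {n : ℤ} (h1 : Pole f n) (h2 : Pole f' n) : Pole (f + f') n := by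
  intro i hi
  rw [HahnSeries.coeff_add, h1 i hi, h2 i hi, add_zero]

private theorem pole_smul {f : LaurentSeries F} {n : ℤ} (c : F) (h1 : Pole f n) : Pole (c • f) n := by
  intro i hi
  rw [HahnSeries.coeff_smul, h1 i hi, smul_zero]

private theorem pole_sub {f f' : LaurentSeries F} {n : ℤ} (h1 : Pole f n) (h2 : Pole f' n) : Pole (f - f') n := by
  intro i hi
  rw [HahnSeries.coeff_sub, h1 i hi, h2 i hi, sub_zero]

/-- the expansion of `π ^ n φ` -/
private theorem ex_pi {ρ : ℕ} {e : Fin ρ → (L →ₐ[k] LaurentSeries F)} (he : Es k O π e) (n : ℕ) (a : L) (q : Fin ρ) (i : ℤ) :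
    (e q (π ^ n * a)).coeff i = (e q a).coeff (i - n) := by
  have h1 : e q (π ^ n * a) = HahnSeries.single (n : ℤ) (1 : F) * e q a := by
    rw [map_mul, map_pow, he.pi q, HahnSeries.single_pow]
    simp
  rw [h1]
  have h2 := HahnSeries.coeff_single_mul_add (r := (1 : F)) (x := e q a) (a := i - n) (b := (n : ℤ))
  rw [sub_add_cancel, one_mul] at h2
  exact h2

theorem lb_pole (h : Pt k x O P g π s γ z) {ρ : ℕ} {e : Fin ρ → (L →ₐ[k] LaurentSeries F)} (he : Es k O π e) {n : ℕ}
    {ψ : Fin ρ → LaurentSeries F} (hψ : ψ ∈ Lb k x O π e n) (q : Fin ρ) : Pole (ψ q) n := by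
  unfold Lb at hψ
  refine Submodule.span_induction (p := fun ψ _ => Pole (ψ q) n) ?_ ?_ ?_ ?_ hψ
  · rintro _ ⟨a, ha, rfl⟩ i hi
    have h1 := (he.val q _).1 ha.2 (i + n) (by linarith)
    rw [ex_pi he, add_sub_cancel_right] at h1
    exact h1
  · intro i _
    rfl
  · intro u v _ _ hu hv
    exact pole_add hu hv
  · intro c u _ hu
    exact pole_smul c hu

theorem lb_ne (h : Pt k x O P g π s γ z) {ρ : ℕ} {e : Fin ρ → (L →ₐ[k] LaurentSeries F)} {n : ℕ}
    {ψ : Fin ρ → LaurentSeries F} (hψ : ψ ∈ Lb k x O π e n) (h0 : ψ ≠ 0) (q : Fin ρ) : ψ q ≠ 0 := by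
  intro hq
  obtain ⟨m, b, c, hb, -, hrep⟩ := rep e (lsm h n) hψ
  apply h0
  rw [hrep] at hq
  have h1 := ev0 e h.cl q hb hq
  rw [hrep]
  exact Finset.sum_eq_zero fun i _ => by rw [h1 i, zero_smul]

theorem lb_dim (h : Pt k x O P g π s γ z) {ρ : ℕ} (hρ : 0 < ρ) {e : Fin ρ → (L →ₐ[k] LaurentSeries F)} {m : ℕ}
    {φ : Fin m → L} (hφ : LinearIndependent k φ) : LinearIndependent F (fun i => fun q => e q (φ i)) := by
  rw [Fintype.linearIndependent_iff]
  intro c hc i
  refine ev0 e h.cl ⟨0, hρ⟩ hφ ?_ i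
  rw [hc]
  rfl

private theorem lb_step (h : Pt k x O P g π s γ z) {ρ : ℕ} {e : Fin ρ → (L →ₐ[k] LaurentSeries F)} (he : Es k O π e) {N : ℕ}
    {ψ : Fin ρ → LaurentSeries F} (hψ : ψ ∈ Lb k x O π e (N + 1)) (hn : ∀ q, Pole (ψ q) N) : ψ ∈ Lb k x O π e N := by
  obtain ⟨C', hC'⟩ := Submodule.exists_isCompl (lsm h N)
  have hle : lsm h N ≤ lsm h (N + 1) := ls_mono h (Nat.le_succ N)
  set C : Submodule k L := C' ⊓ lsm h (N + 1) with hC
  have hsup : lsm h (N + 1) ≤ lsm h N ⊔ C := by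
    intro y hy
    have h1 : y ∈ lsm h N ⊔ C' := by
      rw [hC'.sup_eq_top]
      exact Submodule.mem_top
    obtain ⟨a, ha, b, hb, rfl⟩ := Submodule.mem_sup.1 h1
    refine Submodule.mem_sup.2 ⟨a, ha, b, ⟨hb, ?_⟩, rfl⟩
    have h2 := (lsm h (N + 1)).sub_mem hy (hle ha)
    rwa [add_sub_cancel_left] at h2
  have hspan : ψ ∈ Submodule.span F ((fun φ : L => fun q => e q φ) '' (lsm h N : Set L)) ⊔
      Submodule.span F ((fun φ : L => fun q => e q φ) '' (C : Set L)) := by
    refine (Submodule.span_le.2 ?_ : Lb k x O π e (N + 1) ≤ _) hψ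
    rintro _ ⟨φ, hφ, rfl⟩
    obtain ⟨a, ha, b, hb, hab⟩ := Submodule.mem_sup.1 (hsup hφ)
    have h1 : (fun q => e q φ) = (fun q => e q a) + (fun q => e q b) := by
      funext q
      rw [← hab, map_add]
      rfl
    show (fun q => e q φ) ∈ _
    rw [h1]
    exact Submodule.add_mem_sup (Submodule.subset_span ⟨a, ha, rfl⟩) (Submodule.subset_span ⟨b, hb, rfl⟩)
  obtain ⟨ψ1, h1, ψ2, h2, h12⟩ := Submodule.mem_sup.1 hspan
  obtain ⟨m, b, c, hb, hbC, hrep⟩ := rep e C h2
  have hp1 : ∀ q, Pole (ψ1 q) N := fun q => lb_pole h he h1 q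
  have hp2 : ∀ q, Pole (ψ2 q) N := by
    intro q
    have h3 : ψ2 q = ψ q - ψ1 q := by
      rw [← h12]
      simp
    rw [h3]
    exact pole_sub (hn q) (hp1 q)
  have hc : c = 0 := by
    refine he.ind m (fun i => π ^ (N + 1) * b i) (fun i => (hbC i).2.2) ?_ c ?_
    · intro c' hc'
      have h3 : ∑ i, c' i • (π ^ (N + 1) * b i) = π ^ (N + 1) * ∑ i, c' i • b i := by
        rw [Finset.mul_sum]
        exact Finset.sum_congr rfl fun i _ => (mul_smul_comm _ _ _).symm
      rw [h3] at hc'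
      have h4 := h.unf _ hc'
      have h5 : π ^ (N + 1) * ∑ i, c' i • b i = π * (π ^ N * ∑ i, c' i • b i) := by ring
      rw [h5, mul_div_cancel_left₀ _ h.π0] at h4
      have h6 : ∑ i, c' i • b i ∈ C := Submodule.sum_mem _ fun i _ => Submodule.smul_mem _ _ (hbC i)
      have h7 : ∑ i, c' i • b i ∈ lsm h N := ⟨(h6.2 : _ ∈ lsm h (N + 1)).1, h4⟩
      have h8 : ∑ i, c' i • b i = 0 := by
        have h9 : ∑ i, c' i • b i ∈ lsm h N ⊓ C' := ⟨h7, h6.1⟩
        rw [hC'.inf_eq_bot] at h9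
        exact (Submodule.mem_bot k).1 h9
      funext i
      exact Fintype.linearIndependent_iff.1 hb c' h8 i
    · intro q
      have h3 := hp2 q (-((N : ℤ) + 1)) (by linarith)
      rw [hrep, Finset.sum_apply] at h3
      have h4 : (∑ i, (c i • (fun q => e q (b i))) q : LaurentSeries F).coeff (-((N : ℤ) + 1)) =
          ∑ i, c i * (e q (π ^ (N + 1) * b i)).coeff 0 := by
        rw [HahnSeries.coeff_sum]
        refine Finset.sum_congr rfl fun i _ => ?_
        rw [ex_pi he, zero_sub]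
        push_cast
        rfl
      rw [← h4]
      exact h3
  have hψ2 : ψ2 = 0 := by
    rw [hrep, hc]
    exact Finset.sum_eq_zero fun i _ => by rw [Pi.zero_apply, zero_smul]
  rw [← h12, hψ2, add_zero]
  exact h1

theorem lb_desc (h : Pt k x O P g π s γ z) {ρ : ℕ} {e : Fin ρ → (L →ₐ[k] LaurentSeries F)} (he : Es k O π e) {n N : ℕ}
    {ψ : Fin ρ → LaurentSeries F} (hψ : ψ ∈ Lb k x O π e N) (hn : ∀ q, Pole (ψ q) n) : ψ ∈ Lb k x O π e n := by
  rcases le_total N n with hNn | hNn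
  · exact Submodule.span_mono (Set.image_mono (ls_mono h hNn)) hψ
  obtain ⟨d, rfl⟩ := Nat.exists_eq_add_of_le hNn
  clear hNn
  induction d with
  | zero => exact hψ
  | succ d ih =>
    refine ih (lb_step h he hψ fun q i hi => hn q i ?_)
    push_cast at hi
    linarith

end Pool.Agent.H90.SF
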