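import Pool.Agent.H90.SF.Rts

/-! # [SF T4] The real root near `g'`

`P = ∏_j (X - al j)` over `F = algebraicClosure (Q0 H) AS` (monic: the leading coefficient is `cl 1 = 1`; `r` different roots, `Rt`). In `AS`: `P(g') = ∏_j (g' - al j) ∈ π^M VA ⊆ (VA H).nonunits` (`va_qs`: `V0 H` is the restriction of `VA H`; `M ≥ 1`). So `g' - al j ∈ (VA H).nonunits` for some `j`, and for the others `g' - al i` is a unit:
`al i - al j` is a nonzero element of `F`, it and its inverse are in `VA H` (`va_alg`). So `(g' - al j)/π^M ∈ VA H`. For the sequences: `‖gN N - aN N j‖ ≤ (H N + 2)^C |πN N|^M` for almost all `N`. The complex conjugate of `aN N j` is a root of `p N` (integer coefficients), and has the same distance to the rational number `gN N`. If it is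
different from `aN N j` it is `aN N i`, `i ≠ j`, with `‖gN N - aN N i‖ * (H N + 2)^C' ≤ 1` for all `C'` and almost all `N` (`va_non`): if for almost all `N` `aN N j` is not real, then for one fixed `i ≠ j` (finitely many `i`, ultrafilter) `g' - al i ∈ (VA H).nonunits`: contradiction. So `aN N j` is real for almost all `N`; `α N` = its real part. -/

namespace Pool.Agent.H90.SF

open Pool.Agent.H82.NS Pool.Agent.H8.OA Pool.Agent.H12.ON Pool.Agent.H12.OG Pool.Agent.H85.LK Pool.Agent.H87.SA2 Filter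

/-- the value of `p N` as a product over the roots -/
theorem ev_prod {H : ℕ → ℕ} {r : ℕ} {p : ℕ → Polynomial ℤ} {P : Polynomial (Q0 H)} (hP : PCl H r p P)
    {al : Fin r → algebraicClosure (Q0 H) AS} {aN : ℕ → Fin r → AA} (h : Rt H r p P al aN) (N : ℕ) (x : ℂ) :
    Polynomial.aeval x (p N) = ∏ j, (x - ((aN N j : AA) : ℂ)) := by
  classical
  have h0 : p N ≠ 0 := (hP.mon N).ne_zero
  have hirr : Irreducible ((p N).map (algebraMap ℤ ℚ)) :=
    ((hP.mon N).irreducible_iff_irreducible_map_fraction_map (K := ℚ)).1 (hP.irr N)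
  have hsep : ((p N).map (algebraMap ℤ ℂ)).Separable := by
    have h1 := (hirr.separable).map (f := algebraMap ℚ ℂ)
    rwa [Polynomial.map_map, ← IsScalarTower.algebraMap_eq] at h1
  have h1 : Polynomial.aeval x (p N) = Polynomial.eval x ((p N).map (algebraMap ℤ ℂ)) := by
    rw [Polynomial.eval_map, Polynomial.aeval_def]
  rw [h1, (IsAlgClosed.splits _).eval_eq_prod_roots_of_monic ((hP.mon N).map _)]
  have h2 : ((p N).map (algebraMap ℤ ℂ)).roots = (Finset.univ : Finset (Fin r)).val.map (fun j => ((aN N j : AA) : ℂ)) := by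
    refine (Multiset.Nodup.ext (Polynomial.nodup_roots hsep) ?_).2 fun β => ?_
    · exact Multiset.Nodup.map (fun i j hij => h.injN N (Subtype.ext hij)) Finset.univ.nodup
    · have h3 : β ∈ ((p N).map (algebraMap ℤ ℂ)).roots ↔ Polynomial.aeval β (p N) = 0 := by
        rw [Polynomial.mem_roots ((hP.mon N).map _).ne_zero, Polynomial.IsRoot.def, Polynomial.eval_map,
          Polynomial.aeval_def]
      rw [h3, Multiset.mem_map]
      constructor
      · intro h4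
        obtain ⟨j, hj⟩ := h.allN N β h4
        exact ⟨j, Finset.mem_univ_val j, hj⟩
      · rintro ⟨j, -, rfl⟩
        exact h.rtN N j
  rw [h2, Multiset.map_map]
  rfl

/-- separation of the roots -/
theorem rt_sep {H : ℕ → ℕ} {r : ℕ} {p : ℕ → Polynomial ℤ} {P : Polynomial (Q0 H)}
    {al : Fin r → algebraicClosure (Q0 H) AS} {aN : ℕ → Fin r → AA} (h : Rt H r p P al aN) :
    ∃ C : ℕ, ∀ᶠ N in UU, ∀ i j, i ≠ j →
      1 ≤ ‖((aN N i : AA) : ℂ) - ((aN N j : AA) : ℂ)‖ * ((H N : ℝ) + 2) ^ C := by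
  have h1 : ∀ t : Fin r × Fin r, ∃ C : ℕ, ∀ᶠ N in UU, t.1 ≠ t.2 →
      1 ≤ ‖((aN N t.1 : AA) : ℂ) - ((aN N t.2 : AA) : ℂ)‖ * ((H N : ℝ) + 2) ^ C := by
    rintro ⟨i, j⟩
    by_cases hij : i = j
    · exact ⟨0, Filter.Eventually.of_forall fun N hN => absurd hij hN⟩
    obtain ⟨f, C, hf, hb⟩ := va_alg H (al i - al j)⁻¹
    have h2 : (((al i - al j)⁻¹ : algebraicClosure (Q0 H) AS) : AS) = cl (fun N => (aN N i - aN N j)⁻¹) := by
      have h3 : (((al i - al j)⁻¹ : algebraicClosure (Q0 H) AS) : AS) =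
          (((al i : algebraicClosure (Q0 H) AS) : AS) - ((al j : algebraicClosure (Q0 H) AS) : AS))⁻¹ := rfl
      rw [h3, h.co i, h.co j, sub_eq_add_neg, cl_neg, cl_add, cl_inv]
      congr 1
    rw [h2] at hf
    refine ⟨C, ?_⟩
    filter_upwards [cl_eq.1 hf, hb] with N h3 h4 h5
    rw [← h3] at h4
    have h6 : (((aN N i - aN N j)⁻¹ : AA) : ℂ) = (((aN N i : AA) : ℂ) - ((aN N j : AA) : ℂ))⁻¹ := rfl
    rw [h6, norm_inv] at h4
    have h7 : 0 < ‖((aN N i : AA) : ℂ) - ((aN N j : AA) : ℂ)‖ := by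
      rw [norm_pos_iff, sub_ne_zero]
      intro h8
      exact h5 (h.injN N (Subtype.ext h8))
    rw [inv_le_iff_one_le_mul₀ h7, mul_comm] at h4
    exact h4
  choose C hC using h1
  refine ⟨∑ t, C t, ?_⟩
  filter_upwards [Filter.eventually_all.2 hC] with N h3
  intro i j hij
  refine (h3 (i, j) hij).trans (mul_le_mul_of_nonneg_left (pow_le_pow_right₀ ?_
    (Finset.single_le_sum (f := C) (fun _ _ => Nat.zero_le _) (Finset.mem_univ (i, j)))) (norm_nonneg _))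
  have : (0 : ℝ) ≤ (H N : ℝ) := Nat.cast_nonneg _
  linarith

theorem rea {H : ℕ → ℕ} {r : ℕ} {p : ℕ → Polynomial ℤ} {P : Polynomial (Q0 H)} (hP : PCl H r p P)
    {al : Fin r → algebraicClosure (Q0 H) AS} {aN : ℕ → Fin r → AA} (h : Rt H r p P al aN) {M : ℕ} (hM : 1 ≤ M)
    {gN πN : ℕ → ℚ} (hπ0 : (cl πN : QS) ≠ 0) (hπ : (cl πN : QS) ∈ (V0 H).nonunits)
    (hPg : Polynomial.aeval (cl gN : QS) P / (cl πN) ^ M ∈ V0 H) :
    ∃ (α : ℕ → ℝ) (C : ℕ), ∀ᶠ N in UU, Polynomial.aeval (α N) (p N) = 0 ∧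
      |(gN N : ℝ) - α N| ≤ ((H N : ℝ) + 2) ^ C * |(πN N : ℝ)| ^ M := by
  classical
  have hH2 : ∀ N, (2 : ℝ) ≤ (H N : ℝ) + 2 := fun N => by
    have : (0 : ℝ) ≤ (H N : ℝ) := Nat.cast_nonneg _
    linarith
  -- the value
  have hev : Polynomial.aeval (cl gN : QS) P = cl (fun N => Polynomial.aeval (gN N) (p N)) := by
    have h4 := aev_qs (H := H) (P := P) (q := p) (l := r) (fun N => (hP.deg N).le) (δ := fun _ => 1)
      (fun i => by
        have h5 : (cl (fun _ => (1 : ℚ)) : QS) = 1 := rfl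
        rw [h5, one_mul, hP.co i]) gN
    have h5 : (cl (fun _ => (1 : ℚ)) : QS) = 1 := rfl
    rwa [h5, one_mul] at h4
  have h1 : Polynomial.aeval (cl gN : QS) P / (cl πN) ^ M =
      cl (fun N => Polynomial.aeval (gN N) (p N) * (πN N ^ M)⁻¹) := by
    rw [hev, div_eq_mul_inv, ← cl_powf, cl_inv, cl_mul]
    rfl
  rw [h1, v0_iff] at hPg
  obtain ⟨C1, hC1⟩ := hPg
  obtain ⟨C2, hC2⟩ := rt_sep h
  have hπ' : ∀ᶠ N in UU, πN N ≠ 0 := by
    have h5 : ¬ ∀ᶠ N in UU, πN N = 0 := by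
      intro h5
      apply hπ0
      rw [cl_zero, cl_eq]
      exact h5
    exact Ultrafilter.eventually_not.2 h5
  -- the constants
  obtain ⟨C3, hC3⟩ : ∃ C3 : ℕ, C3 = C1 + (C2 + 1) * r := ⟨_, rfl⟩
  have hsm := v0_non.1 hπ (C3 + C2 + 2)
  have key : ∀ᶠ N in UU, ∃ α : ℝ, Polynomial.aeval α (p N) = 0 ∧
      |(gN N : ℝ) - α| ≤ ((H N : ℝ) + 2) ^ C3 * |(πN N : ℝ)| ^ M := by
    filter_upwards [hC1, hC2, hπ', hsm] with N k1 k2 k3 k4
    obtain ⟨Q, hQ⟩ : ∃ Q : ℝ, Q = (H N : ℝ) + 2 := ⟨_, rfl⟩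
    have hQ2 : 2 ≤ Q := hQ ▸ hH2 N
    have hQ0 : 0 < Q := by linarith
    have hQ1 : 1 ≤ Q := by linarith
    rw [← hQ] at k1 k2 k4 ⊢
    have hπp : 0 < |(πN N : ℝ)| := abs_pos.2 (Rat.cast_ne_zero.2 k3)
    have hval : ∏ j, ‖((gN N : ℝ) : ℂ) - ((aN N j : AA) : ℂ)‖ ≤ Q ^ C1 * |(πN N : ℝ)| ^ M := by
      rw [← norm_prod, ← ev_prod hP h N]
      have h6 : Polynomial.aeval (((gN N : ℝ) : ℂ)) (p N) = (((Polynomial.aeval (gN N) (p N) : ℚ) : ℝ) : ℂ) := by
        have h7 := Polynomial.aeval_algebraMap_apply ℂ (gN N) (p N)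
        have h8 : ((gN N : ℝ) : ℂ) = algebraMap ℚ ℂ (gN N) := by simp
        rw [h8, h7]
        simp
      rw [h6, Complex.norm_real, Real.norm_eq_abs]
      rw [Rat.cast_mul, abs_mul, Rat.cast_inv, Rat.cast_pow, abs_inv, abs_pow] at k1
      rwa [← div_eq_mul_inv, div_le_iff₀ (pow_pos hπp _)] at k1
    by_cases hr : r = 0
    · exfalso
      subst hr
      have h7 := hP.irr N
      have h8 : p N = 1 := (hP.mon N).natDegree_eq_zero.1 (hP.deg N)
      rw [h8] at h7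
      exact not_irreducible_one h7
    have hne : (Finset.univ : Finset (Fin r)).Nonempty := ⟨⟨0, Nat.pos_of_ne_zero hr⟩, Finset.mem_univ _⟩
    obtain ⟨j, -, hj⟩ := Finset.exists_min_image Finset.univ
      (fun j => ‖((gN N : ℝ) : ℂ) - ((aN N j : AA) : ℂ)‖) hne
    have hfar : ∀ i, i ≠ j → 1 ≤ ‖((gN N : ℝ) : ℂ) - ((aN N i : AA) : ℂ)‖ * Q ^ (C2 + 1) := by
      intro i hij
      have h7 := k2 i j hij
      have h8 := hj i (Finset.mem_univ i)
      have h9 : ‖((aN N i : AA) : ℂ) - ((aN N j : AA) : ℂ)‖ ≤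
          ‖((gN N : ℝ) : ℂ) - ((aN N i : AA) : ℂ)‖ + ‖((gN N : ℝ) : ℂ) - ((aN N j : AA) : ℂ)‖ := by
        have h10 : ((aN N i : AA) : ℂ) - ((aN N j : AA) : ℂ) =
          -(((gN N : ℝ) : ℂ) - ((aN N i : AA) : ℂ)) + (((gN N : ℝ) : ℂ) - ((aN N j : AA) : ℂ)) := by ring
        rw [h10]
        refine (norm_add_le _ _).trans ?_
        rw [norm_neg]
      have h10 : (0 : ℝ) < Q ^ C2 := by positivity
      rw [pow_succ]
      have h11 : 0 ≤ ‖((gN N : ℝ) : ℂ) - ((aN N i : AA) : ℂ)‖ := norm_nonneg _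
      calc 1 ≤ ‖((aN N i : AA) : ℂ) - ((aN N j : AA) : ℂ)‖ * Q ^ C2 := h7
        _ ≤ (‖((gN N : ℝ) : ℂ) - ((aN N i : AA) : ℂ)‖ + ‖((gN N : ℝ) : ℂ) - ((aN N i : AA) : ℂ)‖) * Q ^ C2 :=
          mul_le_mul_of_nonneg_right (h9.trans (add_le_add le_rfl h8)) h10.le
        _ = ‖((gN N : ℝ) : ℂ) - ((aN N i : AA) : ℂ)‖ * (Q ^ C2 * 2) := by ring
        _ ≤ _ := mul_le_mul_of_nonneg_left (mul_le_mul_of_nonneg_left hQ2 h10.le) h11
    -- the distance to the nearest root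
    have hnear : ‖((gN N : ℝ) : ℂ) - ((aN N j : AA) : ℂ)‖ ≤ Q ^ C3 * |(πN N : ℝ)| ^ M := by
      have h7 : 1 ≤ ∏ i ∈ Finset.univ.erase j, (‖((gN N : ℝ) : ℂ) - ((aN N i : AA) : ℂ)‖ * Q ^ (C2 + 1)) := by
        have h8 : ∏ i ∈ Finset.univ.erase j, (1 : ℝ) ≤
            ∏ i ∈ Finset.univ.erase j, (‖((gN N : ℝ) : ℂ) - ((aN N i : AA) : ℂ)‖ * Q ^ (C2 + 1)) :=
          Finset.prod_le_prod (fun _ _ => zero_le_one) fun i hi => hfar i (Finset.ne_of_mem_erase hi)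
        rwa [Finset.prod_const_one] at h8
      rw [Finset.prod_mul_distrib, Finset.prod_const, ← pow_mul] at h7
      have h8 : (Q : ℝ) ^ ((C2 + 1) * (Finset.univ.erase j).card) ≤ Q ^ ((C2 + 1) * r) := by
        apply pow_le_pow_right₀ hQ1
        apply Nat.mul_le_mul_left
        have h9 := Finset.card_le_univ (Finset.univ.erase j)
        rwa [Fintype.card_fin] at h9
      have h9 : 0 ≤ ∏ i ∈ Finset.univ.erase j, ‖((gN N : ℝ) : ℂ) - ((aN N i : AA) : ℂ)‖ :=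
        Finset.prod_nonneg fun _ _ => norm_nonneg _
      rw [← Finset.mul_prod_erase _ _ (Finset.mem_univ j)] at hval
      have h10 : 0 ≤ ‖((gN N : ℝ) : ℂ) - ((aN N j : AA) : ℂ)‖ := norm_nonneg _
      calc ‖((gN N : ℝ) : ℂ) - ((aN N j : AA) : ℂ)‖
          ≤ ‖((gN N : ℝ) : ℂ) - ((aN N j : AA) : ℂ)‖ *
            ((∏ i ∈ Finset.univ.erase j, ‖((gN N : ℝ) : ℂ) - ((aN N i : AA) : ℂ)‖) * Q ^ ((C2 + 1) * r)) :=
            le_mul_of_one_le_right h10 (h7.trans (mul_le_mul_of_nonneg_left h8 h9))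
        _ = (‖((gN N : ℝ) : ℂ) - ((aN N j : AA) : ℂ)‖ *
            ∏ i ∈ Finset.univ.erase j, ‖((gN N : ℝ) : ℂ) - ((aN N i : AA) : ℂ)‖) * Q ^ ((C2 + 1) * r) := by ring
        _ ≤ (Q ^ C1 * |(πN N : ℝ)| ^ M) * Q ^ ((C2 + 1) * r) := mul_le_mul_of_nonneg_right hval (by positivity)
        _ = Q ^ C3 * |(πN N : ℝ)| ^ M := by rw [hC3, pow_add]; ring
    -- the nearest root is real
    have hpi1 : |(πN N : ℝ)| ≤ 1 := by
      have h7 : (1 : ℝ) ≤ Q ^ (C3 + C2 + 2) := one_le_pow₀ hQ1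
      nlinarith
    have hcon : (starRingEnd ℂ) ((aN N j : AA) : ℂ) = ((aN N j : AA) : ℂ) := by
      have h7 : Polynomial.aeval ((starRingEnd ℂ) ((aN N j : AA) : ℂ)) (p N) = 0 := by
        have h8 := congrArg (starRingEnd ℂ) (h.rtN N j)
        rw [map_zero, Polynomial.aeval_def, Polynomial.hom_eval₂] at h8
        rw [Polynomial.aeval_def]
        have h9 : (starRingEnd ℂ).comp (algebraMap ℤ ℂ) = algebraMap ℤ ℂ := RingHom.ext_int _ _
        rwa [h9] at h8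
      obtain ⟨i, hi⟩ := h.allN N _ h7
      by_contra hne'
      have hij : i ≠ j := by
        intro h8
        rw [h8] at hi
        exact hne' hi.symm
      have h8 : ‖((gN N : ℝ) : ℂ) - ((aN N i : AA) : ℂ)‖ = ‖((gN N : ℝ) : ℂ) - ((aN N j : AA) : ℂ)‖ := by
        rw [hi, ← Complex.norm_conj, map_sub, Complex.conj_conj, Complex.conj_ofReal]
      have h9 := hfar i hij
      rw [h8] at h9
      have h10 : |(πN N : ℝ)| ^ M ≤ |(πN N : ℝ)| := by
        calc |(πN N : ℝ)| ^ M ≤ |(πN N : ℝ)| ^ 1 := pow_le_pow_of_le_one hπp.le hpi1 hM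
          _ = _ := pow_one _
      have h11 : ‖((gN N : ℝ) : ℂ) - ((aN N j : AA) : ℂ)‖ * Q ^ (C2 + 1) ≤
          |(πN N : ℝ)| * Q ^ (C3 + C2 + 1) := by
        calc ‖((gN N : ℝ) : ℂ) - ((aN N j : AA) : ℂ)‖ * Q ^ (C2 + 1)
            ≤ (Q ^ C3 * |(πN N : ℝ)|) * Q ^ (C2 + 1) :=
              mul_le_mul_of_nonneg_right (hnear.trans (mul_le_mul_of_nonneg_left h10 (by positivity))) (by positivity)
          _ = |(πN N : ℝ)| * Q ^ (C3 + C2 + 1) := by
            rw [show C3 + C2 + 1 = C3 + (C2 + 1) by ring, pow_add]; ring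
      have h12 : |(πN N : ℝ)| * Q ^ (C3 + C2 + 2) = (|(πN N : ℝ)| * Q ^ (C3 + C2 + 1)) * Q := by
        rw [show C3 + C2 + 2 = (C3 + C2 + 1) + 1 by ring, pow_succ]; ring
      rw [h12] at k4
      have h13 : 1 ≤ |(πN N : ℝ)| * Q ^ (C3 + C2 + 1) := h9.trans h11
      nlinarith
    obtain ⟨α, hα⟩ := Complex.conj_eq_iff_real.1 hcon
    refine ⟨α, ?_, ?_⟩
    · have h7 := h.rtN N j
      rw [hα] at h7
      have h8 := Polynomial.aeval_algebraMap_apply ℂ α (p N)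
      have h9 : algebraMap ℝ ℂ α = (α : ℂ) := rfl
      rw [h9, h7] at h8
      exact (map_eq_zero (algebraMap ℝ ℂ)).1 h8.symm
    · rw [hα, ← Complex.ofReal_sub, Complex.norm_real, Real.norm_eq_abs] at hnear
      exact hnear
  have h2 : ∃ α : ℕ → ℝ, ∀ᶠ N in UU, Polynomial.aeval (α N) (p N) = 0 ∧
      |(gN N : ℝ) - α N| ≤ ((H N : ℝ) + 2) ^ C3 * |(πN N : ℝ)| ^ M := by
    refine ⟨fun N => if hN : ∃ α : ℝ, Polynomial.aeval α (p N) = 0 ∧
      |(gN N : ℝ) - α| ≤ ((H N : ℝ) + 2) ^ C3 * |(πN N : ℝ)| ^ M then hN.choose else 0, ?_⟩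
    filter_upwards [key] with N hN
    rw [dif_pos hN]
    exact hN.choose_spec
  obtain ⟨α, hα⟩ := h2
  exact ⟨α, C3, hα⟩

end Pool.Agent.H90.SF
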