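import Pool.Agent.H90.SF.Aev
import Pool.Agent.H87.SA2.TWR

/-! # [SF T2] The roots

For every `N`: `p N` is monic and irreducible over `ℤ`, so irreducible over `ℚ` (`Polynomial.Monic.irreducible_iff_irreducible_map_fraction_map`), separable, with `r` different roots in `ℂ`, all of them algebraic: in `AA` (`mem_AA`, H87/SA2/TWR.lean, or directly). Enumerate them: `aN N : Fin r → AA`
(choose a bijection for every `N`). `al j = cl (fun N => aN N j) ∈ AS` is a root of `P` (`P.coeff i = cl ..`, a finite sum of classes; `algebraMap` of `cl` is `map_cl`), `P ≠ 0` (`natDegree = r`, the leading coefficient is `cl 1`), so it is in `algebraicClosure (Q0 H) AS`. Injective: if `al i = al j` then `aN N i = aN N j` for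
almost all `N`, impossible. -/

namespace Pool.Agent.H90.SF

open Pool.Agent.H82.NS Pool.Agent.H8.OA Pool.Agent.H12.ON Pool.Agent.H12.OG Pool.Agent.H85.LK Pool.Agent.H87.SA2 Filter

/-- the roots of `p N` and of the class `P` -/
structure Rt (H : ℕ → ℕ) (r : ℕ) (p : ℕ → Polynomial ℤ) (P : Polynomial (Q0 H))
    (al : Fin r → algebraicClosure (Q0 H) AS) (aN : ℕ → Fin r → AA) : Prop where
  inj : Function.Injective al
  rt : ∀ j, Polynomial.aeval (al j) P = 0
  co : ∀ j, ((al j : algebraicClosure (Q0 H) AS) : AS) = cl (fun N => aN N j)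
  injN : ∀ N, Function.Injective (aN N)
  rtN : ∀ N j, Polynomial.aeval ((aN N j : AA) : ℂ) (p N) = 0
  allN : ∀ N (β : ℂ), Polynomial.aeval β (p N) = 0 → ∃ j, ((aN N j : AA) : ℂ) = β

theorem rts {H : ℕ → ℕ} {r : ℕ} {p : ℕ → Polynomial ℤ} {P : Polynomial (Q0 H)} (hP : PCl H r p P) :
    ∃ (al : Fin r → algebraicClosure (Q0 H) AS) (aN : ℕ → Fin r → AA), Rt H r p P al aN := by
  classical
  have hinj : Function.Injective (algebraMap ℤ ℂ) := (algebraMap ℤ ℂ).injective_int
  -- the roots at one index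
  have key : ∀ N, ∃ a : Fin r → AA, Function.Injective a ∧ (∀ j, Polynomial.aeval ((a j : AA) : ℂ) (p N) = 0) ∧
      ∀ β : ℂ, Polynomial.aeval β (p N) = 0 → ∃ j, ((a j : AA) : ℂ) = β := by
    intro N
    have h0 : p N ≠ 0 := (hP.mon N).ne_zero
    have hirr : Irreducible ((p N).map (algebraMap ℤ ℚ)) :=
      ((hP.mon N).irreducible_iff_irreducible_map_fraction_map (K := ℚ)).1 (hP.irr N)
    have hsep : ((p N).map (algebraMap ℤ ℂ)).Separable := by
      have h1 := (hirr.separable).map (f := algebraMap ℚ ℂ)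
      rwa [Polynomial.map_map, ← IsScalarTower.algebraMap_eq] at h1
    have hcard : ((p N).aroots ℂ).toFinset.card = r := by
      rw [Multiset.toFinset_card_of_nodup (Polynomial.nodup_roots hsep)]
      have h1 : ((p N).aroots ℂ).card = (p N).natDegree := IsAlgClosed.card_aroots_eq_natDegree
      exact h1.trans (hP.deg N)
    have hmem : ∀ β : ℂ, β ∈ ((p N).aroots ℂ).toFinset ↔ Polynomial.aeval β (p N) = 0 := by
      intro β
      rw [Multiset.mem_toFinset, Polynomial.mem_aroots]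
      exact ⟨fun h => h.2, fun h => ⟨h0, h⟩⟩
    obtain ⟨e, -⟩ : ∃ e : ((p N).aroots ℂ).toFinset ≃ Fin r, True := ⟨Finset.equivFinOfCardEq hcard, trivial⟩
    have hAA : ∀ j, ((e.symm j : ((p N).aroots ℂ).toFinset) : ℂ) ∈ AA := by
      intro j
      apply mem_AA
      exact ⟨p N, hP.mon N, (hmem _).1 (e.symm j).2⟩
    refine ⟨fun j => ⟨_, hAA j⟩, fun i j hij => ?_, fun j => (hmem _).1 (e.symm j).2, fun β hβ => ?_⟩
    · have h1 := congrArg Subtype.val hij
      exact e.symm.injective (Subtype.ext h1)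
    · refine ⟨e ⟨β, (hmem β).2 hβ⟩, ?_⟩
      show ((e.symm (e _) : ((p N).aroots ℂ).toFinset) : ℂ) = β
      rw [Equiv.symm_apply_apply]
  choose a h1 h2 h3 using key
  have hrt : ∀ j, Polynomial.aeval (cl (fun N => a N j) : AS) P = 0 := by
    intro j
    have h4 := aev_as (H := H) (P := P) (q := p) (l := r) (fun N => (hP.deg N).le) (δ := fun _ => 1)
      (fun i => by
        have h5 : (cl (fun _ => (1 : ℚ)) : QS) = 1 := rfl
        rw [h5, one_mul, hP.co i]) (fun N => a N j)
    have h5 : (cl (fun _ => (1 : ℚ)) : QS) = 1 := rfl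
    rw [h5, map_one, one_mul] at h4
    rw [h4, cl_zero]
    congr 1
    funext N
    apply Subtype.ext
    have h6 := h2 N j
    have h7 : ((Polynomial.aeval (a N j) (p N) : AA) : ℂ) = Polynomial.aeval ((a N j : AA) : ℂ) (p N) := by
      have h8 := Polynomial.aeval_algebraMap_apply ℂ (a N j) (p N)
      exact h8.symm
    rw [h7, h6]
    rfl
  have hP0 : P ≠ 0 := by
    intro h
    have h4 := hP.co r
    rw [h, Polynomial.coeff_zero] at h4
    have h5 : (cl (fun N => ((p N).coeff r : ℚ)) : QS) = 1 := by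
      have : (fun N => ((p N).coeff r : ℚ)) = fun _ => 1 := by
        funext N
        have h6 := (hP.mon N).coeff_natDegree
        rw [hP.deg N] at h6
        rw [h6, Int.cast_one]
      rw [this]
      rfl
    rw [h5] at h4
    exact zero_ne_one h4
  refine ⟨fun j => ⟨cl (fun N => a N j), mem_algebraicClosure_iff.2 ⟨P, hP0, hrt j⟩⟩, a, ⟨fun i j hij => ?_, fun j => ?_,
    fun j => rfl, h1, h2, h3⟩⟩
  · have h4 := congrArg Subtype.val hij
    obtain ⟨N, hN⟩ := (cl_eq.1 h4).exists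
    exact h1 N hN
  · apply Subtype.ext
    have h8 := Polynomial.aeval_algebraMap_apply AS
      (⟨cl (fun N => a N j), mem_algebraicClosure_iff.2 ⟨P, hP0, hrt j⟩⟩ : algebraicClosure (Q0 H) AS) P
    exact h8.symm.trans (hrt j)

/-- the roots are bounded: `‖aN N j‖ ≤ (H N + 2)^C` (`va_alg`, or the root bound) -/
theorem rt_bd {H : ℕ → ℕ} {r : ℕ} {p : ℕ → Polynomial ℤ} {P : Polynomial (Q0 H)}
    {al : Fin r → algebraicClosure (Q0 H) AS} {aN : ℕ → Fin r → AA} (h : Rt H r p P al aN) :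
    ∃ C : ℕ, ∀ᶠ N in UU, ∀ j, ‖((aN N j : AA) : ℂ)‖ ≤ ((H N : ℝ) + 2) ^ C := by
  have h1 : ∀ j, ∃ C : ℕ, ∀ᶠ N in UU, ‖((aN N j : AA) : ℂ)‖ ≤ ((H N : ℝ) + 2) ^ C := by
    intro j
    obtain ⟨f, C, hf, hb⟩ := va_alg H (al j)
    rw [h.co j] at hf
    refine ⟨C, ?_⟩
    filter_upwards [cl_eq.1 hf, hb] with N h2 h3
    rw [h2]
    exact h3
  choose C hC using h1
  refine ⟨∑ j, C j, ?_⟩
  have h2 := Filter.eventually_all.2 hC
  filter_upwards [h2] with N h3
  intro j
  refine (h3 j).trans (pow_le_pow_right₀ ?_ (Finset.single_le_sum (f := C) (fun _ _ => Nat.zero_le _) (Finset.mem_univ j)))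
  have : (0 : ℝ) ≤ (H N : ℝ) := Nat.cast_nonneg _
  linarith

end Pool.Agent.H90.SF
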