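import Pool.Agent.H90.SF.Rts

/-! # [SF T3] Transfer of the surjectivity onto the jets

`F = algebraicClosure (Q0 H) AS`. Let `δ`, `bN` be as in `den_poly`: `aeval (al j) (b l i u)` times `cl δ` is the class of `aeval (aN N j) (bN N (l,i,u))`. For one set `J` of roots and the levels `u < U`: for each of the finitely many unit targets `(j₀,i₀,u₀)`
there is `w : Fin m → F`, `w l = cl (wN l)` in `AS`, with `∑ l, w l * aeval (al j) (b l i u) = [(j,i,u) = (j₀,i₀,u₀)]` for `j ∈ J`, `u < U`: multiply by `cl δ`: for almost all `N`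
`∑ l, wN l N * aeval (aN N j) (bN N (l,i,u)) = δ N [(j,i,u) = (j₀,i₀,u₀)]`. `δ N ≥ 1`: divide. General targets: linear combination. -/

namespace Pool.Agent.H90.SF

open Pool.Agent.H82.NS Pool.Agent.H8.OA Pool.Agent.H12.ON Pool.Agent.H12.OG Pool.Agent.H85.LK Pool.Agent.H87.SA2 Filter

theorem tsj {H : ℕ → ℕ} {r : ℕ} {p : ℕ → Polynomial ℤ} {P : Polynomial (Q0 H)}
    {al : Fin r → algebraicClosure (Q0 H) AS} {aN : ℕ → Fin r → AA} (h : Rt H r p P al aN) {s M m : ℕ}
    {b : Fin m → Fin s → Fin M → Polynomial (Q0 H)} {J : Finset (Fin r)} {U : ℕ}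
    (hS : ∀ c : Fin r → Fin s → Fin M → algebraicClosure (Q0 H) AS, ∃ w : Fin m → algebraicClosure (Q0 H) AS,
      ∀ j ∈ J, ∀ (i : Fin s) (u : Fin M), (u : ℕ) < U → ∑ l, w l * Polynomial.aeval (al j) (b l i u) = c j i u)
    {δ : ℕ → ℤ} {bN : ℕ → (Fin m × Fin s × Fin M) → Polynomial ℤ} {l₀ : ℕ} (hδ : ∀ N, 1 ≤ δ N)
    (hl : ∀ N i, (bN N i).natDegree ≤ l₀)
    (hb : ∀ t : Fin m × Fin s × Fin M, ∀ j, (cl (fun N => ((bN N t).coeff j : ℚ)) : QS) =
      cl (fun N => (δ N : ℚ)) * (((b t.1 t.2.1 t.2.2).coeff j : Q0 H) : QS)) :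
    ∀ᶠ N in UU, ∀ t : Fin r → Fin s → Fin M → ℂ, ∃ v : Fin m → ℂ, ∀ j ∈ J, ∀ (i : Fin s) (u : Fin M), (u : ℕ) < U →
      ∑ l, v l * Polynomial.aeval ((aN N j : AA) : ℂ) (bN N (l, i, u)) = t j i u := by
  classical
  -- the unit targets
  have key : ∀ x : Fin r × Fin s × Fin M, ∀ᶠ N in UU, ∃ v : Fin m → ℂ, ∀ j ∈ J, ∀ (i : Fin s) (u : Fin M), (u : ℕ) < U →
      ∑ l, v l * Polynomial.aeval ((aN N j : AA) : ℂ) (bN N (l, i, u)) = if (j, i, u) = x then 1 else 0 := by
    intro x
    obtain ⟨w, hw⟩ := hS (fun j i u => if (j, i, u) = x then 1 else 0)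
    choose f hf using fun l => cl_surj ((w l : algebraicClosure (Q0 H) AS) : AS)
    have h1 : ∀ y : Fin r × Fin s × Fin M, ∀ᶠ N in UU, y.1 ∈ J → (y.2.2 : ℕ) < U →
        ∑ l, f l N * Polynomial.aeval (aN N y.1) (bN N (l, y.2.1, y.2.2)) =
          ((δ N : ℤ) : AA) * (if y = x then 1 else 0) := by
      rintro ⟨j, i, u⟩
      by_cases hj : j ∈ J
      swap
      · exact Filter.Eventually.of_forall fun N h2 => absurd h2 hj
      by_cases hu : (u : ℕ) < U
      swap
      · exact Filter.Eventually.of_forall fun N _ h2 => absurd h2 hu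
      have h2 := congrArg (fun z : algebraicClosure (Q0 H) AS => (z : AS)) (hw j hj i u hu)
      have h3 : ∀ l, algebraMap QS AS (cl (fun N => (δ N : ℚ))) *
          ((Polynomial.aeval (al j) (b l i u) : algebraicClosure (Q0 H) AS) : AS) =
          cl (fun N => Polynomial.aeval (aN N j) (bN N (l, i, u))) := by
        intro l
        have h4 := aev_as (H := H) (P := b l i u) (q := fun N => bN N (l, i, u)) (l := l₀) (fun N => hl N _)
          (δ := fun N => (δ N : ℚ)) (hb (l, i, u)) (fun N => aN N j)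
        rw [← h4, ← h.co j]
        congr 1
        exact (Polynomial.aeval_algebraMap_apply AS (al j) (b l i u)).symm
      have h5 : (∑ l, cl (f l) * cl (fun N => Polynomial.aeval (aN N j) (bN N (l, i, u))) : AS) =
          algebraMap QS AS (cl (fun N => (δ N : ℚ))) * (if (j, i, u) = x then 1 else 0) := by
        have h6 : (((∑ l, w l * Polynomial.aeval (al j) (b l i u) : algebraicClosure (Q0 H) AS)) : AS) =
            ∑ l, cl (f l) * ((Polynomial.aeval (al j) (b l i u) : algebraicClosure (Q0 H) AS) : AS) := by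
          rw [IntermediateField.coe_sum]
          refine Finset.sum_congr rfl fun l _ => ?_
          rw [← hf l]
          rfl
        have h7 : ((((if (j, i, u) = x then 1 else 0 : algebraicClosure (Q0 H) AS))) : AS) =
            if (j, i, u) = x then 1 else 0 := by
          split_ifs <;> rfl
        rw [← h7, ← h2, h6, Finset.mul_sum]
        refine Finset.sum_congr rfl fun l _ => ?_
        rw [← h3 l]
        ring
      have h8 : (cl (∑ l, (f l) * (fun N => Polynomial.aeval (aN N j) (bN N (l, i, u)))) : AS) =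
          cl (fun N => ((δ N : ℤ) : AA) * (if (j, i, u) = x then 1 else 0)) := by
        rw [cl_sumf]
        simp only [cl_mulf]
        rw [h5, map_cl]
        have h9 : (fun N => algebraMap ℚ AA ((δ N : ℤ) : ℚ)) = fun N => ((δ N : ℤ) : AA) := by
          funext N
          rw [map_intCast]
        rw [h9]
        split_ifs
        · simp only [mul_one]
        · simp only [mul_zero]
          rfl
      filter_upwards [cl_eq.1 h8] with N h9 _ _
      rw [← h9, Finset.sum_apply]
      rfl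
    filter_upwards [Filter.eventually_all.2 h1] with N h2
    refine ⟨fun l => ((f l N : AA) : ℂ) / (δ N : ℂ), fun j hj i u hu => ?_⟩
    have hδ0 : (δ N : ℂ) ≠ 0 := by
      have := hδ N
      exact_mod_cast (by omega : δ N ≠ 0)
    have h3 := congrArg (fun z : AA => (z : ℂ)) (h2 (j, i, u) hj hu)
    dsimp only at h3
    rw [IntermediateField.coe_sum] at h3
    have h4 : ∀ l, ((f l N * Polynomial.aeval (aN N j) (bN N (l, i, u)) : AA) : ℂ) =
        ((f l N : AA) : ℂ) * Polynomial.aeval ((aN N j : AA) : ℂ) (bN N (l, i, u)) := by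
      intro l
      have h5 := Polynomial.aeval_algebraMap_apply ℂ (aN N j) (bN N (l, i, u))
      have h6 : algebraMap AA ℂ (aN N j) = ((aN N j : AA) : ℂ) := rfl
      rw [h6] at h5
      rw [h5]
      rfl
    simp only [h4] at h3
    have h5 : ∑ l, ((f l N : AA) : ℂ) / (δ N : ℂ) * Polynomial.aeval ((aN N j : AA) : ℂ) (bN N (l, i, u)) =
        (∑ l, ((f l N : AA) : ℂ) * Polynomial.aeval ((aN N j : AA) : ℂ) (bN N (l, i, u))) / (δ N : ℂ) := by
      rw [Finset.sum_div]
      exact Finset.sum_congr rfl fun l _ => by ring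
    rw [h5, h3]
    have h6 : ((((δ N : ℤ) : AA) * (if (j, i, u) = x then 1 else 0) : AA) : ℂ) =
        (δ N : ℂ) * (if (j, i, u) = x then 1 else 0) := by
      split_ifs <;> simp
    rw [h6, mul_div_cancel_left₀ _ hδ0]
  filter_upwards [Filter.eventually_all.2 key] with N h1 t
  choose v hv using h1
  refine ⟨fun l => ∑ x, t x.1 x.2.1 x.2.2 * v x l, fun j hj i u hu => ?_⟩
  have h2 : ∑ l, (∑ x, t x.1 x.2.1 x.2.2 * v x l) * Polynomial.aeval ((aN N j : AA) : ℂ) (bN N (l, i, u)) =
      ∑ x : Fin r × Fin s × Fin M, t x.1 x.2.1 x.2.2 *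
        ∑ l, v x l * Polynomial.aeval ((aN N j : AA) : ℂ) (bN N (l, i, u)) := by
    simp only [Finset.sum_mul, Finset.mul_sum]
    rw [Finset.sum_comm]
    exact Finset.sum_congr rfl fun x _ => Finset.sum_congr rfl fun l _ => by ring
  rw [h2]
  simp only [hv _ j hj i u hu]
  rw [Finset.sum_eq_single (j, i, u)]
  · rw [if_pos rfl, mul_one]
  · intro x _ hx
    rw [if_neg (Ne.symm hx), mul_zero]
  · intro h3
    exact absurd (Finset.mem_univ _) h3

end Pool.Agent.H90.SF
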