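import Pool.Agent.H90.SF.Den
import Pool.Agent.H90.SF.Tsj
import Pool.Agent.H90.SF.Rea

/-! # [SF T5] From the expansions in the nonstandard frame to the numerical data `Dat` for almost all `N` -/

namespace Pool.Agent.H90.SF

open Pool.Agent.H82.NS Pool.Agent.H8.OA Pool.Agent.H12.ON Pool.Agent.H12.OG Pool.Agent.H85.LK Pool.Agent.H87.SA2 Filter

/-- Lipschitz bound for a polynomial with bounded coefficients -/
theorem poly_lip {b : Polynomial ℤ} {l : ℕ} (hl : b.natDegree ≤ l) {c R x y : ℝ} (hc : ∀ j, |((b.coeff j : ℤ) : ℝ)| ≤ c)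
    (hR : 1 ≤ R) (hx : |x| ≤ R) (hy : |y| ≤ R) :
    |Polynomial.aeval x b - Polynomial.aeval y b| ≤ ((l + 1 : ℕ) : ℝ) * (c * ((l : ℝ) * R ^ l)) * |x - y| := by
  have hc0 : 0 ≤ c := (abs_nonneg _).trans (hc 0)
  have h1 : b.natDegree < l + 1 := by omega
  rw [Polynomial.aeval_eq_sum_range' h1, Polynomial.aeval_eq_sum_range' h1, ← Finset.sum_sub_distrib]
  have h2 : ∀ j ∈ Finset.range (l + 1), |b.coeff j • x ^ j - b.coeff j • y ^ j| ≤ c * ((l : ℝ) * R ^ l) * |x - y| := by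
    intro j hj
    have hjl : j ≤ l := Nat.lt_succ_iff.1 (Finset.mem_range.1 hj)
    rw [zsmul_eq_mul, zsmul_eq_mul, ← mul_sub, abs_mul, mul_assoc]
    refine mul_le_mul (hc j) ?_ (abs_nonneg _) hc0
    refine (abs_pow_sub_pow_le _ _ _).trans ?_
    have h3 : max |x| |y| ^ (j - 1) ≤ R ^ l := by
      calc max |x| |y| ^ (j - 1) ≤ R ^ (j - 1) := pow_le_pow_left₀ (le_max_of_le_left (abs_nonneg _)) (max_le hx hy) _
        _ ≤ R ^ l := pow_le_pow_right₀ hR (by omega)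
    have h4 : (j : ℝ) ≤ l := by exact_mod_cast hjl
    have h5 : 0 ≤ max |x| |y| ^ (j - 1) := pow_nonneg (le_max_of_le_left (abs_nonneg _)) _
    calc |x - y| * j * max |x| |y| ^ (j - 1) = (j * max |x| |y| ^ (j - 1)) * |x - y| := by ring
      _ ≤ (l * R ^ l) * |x - y| :=
        mul_le_mul_of_nonneg_right (mul_le_mul h4 h3 h5 (by positivity)) (abs_nonneg _)
  refine (Finset.abs_sum_le_sum_abs _ _).trans ((Finset.sum_le_sum h2).trans ?_)
  rw [Finset.sum_const, Finset.card_range, nsmul_eq_mul]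
  apply le_of_eq
  ring

/-- bound for the values of a polynomial with bounded coefficients -/
theorem poly_bd {b : Polynomial ℤ} {l : ℕ} (hl : b.natDegree ≤ l) {c R : ℝ} {β : ℂ}
    (hc : ∀ j, |((b.coeff j : ℤ) : ℝ)| ≤ c) (hR : 1 ≤ R) (hβ : ‖β‖ ≤ R) :
    ‖Polynomial.aeval β b‖ ≤ ((l + 1 : ℕ) : ℝ) * (c * R ^ l) := by
  have hc0 : 0 ≤ c := (abs_nonneg _).trans (hc 0)
  have h1 : b.natDegree < l + 1 := by omega
  rw [Polynomial.aeval_eq_sum_range' h1]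
  have h2 : ∀ j ∈ Finset.range (l + 1), ‖b.coeff j • β ^ j‖ ≤ c * R ^ l := by
    intro j hj
    have hjl : j ≤ l := Nat.lt_succ_iff.1 (Finset.mem_range.1 hj)
    rw [zsmul_eq_mul, norm_mul, norm_pow]
    have h3 : ‖((b.coeff j : ℤ) : ℂ)‖ = |((b.coeff j : ℤ) : ℝ)| := by
      rw [← Complex.ofReal_intCast, Complex.norm_real, Real.norm_eq_abs]
    rw [h3]
    refine mul_le_mul (hc j) ?_ (by positivity) hc0
    calc ‖β‖ ^ j ≤ R ^ j := pow_le_pow_left₀ (norm_nonneg _) hβ _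
      _ ≤ R ^ l := pow_le_pow_right₀ hR hjl
  refine (norm_sum_le _ _).trans ((Finset.sum_le_sum h2).trans ?_)
  rw [Finset.sum_const, Finset.card_range, nsmul_eq_mul]

/-- naturals are powers of numbers at least two -/
theorem nat_le_pow {Q : ℝ} (hQ : 2 ≤ Q) (c : ℕ) : (c : ℝ) ≤ Q ^ c := by
  calc (c : ℝ) ≤ 2 ^ c := by exact_mod_cast Nat.lt_two_pow_self.le
    _ ≤ Q ^ c := pow_le_pow_left₀ (by norm_num) hQ c

theorem tma {H : ℕ → ℕ} {L : IntermediateField (Q0 H) QS} {x : L} (hx : (x : QS) ∈ ZS) {O : ValuationSubring L}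
    (hOV : O = (V0 H).comap (algebraMap L QS)) {r : ℕ} {p : ℕ → Polynomial ℤ} {P : Polynomial (Q0 H)}
    (hP : PCl H r p P) {π g' : L} {s W m : ℕ} {z : Fin s → L} {φ : Fin m → L}
    {b : Fin m → Fin s → Fin (4 * W) → Polynomial (Q0 H)} (hr : 2 ≤ r) (hs : 1 ≤ s) (hW : 1 ≤ W)
    (π0 : π ≠ 0) (πm : π ∈ O.nonunits) (zO : ∀ i, z i ∈ O) (m1 : 0 < m) (li : LinearIndependent (Q0 H) φ)
    (int : ∀ i, IsInt (Q0 H) x (φ i)) (gO : g' ∈ O) (Pg : Polynomial.aeval g' P / π ^ (4 * W) ∈ O)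
    (exp : ∀ j, (π ^ (2 * W) * φ j - ∑ i, ∑ u : Fin (4 * W), Polynomial.aeval g' (b j i u) * z i * π ^ (u : ℕ)) /
      π ^ (4 * W) ∈ O)
    (hS : ∀ (al : Fin r → algebraicClosure (Q0 H) AS), Function.Injective al → (∀ j, Polynomial.aeval (al j) P = 0) →
      ∀ i, 1 ≤ i → i ≤ 4 → ∀ J : Finset (Fin r), i * J.card ≤ r + i - 1 →
        ∀ c : Fin r → Fin s → Fin (4 * W) → algebraicClosure (Q0 H) AS, ∃ w : Fin m → algebraicClosure (Q0 H) AS,
          ∀ j ∈ J, ∀ (i0 : Fin s) (u : Fin (4 * W)), (u : ℕ) < i * W →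
            ∑ l, w l * Polynomial.aeval (al j) (b l i0 u) = c j i0 u) :
    ∃ C₀ : ℕ, ∀ C ≥ C₀, ∀ E : ℕ, ∀ᶠ N in UU, ∃ (α ϖ : ℝ) (z' : Fin s → ℝ)
      (b' : Fin m → Fin s → ℕ → Polynomial ℤ) (e : ℤ) (Y : Fin m → ℤ),
      Polynomial.aeval α (p N) = 0 ∧ |ϖ| * (((H N : ℝ) + 2) ^ C) ^ E ≤ 1 ∧
      ∀ (B : ℝ) (cu cw : ℤ), 1 ≤ B → B ≤ ((H N : ℝ) + 2) ^ C →
        (((p N).map (Int.castRingHom ℂ)).roots.map fun β => max 1 ‖β‖).prod ≤ B → |(cu : ℝ)| ≤ B → 1 ≤ cw →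
        (cw : ℝ) ≤ B → Pool.Agent.H77.SF.Dat r s m W (((H N : ℝ) + 2) ^ C) B (p N) α cu cw ϖ z' b' e Y := by
  classical
  have hmemO : ∀ a : L, a ∈ O ↔ (a : QS) ∈ V0 H := fun a => by rw [hOV]; exact ValuationSubring.mem_comap
  have hnon : (π : QS) ∈ (V0 H).nonunits := by
    rw [ValuationSubring.mem_nonunits_iff_or] at πm ⊢
    rcases πm with h1 | h1
    · exact Or.inl (by rw [h1]; rfl)
    · exact Or.inr (fun h2 => h1 ((hmemO _).2 h2))
  obtain ⟨πN, hπN⟩ := cl_surj (π : QS)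
  obtain ⟨gN, hgN⟩ := cl_surj (g' : QS)
  choose zN hzN using fun i => cl_surj (z i : QS)
  obtain ⟨δ, bN, C1, l, hδ, hbN, hcl⟩ := den_poly (H := H)
    (fun t : Fin m × Fin s × Fin (4 * W) => b t.1 t.2.1 t.2.2)
  obtain ⟨e, Y, C2, he, hY⟩ := den_int (H := H) hx (φ := fun i => ((φ i : L) : QS)) (fun i => by
    have h1 := (int i)
    have h2 : IsIntegral (Algebra.adjoin (Q0 H) {(x : QS)}) ((φ i : L) : QS) := by
      obtain ⟨q, hq, hqz⟩ := h1
      have hmap : ∀ a ∈ Algebra.adjoin (Q0 H) {x}, (a : QS) ∈ Algebra.adjoin (Q0 H) {(x : QS)} := by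
        intro a ha
        have h3 : (IntermediateField.val L) a ∈ (Algebra.adjoin (Q0 H) {x}).map (IntermediateField.val L) := ⟨a, ha, rfl⟩
        rw [AlgHom.map_adjoin, Set.image_singleton] at h3
        exact h3
      let ψ : Algebra.adjoin (Q0 H) {x} →+* Algebra.adjoin (Q0 H) {(x : QS)} :=
        ((algebraMap L QS).comp (Algebra.adjoin (Q0 H) {x}).subtype).codRestrict
          (Algebra.adjoin (Q0 H) {(x : QS)}).toSubring (fun a => hmap a a.2)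
      refine ⟨q.map ψ, hq.map ψ, ?_⟩
      rw [Polynomial.eval₂_map]
      have h4 := congrArg (algebraMap L QS) hqz
      rw [Polynomial.hom_eval₂, map_zero] at h4
      exact h4
    exact h2)
  obtain ⟨al, aN, hR⟩ := rts hP
  obtain ⟨C3, hC3⟩ := rt_bd hR
  have hπ0 : (cl πN : QS) ≠ 0 := by
    rw [← hπN]
    intro h1
    exact π0 (Subtype.ext h1)
  have hae : ∀ q : Polynomial (Q0 H), ((Polynomial.aeval g' q : L) : QS) = Polynomial.aeval (cl gN : QS) q := by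
    intro q
    rw [← hgN]
    exact (Polynomial.aeval_algebraMap_apply QS g' q).symm
  obtain ⟨α, C4, hα⟩ := rea hP hR (M := 4 * W) (by omega) hπ0 (hπN ▸ hnon) (gN := gN) (by
    have h1 := (hmemO _).1 Pg
    rw [← hae, ← hπN]
    exact h1)
  obtain ⟨C5, hC5⟩ := v0_iff.1 (hgN ▸ (hmemO _).1 gO)
  have hz : ∃ C6 : ℕ, ∀ᶠ N in UU, ∀ i, |(zN i N : ℝ)| ≤ ((H N : ℝ) + 2) ^ C6 := by
    choose C hC using fun i => v0_iff.1 (hzN i ▸ (hmemO _).1 (zO i))
    refine ⟨∑ i, C i, ?_⟩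
    filter_upwards [Filter.eventually_all.2 hC] with N h1 i
    refine (h1 i).trans (pow_le_pow_right₀ ?_ (Finset.single_le_sum (f := C) (fun _ _ => Nat.zero_le _) (Finset.mem_univ i)))
    have : (0 : ℝ) ≤ (H N : ℝ) := Nat.cast_nonneg _
    linarith
  obtain ⟨C6, hC6⟩ := hz
  have hπ' : ∀ᶠ N in UU, πN N ≠ 0 := by
    have h5 : ¬ ∀ᶠ N in UU, πN N = 0 := by
      intro h5
      apply hπ0
      rw [cl_zero, cl_eq]
      exact h5
    exact Ultrafilter.eventually_not.2 h5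
  -- the expansions at the indices
  obtain ⟨T, hT⟩ : ∃ T : Fin m → ℕ → ℚ, T = fun j N => (δ N : ℚ) * πN N ^ (2 * W) * ((Y N j : ℚ) / (e N : ℚ)) -
      ∑ i, ∑ u : Fin (4 * W), Polynomial.aeval (gN N) (bN N (j, i, u)) * zN i N * πN N ^ (u : ℕ) := ⟨_, rfl⟩
  have hδV : (cl (fun N => (δ N : ℚ)) : QS) ∈ V0 H := by
    rw [v0_iff]
    refine ⟨C1, Filter.Eventually.of_forall fun N => ?_⟩
    have h1 := hδ N
    have h2 : (0 : ℝ) ≤ (δ N : ℝ) := by exact_mod_cast (by omega : (0 : ℤ) ≤ δ N)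
    rw [Rat.cast_intCast, abs_of_nonneg h2]
    exact_mod_cast h1.2
  have hTe : ∃ C7 : ℕ, ∀ᶠ N in UU, ∀ j, |(T j N : ℝ)| ≤ ((H N : ℝ) + 2) ^ C7 * |(πN N : ℝ)| ^ (4 * W) := by
    have h1 : ∀ j, ∃ C : ℕ, ∀ᶠ N in UU, |(T j N : ℝ)| ≤ ((H N : ℝ) + 2) ^ C * |(πN N : ℝ)| ^ (4 * W) := by
      intro j
      have h2 := (V0 H).mul_mem _ _ hδV ((hmemO _).1 (exp j))
      have h3 : (cl (fun N => (δ N : ℚ)) : QS) * ((((π ^ (2 * W) * φ j - ∑ i, ∑ u : Fin (4 * W),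
          Polynomial.aeval g' (b j i u) * z i * π ^ (u : ℕ)) / π ^ (4 * W) : L)) : QS) =
          cl (fun N => T j N * (πN N ^ (4 * W))⁻¹) := by
        have h4 : ((((π ^ (2 * W) * φ j - ∑ i, ∑ u : Fin (4 * W),
            Polynomial.aeval g' (b j i u) * z i * π ^ (u : ℕ)) / π ^ (4 * W) : L)) : QS) =
            ((π : QS) ^ (2 * W) * (φ j : QS) - ∑ i, ∑ u : Fin (4 * W),
              ((Polynomial.aeval g' (b j i u) : L) : QS) * (z i : QS) * (π : QS) ^ (u : ℕ)) * ((π : QS) ^ (4 * W))⁻¹ := by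
          have h5 : ∀ a : L, (a : QS) = algebraMap L QS a := fun _ => rfl
          simp only [h5, map_sub, map_mul, map_pow, map_sum, div_eq_mul_inv, map_inv₀]
        rw [h4, ← mul_assoc]
        have h6 : (cl (fun N => T j N * (πN N ^ (4 * W))⁻¹) : QS) = cl (T j) * (cl πN ^ (4 * W))⁻¹ := by
          rw [← cl_powf, cl_inv, cl_mul]
          rfl
        rw [h6, hπN]
        congr 1
        rw [mul_sub, Finset.mul_sum]
        have h7 : T j = (fun N => (δ N : ℚ)) * πN ^ (2 * W) * (fun N => (Y N j : ℚ) / (e N : ℚ)) -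
            ∑ i, ∑ u : Fin (4 * W), (fun N => Polynomial.aeval (gN N) (bN N (j, i, u))) * zN i * πN ^ (u : ℕ) := by
          rw [hT]
          funext N
          simp only [Pi.sub_apply, Pi.mul_apply, Pi.pow_apply, Finset.sum_apply]
        have h8 : ∀ f g : ℕ → ℚ, (cl (f - g) : QS) = cl f - cl g := fun f g => map_sub (clHom ℚ) f g
        rw [h7, h8, cl_mulf, cl_mulf, cl_powf, cl_sumf]
        congr 1
        · rw [hY j]
          ring
        · refine Finset.sum_congr rfl fun i _ => ?_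
          rw [cl_sumf, Finset.mul_sum]
          refine Finset.sum_congr rfl fun u _ => ?_
          rw [cl_mulf, cl_mulf, cl_powf, hae, hzN i]
          have h9 := aev_qs (H := H) (P := b j i u) (q := fun N => bN N (j, i, u)) (l := l) (fun N => (hbN N _).1)
            (δ := fun N => (δ N : ℚ)) (hcl (j, i, u)) gN
          rw [← h9]
          ring
      rw [h3, v0_iff] at h2
      obtain ⟨C, hC⟩ := h2
      refine ⟨C, ?_⟩
      filter_upwards [hC, hπ'] with N k1 k2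
      have hπp : 0 < |(πN N : ℝ)| := abs_pos.2 (Rat.cast_ne_zero.2 k2)
      rw [Rat.cast_mul, abs_mul, Rat.cast_inv, Rat.cast_pow, abs_inv, abs_pow] at k1
      rwa [← div_eq_mul_inv, div_le_iff₀ (pow_pos hπp _)] at k1
    choose C hC using h1
    refine ⟨∑ j, C j, ?_⟩
    filter_upwards [Filter.eventually_all.2 hC] with N k1 j
    refine (k1 j).trans (mul_le_mul_of_nonneg_right (pow_le_pow_right₀ ?_
      (Finset.single_le_sum (f := C) (fun _ _ => Nat.zero_le _) (Finset.mem_univ j))) (by positivity))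
    have : (0 : ℝ) ≤ (H N : ℝ) := Nat.cast_nonneg _
    linarith
  obtain ⟨C7, hC7⟩ := hTe
  -- the surjectivity at the indices
  have hsur : ∀ᶠ N in UU, ∀ x : Fin 5 × Finset (Fin r), 1 ≤ (x.1 : ℕ) → (x.1 : ℕ) * x.2.card ≤ r + x.1 - 1 →
      ∀ t : Fin r → Fin s → Fin (4 * W) → ℂ, ∃ v : Fin m → ℂ, ∀ j ∈ x.2, ∀ (i : Fin s) (u : Fin (4 * W)),
        (u : ℕ) < (x.1 : ℕ) * W → ∑ l, v l * Polynomial.aeval ((aN N j : AA) : ℂ) (bN N (l, i, u)) = t j i u := by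
    apply Filter.eventually_all.2
    rintro ⟨i, J⟩
    by_cases h1 : 1 ≤ (i : ℕ)
    swap
    · exact Filter.Eventually.of_forall fun N h2 => absurd h2 h1
    by_cases h2 : (i : ℕ) * J.card ≤ r + i - 1
    swap
    · exact Filter.Eventually.of_forall fun N _ h3 => absurd h3 h2
    have h3 := tsj hR (hS al hR.inj hR.rt i h1 (Nat.lt_succ_iff.1 i.2) J h2) (fun N => (hδ N).1)
      (fun N t => (hbN N t).1) hcl
    exact h3.mono fun N h4 _ _ => h4
  -- constants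
  obtain ⟨R1, hR1⟩ : ∃ R1 : ℕ, R1 = C3 + C4 + C5 + 1 := ⟨_, rfl⟩
  obtain ⟨K, hK⟩ : ∃ K : ℕ, K = (l + 1) + C1 + l + R1 * l + C4 := ⟨_, rfl⟩
  obtain ⟨C₀, hC₀⟩ : ∃ C₀ : ℕ, C₀ = 1 + C2 + C6 + K + C7 + (s * (4 * W)) + 1 := ⟨_, rfl⟩
  refine ⟨C₀, fun C hC E => ?_⟩
  filter_upwards [he, hC3, hα, hC5, hC6, hπ', hC7, hsur, v0_non.1 (hπN ▸ hnon) (C * E), v0_non.1 (hπN ▸ hnon) 0,
    v0_non.1 (hπN ▸ hnon) C4, Filter.eventually_all.2 (fun k : Fin m => (show ∀ᶠ N in UU, Y N k ≠ 0 by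
      have h5 : ¬ ∀ᶠ N in UU, Y N k = 0 := by
        intro h5
        apply li.ne_zero k
        apply Subtype.ext
        show ((φ k : L) : QS) = 0
        rw [hY k, cl_zero, cl_eq]
        refine h5.mono fun N h6 => ?_
        rw [h6, Int.cast_zero, zero_div]
      exact Ultrafilter.eventually_not.2 h5))]
    with N k1 k2 k3 k4 k5 k6 k7 k8 k9 k10 k11 k12
  obtain ⟨Q, hQ⟩ : ∃ Q : ℝ, Q = (H N : ℝ) + 2 := ⟨_, rfl⟩
  have hQ2 : 2 ≤ Q := by
    rw [hQ]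
    have : (0 : ℝ) ≤ (H N : ℝ) := Nat.cast_nonneg _
    linarith
  have hQ1 : 1 ≤ Q := by linarith
  have hQ0 : 0 < Q := by linarith
  rw [← hQ] at k2 k3 k4 k5 k7 k9 k11 ⊢
  have hQm : ∀ {a b : ℕ}, a ≤ b → Q ^ a ≤ Q ^ b := fun h => pow_le_pow_right₀ hQ1 h
  have hπp : 0 < |(πN N : ℝ)| := abs_pos.2 (Rat.cast_ne_zero.2 k6)
  have hπ1 : |(πN N : ℝ)| ≤ 1 := by rwa [pow_zero, mul_one] at k10
  have hco : ∀ t j, |(((bN N t).coeff j : ℤ) : ℝ)| ≤ Q ^ C1 := by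
    intro t j
    have h1 := (hbN N t).2 j
    rw [hQ]
    exact_mod_cast h1
  -- the numbers g and α are bounded
  have hR1' : (1 : ℝ) ≤ Q ^ R1 := one_le_pow₀ hQ1
  have hgR : |(gN N : ℝ)| ≤ Q ^ R1 := k4.trans (hQm (by omega))
  have hαR : |α N| ≤ Q ^ R1 := by
    have h1 : |(πN N : ℝ)| ^ (4 * W) ≤ |(πN N : ℝ)| := by
      calc |(πN N : ℝ)| ^ (4 * W) ≤ |(πN N : ℝ)| ^ 1 := pow_le_pow_of_le_one hπp.le hπ1 (by omega)
        _ = _ := pow_one _
    have h2 : |(gN N : ℝ) - α N| ≤ 1 := by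
      calc |(gN N : ℝ) - α N| ≤ Q ^ C4 * |(πN N : ℝ)| ^ (4 * W) := k3.2
        _ ≤ Q ^ C4 * |(πN N : ℝ)| := mul_le_mul_of_nonneg_left h1 (by positivity)
        _ ≤ 1 := by rw [mul_comm]; exact k11
    have h3 : |α N| ≤ |(gN N : ℝ)| + |(gN N : ℝ) - α N| := by
      have h4 : α N = (gN N : ℝ) - ((gN N : ℝ) - α N) := by ring
      calc |α N| = |(gN N : ℝ) - ((gN N : ℝ) - α N)| := by rw [← h4]
        _ ≤ _ := abs_sub _ _
    have h5 : (1 : ℝ) ≤ Q ^ C5 := one_le_pow₀ hQ1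
    calc |α N| ≤ Q ^ C5 + 1 := by linarith
      _ ≤ Q ^ C5 * 2 := by linarith
      _ ≤ Q ^ C5 * Q := mul_le_mul_of_nonneg_left hQ2 (by positivity)
      _ = Q ^ (C5 + 1) := (pow_succ _ _).symm
      _ ≤ Q ^ R1 := hQm (by omega)
  refine ⟨α N, (πN N : ℝ), fun i => (zN i N : ℝ), fun k i u => if hu : u < 4 * W then bN N (k, i, ⟨u, hu⟩) else 0,
    e N, fun k => δ N * Y N k, k3.1, by rw [← pow_mul]; exact k9, fun B cu cw hB1 hB hm h1 h2 h3 => ?_⟩
  have hQC : ∀ {a : ℕ}, a ≤ C₀ → Q ^ a ≤ Q ^ C := fun h => hQm (h.trans hC)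
  refine ⟨hr, hs, hW, ?_, hB1, hB, hP.mon N, hP.irr N, hP.deg N, k3.1, hm, h1, h2, h3, hπp, fun i => ?_, ?_, k1.1, ?_, ?_,
    fun k => ?_, ?_⟩
  · calc (2 : ℝ) ≤ Q := hQ2
      _ = Q ^ 1 := (pow_one _).symm
      _ ≤ Q ^ C := hQC (by omega)
  · exact (k5 i).trans (hQC (by omega))
  · intro k i u hu β hβ
    rw [dif_pos hu]
    obtain ⟨j, hj⟩ := hR.allN N β hβ
    have h4 : ‖β‖ ≤ Q ^ R1 := by
      rw [← hj]
      exact (k2 j).trans (hQm (by omega))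
    refine (poly_bd (hbN N (k, i, ⟨u, hu⟩)).1 (hco _) hR1' h4).trans ?_
    have h5 := nat_le_pow hQ2 (l + 1)
    calc ((l + 1 : ℕ) : ℝ) * (Q ^ C1 * (Q ^ R1) ^ l) ≤ Q ^ (l + 1) * (Q ^ C1 * (Q ^ R1) ^ l) :=
          mul_le_mul_of_nonneg_right h5 (by positivity)
      _ = Q ^ ((l + 1) + C1 + R1 * l) := by rw [← pow_mul, pow_add, pow_add]; ring
      _ ≤ Q ^ C := hQC (by omega)
  · have h4 : (e N : ℝ) ≤ Q ^ C2 := by
      rw [hQ]
      exact_mod_cast k1.2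
    exact h4.trans (hQC (by omega))
  · refine ⟨⟨0, m1⟩, mul_ne_zero ?_ (k12 ⟨0, m1⟩)⟩
    have := (hδ N).1
    omega
  · -- the approximation
    have h4 : ∀ i, ∑ u ∈ Finset.range (4 * W), Polynomial.aeval (α N)
        (if hu : u < 4 * W then bN N (k, i, ⟨u, hu⟩) else 0) * (zN i N : ℝ) * (πN N : ℝ) ^ u =
        ∑ u : Fin (4 * W), Polynomial.aeval (α N) (bN N (k, i, u)) * (zN i N : ℝ) * (πN N : ℝ) ^ (u : ℕ) := by
      intro i
      rw [← Fin.sum_univ_eq_sum_range (fun u => Polynomial.aeval (α N)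
        (if hu : u < 4 * W then bN N (k, i, ⟨u, hu⟩) else 0) * (zN i N : ℝ) * (πN N : ℝ) ^ u)]
      refine Finset.sum_congr rfl fun u _ => ?_
      rw [dif_pos u.2]
    have h5 : (((T k N : ℚ)) : ℝ) = (πN N : ℝ) ^ (2 * W) * (((δ N * Y N k : ℤ) : ℝ) / (e N : ℝ)) -
        ∑ i, ∑ u : Fin (4 * W), Polynomial.aeval (gN N : ℝ) (bN N (k, i, u)) * (zN i N : ℝ) * (πN N : ℝ) ^ (u : ℕ) := by
      have h6 : ∀ q : Polynomial ℤ, ((Polynomial.aeval (gN N) q : ℚ) : ℝ) = Polynomial.aeval (gN N : ℝ) q := by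
        intro q
        have h7 := Polynomial.aeval_algebraMap_apply ℝ (gN N) q
        have h8 : algebraMap ℚ ℝ (gN N) = (gN N : ℝ) := rfl
        rw [h8] at h7
        exact h7.symm
      rw [hT]
      dsimp only
      push_cast
      simp only [h6]
      ring
    simp only [h4]
    have h6 : (πN N : ℝ) ^ (2 * W) * (((δ N * Y N k : ℤ) : ℝ) / (e N : ℝ)) -
        ∑ i, ∑ u : Fin (4 * W), Polynomial.aeval (α N) (bN N (k, i, u)) * (zN i N : ℝ) * (πN N : ℝ) ^ (u : ℕ) =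
        (T k N : ℝ) + ∑ i, ∑ u : Fin (4 * W), (Polynomial.aeval (gN N : ℝ) (bN N (k, i, u)) -
          Polynomial.aeval (α N) (bN N (k, i, u))) * (zN i N : ℝ) * (πN N : ℝ) ^ (u : ℕ) := by
      rw [h5]
      simp only [sub_mul, Finset.sum_sub_distrib]
      ring
    rw [h6]
    have h7 : ∀ (i : Fin s) (u : Fin (4 * W)), |(Polynomial.aeval (gN N : ℝ) (bN N (k, i, u)) -
        Polynomial.aeval (α N) (bN N (k, i, u))) * (zN i N : ℝ) * (πN N : ℝ) ^ (u : ℕ)| ≤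
        Q ^ (K + C6) * |(πN N : ℝ)| ^ (4 * W) := by
      intro i u
      rw [abs_mul, abs_mul, abs_pow]
      have h8 := poly_lip (hbN N (k, i, u)).1 (hco _) hR1' hgR hαR
      have h9 : |Polynomial.aeval (gN N : ℝ) (bN N (k, i, u)) - Polynomial.aeval (α N) (bN N (k, i, u))| ≤
          Q ^ K * |(πN N : ℝ)| ^ (4 * W) := by
        refine h8.trans ?_
        have h10 := nat_le_pow hQ2 (l + 1)
        have h11 := nat_le_pow hQ2 l
        calc ((l + 1 : ℕ) : ℝ) * (Q ^ C1 * ((l : ℝ) * (Q ^ R1) ^ l)) * |(gN N : ℝ) - α N|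
            ≤ (Q ^ (l + 1) * (Q ^ C1 * (Q ^ l * (Q ^ R1) ^ l))) * (Q ^ C4 * |(πN N : ℝ)| ^ (4 * W)) := by
              refine mul_le_mul ?_ k3.2 (abs_nonneg _) (by positivity)
              refine mul_le_mul h10 ?_ (by positivity) (by positivity)
              refine mul_le_mul_of_nonneg_left ?_ (by positivity)
              exact mul_le_mul_of_nonneg_right h11 (by positivity)
          _ = Q ^ K * |(πN N : ℝ)| ^ (4 * W) := by
              rw [hK, ← pow_mul, pow_add, pow_add, pow_add, pow_add]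
              ring
      have h12 : |(πN N : ℝ)| ^ (u : ℕ) ≤ 1 := pow_le_one₀ hπp.le hπ1
      calc |Polynomial.aeval (gN N : ℝ) (bN N (k, i, u)) - Polynomial.aeval (α N) (bN N (k, i, u))| *
            |(zN i N : ℝ)| * |(πN N : ℝ)| ^ (u : ℕ)
          ≤ (Q ^ K * |(πN N : ℝ)| ^ (4 * W)) * Q ^ C6 * 1 := by
            refine mul_le_mul ?_ h12 (by positivity) (by positivity)
            exact mul_le_mul h9 (k5 i) (abs_nonneg _) (by positivity)
        _ = Q ^ (K + C6) * |(πN N : ℝ)| ^ (4 * W) := by rw [pow_add]; ring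
    have h8 : |∑ i : Fin s, ∑ u : Fin (4 * W), (Polynomial.aeval (gN N : ℝ) (bN N (k, i, u)) -
        Polynomial.aeval (α N) (bN N (k, i, u))) * (zN i N : ℝ) * (πN N : ℝ) ^ (u : ℕ)| ≤
        ((s * (4 * W) : ℕ) : ℝ) * (Q ^ (K + C6) * |(πN N : ℝ)| ^ (4 * W)) := by
      calc |∑ i : Fin s, ∑ u : Fin (4 * W), (Polynomial.aeval (gN N : ℝ) (bN N (k, i, u)) -
            Polynomial.aeval (α N) (bN N (k, i, u))) * (zN i N : ℝ) * (πN N : ℝ) ^ (u : ℕ)|
          ≤ ∑ i : Fin s, ∑ u : Fin (4 * W), Q ^ (K + C6) * |(πN N : ℝ)| ^ (4 * W) := by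
            refine (Finset.abs_sum_le_sum_abs _ _).trans (Finset.sum_le_sum fun i _ => ?_)
            refine (Finset.abs_sum_le_sum_abs _ _).trans (Finset.sum_le_sum fun u _ => ?_)
            exact h7 i u
        _ = _ := by
            rw [Finset.sum_const, Finset.sum_const, Finset.card_univ, Finset.card_univ, Fintype.card_fin, Fintype.card_fin,
              nsmul_eq_mul, nsmul_eq_mul]
            push_cast
            ring
    have h9 := nat_le_pow hQ2 (s * (4 * W))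
    have h10 : (0 : ℝ) ≤ |(πN N : ℝ)| ^ (4 * W) := by positivity
    calc |(T k N : ℝ) + ∑ i : Fin s, ∑ u : Fin (4 * W), (Polynomial.aeval (gN N : ℝ) (bN N (k, i, u)) -
          Polynomial.aeval (α N) (bN N (k, i, u))) * (zN i N : ℝ) * (πN N : ℝ) ^ (u : ℕ)|
        ≤ Q ^ C7 * |(πN N : ℝ)| ^ (4 * W) + ((s * (4 * W) : ℕ) : ℝ) * (Q ^ (K + C6) * |(πN N : ℝ)| ^ (4 * W)) :=
          (abs_add_le _ _).trans (add_le_add (k7 k) h8)
      _ ≤ Q ^ C7 * |(πN N : ℝ)| ^ (4 * W) + Q ^ (s * (4 * W)) * (Q ^ (K + C6) * |(πN N : ℝ)| ^ (4 * W)) :=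
          add_le_add le_rfl (mul_le_mul_of_nonneg_right h9 (by positivity))
      _ = (Q ^ C7 + Q ^ (s * (4 * W) + (K + C6))) * |(πN N : ℝ)| ^ (4 * W) := by
          rw [pow_add Q (s * (4 * W)) (K + C6)]
          ring
      _ ≤ (Q ^ (C₀ - 1) + Q ^ (C₀ - 1)) * |(πN N : ℝ)| ^ (4 * W) := by
          refine mul_le_mul_of_nonneg_right (add_le_add (hQm (by omega)) (hQm (by omega))) h10
      _ = (Q ^ (C₀ - 1) * 2) * |(πN N : ℝ)| ^ (4 * W) := by ring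
      _ ≤ (Q ^ (C₀ - 1) * Q) * |(πN N : ℝ)| ^ (4 * W) := by
          refine mul_le_mul_of_nonneg_right (mul_le_mul_of_nonneg_left hQ2 (by positivity)) h10
      _ = Q ^ C₀ * |(πN N : ℝ)| ^ (4 * W) := by
          rw [← pow_succ]
          congr 2
          omega
      _ ≤ Q ^ C * |(πN N : ℝ)| ^ (4 * W) := mul_le_mul_of_nonneg_right (hQC le_rfl) h10
  · -- surjectivity
    intro i hi1 hi4 J hJ hcard t
    obtain ⟨J', hJ'⟩ : ∃ J' : Finset (Fin r), J' = Finset.univ.filter (fun j => ((aN N j : AA) : ℂ) ∈ J) := ⟨_, rfl⟩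
    have h4 : J'.card ≤ J.card := by
      refine Finset.card_le_card_of_injOn (fun j => ((aN N j : AA) : ℂ)) (fun j hj => ?_) (fun a _ b _ hab => ?_)
      · rw [hJ'] at hj
        exact (Finset.mem_filter.1 hj).2
      · exact hR.injN N (Subtype.ext hab)
    obtain ⟨v, hv⟩ := k8 (⟨i, by omega⟩, J') hi1 ((Nat.mul_le_mul_left i h4).trans hcard)
      (fun j i0 u => t ((aN N j : AA) : ℂ) i0 u)
    refine ⟨v, fun β hβ i0 u hu => ?_⟩
    obtain ⟨j, hj⟩ := hR.allN N β (hJ β hβ)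
    have hu4 : u < 4 * W := lt_of_lt_of_le hu (Nat.mul_le_mul_right W hi4)
    have h5 := hv j (by rw [hJ']; exact Finset.mem_filter.2 ⟨Finset.mem_univ _, by rw [hj]; exact hβ⟩) i0 ⟨u, hu4⟩ hu
    rw [hj] at h5
    simp only [dif_pos hu4]
    exact h5

end Pool.Agent.H90.SF
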